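import Mathlib

/-!
# The group `SU(2)`

Entries, diagonalisation, and: a normal subgroup of `SU(2)` which contains a diagonal matrix
`diag (z, z⁻¹)` with `z ^ 2 ≠ 1` is the whole group.
-/

open Matrix ComplexConjugate

namespace Pool.Agent.Lib.MP_7ef860_gt

/-- The group `SU(2)`. -/
abbrev SU2 : Type := Matrix.specialUnitaryGroup (Fin 2) ℂ

theorem su2_mem_iff (α β : ℂ) : (!![α, -conj β; β, conj α] : Matrix (Fin 2) (Fin 2) ℂ) ∈
    Matrix.specialUnitaryGroup (Fin 2) ℂ ↔ Complex.normSq α + Complex.normSq β = 1 := by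
  have hdet : (!![α, -conj β; β, conj α] : Matrix (Fin 2) (Fin 2) ℂ).det =
      ((Complex.normSq α + Complex.normSq β : ℝ) : ℂ) := by
    rw [Matrix.det_fin_two_of, Complex.ofReal_add, Complex.normSq_eq_conj_mul_self,
      Complex.normSq_eq_conj_mul_self]
    ring
  constructor
  · intro h
    have h1 := (Matrix.mem_specialUnitaryGroup_iff.1 h).2
    rw [hdet] at h1
    exact_mod_cast h1
  · intro h
    rw [Matrix.mem_specialUnitaryGroup_iff]
    refine ⟨?_, by rw [hdet, h]; simp⟩
    rw [Matrix.mem_unitaryGroup_iff]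
    have h' : ((Complex.normSq α + Complex.normSq β : ℝ) : ℂ) = 1 := by rw [h]; simp
    rw [Complex.ofReal_add, Complex.normSq_eq_conj_mul_self,
      Complex.normSq_eq_conj_mul_self] at h'
    ext i j
    fin_cases i <;> fin_cases j <;>
      simp [Matrix.mul_apply, Fin.sum_univ_two, Matrix.star_apply] <;>
      first | ring1 | linear_combination h'

/-- The element `(α, - conj β; β, conj α)` of `SU(2)`. -/
def mk2 (α β : ℂ) (h : Complex.normSq α + Complex.normSq β = 1) : SU2 :=
  ⟨!![α, -conj β; β, conj α], (su2_mem_iff α β).2 h⟩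

theorem su2_adj (A : SU2) : A.1 1 1 = conj (A.1 0 0) ∧ A.1 0 1 = -conj (A.1 1 0) := by
  have h1 := (Matrix.mem_specialUnitaryGroup_iff.1 A.2).1
  have h2 := (Matrix.mem_specialUnitaryGroup_iff.1 A.2).2
  rw [Matrix.mem_unitaryGroup_iff] at h1
  have h3 : A.1.adjugate = star A.1 := by
    have h4 : A.1.adjugate * A.1 = 1 := by rw [Matrix.adjugate_mul, h2, one_smul]
    calc A.1.adjugate = A.1.adjugate * (A.1 * star A.1) := by rw [h1, mul_one]
      _ = star A.1 := by rw [← mul_assoc, h4, one_mul]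
  rw [Matrix.adjugate_fin_two] at h3
  have h5 := congrFun (congrFun h3 0) 0
  have h6 := congrFun (congrFun h3 0) 1
  simp [Matrix.star_apply] at h5 h6
  exact ⟨h5, by rw [← h6]; ring⟩

theorem su2_norm (A : SU2) : Complex.normSq (A.1 0 0) + Complex.normSq (A.1 1 0) = 1 := by
  have h2 := (Matrix.mem_specialUnitaryGroup_iff.1 A.2).2
  rw [Matrix.det_fin_two, (su2_adj A).1, (su2_adj A).2] at h2
  have h3 : ((Complex.normSq (A.1 0 0) + Complex.normSq (A.1 1 0) : ℝ) : ℂ) = 1 := by
    rw [Complex.ofReal_add, Complex.normSq_eq_conj_mul_self, Complex.normSq_eq_conj_mul_self]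
    linear_combination h2
  exact_mod_cast h3

theorem su2_ext {A B : SU2} (h0 : A.1 0 0 = B.1 0 0) (h1 : A.1 1 0 = B.1 1 0) : A = B := by
  apply Subtype.ext
  ext i j
  fin_cases i <;> fin_cases j
  · exact h0
  · simp only [Fin.zero_eta, Fin.mk_one]
    rw [(su2_adj A).2, (su2_adj B).2, h1]
  · exact h1
  · simp only [Fin.mk_one]
    rw [(su2_adj A).1, (su2_adj B).1, h0]

@[simp] theorem mk2_00 (α β : ℂ) (h) : (mk2 α β h).1 0 0 = α := rfl
@[simp] theorem mk2_10 (α β : ℂ) (h) : (mk2 α β h).1 1 0 = β := rfl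
@[simp] theorem mk2_01 (α β : ℂ) (h) : (mk2 α β h).1 0 1 = -conj β := rfl
@[simp] theorem mk2_11 (α β : ℂ) (h) : (mk2 α β h).1 1 1 = conj α := rfl

theorem mul_00 (A B : SU2) : (A * B).1 0 0 = A.1 0 0 * B.1 0 0 + A.1 0 1 * B.1 1 0 := by
  show (A.1 * B.1) 0 0 = _
  rw [Matrix.mul_apply, Fin.sum_univ_two]

theorem mul_10 (A B : SU2) : (A * B).1 1 0 = A.1 1 0 * B.1 0 0 + A.1 1 1 * B.1 1 0 := by
  show (A.1 * B.1) 1 0 = _
  rw [Matrix.mul_apply, Fin.sum_univ_two]

theorem inv_00 (A : SU2) : (A⁻¹).1 0 0 = conj (A.1 0 0) := rfl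
theorem inv_10 (A : SU2) : (A⁻¹).1 1 0 = conj (A.1 0 1) := rfl

/-- The diagonal matrix `diag (z, z⁻¹)`. -/
def dg : Circle →* SU2 where
  toFun z := mk2 z 0 (by simp [Circle.normSq_coe])
  map_one' := su2_ext (by simp) (by simp)
  map_mul' z w := su2_ext (by rw [mul_00]; simp) (by rw [mul_10]; simp)

@[simp] theorem dg_00 (z : Circle) : (dg z).1 0 0 = z := rfl
@[simp] theorem dg_10 (z : Circle) : (dg z).1 1 0 = 0 := rfl
@[simp] theorem dg_01 (z : Circle) : (dg z).1 0 1 = 0 := by simp [(su2_adj _).2]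
@[simp] theorem dg_11 (z : Circle) : (dg z).1 1 1 = conj (z : ℂ) := rfl

/-- twice the real part of the upper left entry is the trace -/
theorem re_conj (A h : SU2) : ((h * A * h⁻¹).1 0 0).re = (A.1 0 0).re := by
  have h1 : ∀ B : SU2, 2 * ((B.1 0 0).re : ℂ) = Matrix.trace B.1 := by
    intro B
    rw [Matrix.trace_fin_two, (su2_adj B).1, Complex.add_conj]
    push_cast
    ring
  have h2 : Matrix.trace (h * A * h⁻¹).1 = Matrix.trace A.1 := by
    show Matrix.trace (h.1 * A.1 * (h⁻¹).1) = _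
    rw [Matrix.trace_mul_comm, ← mul_assoc]
    have : (h⁻¹).1 * h.1 = 1 := by
      show (h⁻¹ * h).1 = 1
      rw [inv_mul_cancel]
      rfl
    rw [this, one_mul]
  have h3 : (2 : ℂ) * (((h * A * h⁻¹).1 0 0).re : ℂ) = 2 * ((A.1 0 0).re : ℂ) := by
    rw [h1, h1, h2]
  have h4 := mul_left_cancel₀ two_ne_zero h3
  exact_mod_cast h4

/-- the point of the circle given by a complex number of norm one -/
def circ (z : ℂ) (h : Complex.normSq z = 1) : Circle :=
  ⟨z, mem_sphere_zero_iff_norm.2 (by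
    rw [Complex.normSq_eq_norm_sq] at h
    exact (pow_eq_one_iff_of_nonneg (norm_nonneg _) two_ne_zero).1 h)⟩

@[simp] theorem coe_circ (z : ℂ) (h : Complex.normSq z = 1) : (circ z h : ℂ) = z := rfl

theorem exists_diag (A : SU2) : ∃ (h : SU2) (w : Circle), A = h * dg w * h⁻¹ := by
  have hn := su2_norm A
  by_cases hβ : A.1 1 0 = 0
  · rw [hβ, Complex.normSq_zero, add_zero] at hn
    refine ⟨1, circ (A.1 0 0) hn, ?_⟩
    simp only [one_mul, inv_one, mul_one]
    exact su2_ext rfl hβ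
  · set α := A.1 0 0 with hα
    set β := A.1 1 0 with hβdef
    have hre : α.re ^ 2 ≤ 1 := by
      have h1 : 0 ≤ Complex.normSq β := Complex.normSq_nonneg _
      rw [Complex.normSq_apply] at hn
      nlinarith [mul_self_nonneg α.im]
    let w : ℂ := ⟨α.re, Real.sqrt (1 - α.re ^ 2)⟩
    have hsq : Real.sqrt (1 - α.re ^ 2) * Real.sqrt (1 - α.re ^ 2) = 1 - α.re ^ 2 :=
      Real.mul_self_sqrt (by linarith)
    have hw : Complex.normSq w = 1 := by
      rw [Complex.normSq_apply]
      show α.re * α.re + Real.sqrt (1 - α.re ^ 2) * Real.sqrt (1 - α.re ^ 2) = 1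
      rw [hsq]
      ring
    have hww : w * w - 2 * (α.re : ℂ) * w + 1 = 0 := by
      apply Complex.ext
      · simp only [Complex.sub_re, Complex.mul_re, Complex.add_re, Complex.one_re, Complex.zero_re,
          Complex.ofReal_re, Complex.ofReal_im, Complex.re_ofNat, Complex.im_ofNat, Complex.mul_im]
        show α.re * α.re - Real.sqrt (1 - α.re ^ 2) * Real.sqrt (1 - α.re ^ 2) - _ + 1 = 0
        rw [hsq]
        show _ - ((2 * α.re - 0 * 0) * α.re - (2 * 0 + 0 * α.re) * _) + 1 = 0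
        ring
      · simp only [Complex.sub_im, Complex.mul_re, Complex.add_im, Complex.one_im, Complex.zero_im,
          Complex.ofReal_re, Complex.ofReal_im, Complex.re_ofNat, Complex.im_ofNat, Complex.mul_im]
        show α.re * Real.sqrt (1 - α.re ^ 2) + Real.sqrt (1 - α.re ^ 2) * α.re - _ + 0 = 0
        show _ - ((2 * α.re - 0 * 0) * Real.sqrt (1 - α.re ^ 2) + (2 * 0 + 0 * α.re) * α.re) + 0 = 0
        ring
    set q : ℝ := Complex.normSq β + Complex.normSq (α - w) with hq
    have hq0 : 0 < q := by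
      have h1 : 0 < Complex.normSq β := Complex.normSq_pos.2 hβ
      have h2 : 0 ≤ Complex.normSq (α - w) := Complex.normSq_nonneg _
      linarith
    have hs0 : (Real.sqrt q : ℂ) ≠ 0 := by
      exact_mod_cast (Real.sqrt_pos.2 hq0).ne'
    have hvn : Complex.normSq (conj β / (Real.sqrt q : ℂ)) +
        Complex.normSq ((α - w) / (Real.sqrt q : ℂ)) = 1 := by
      rw [map_div₀, map_div₀, Complex.normSq_conj, Complex.normSq_ofReal, ← add_div, ← hq,
        Real.mul_self_sqrt hq0.le, div_self hq0.ne']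
    refine ⟨mk2 _ _ hvn, circ w hw, ?_⟩
    rw [eq_mul_inv_iff_mul_eq]
    have hn' : α * conj α + β * conj β = 1 := by
      have h' : ((Complex.normSq α + Complex.normSq β : ℝ) : ℂ) = 1 := by rw [hn]; simp
      rw [Complex.ofReal_add, Complex.normSq_eq_conj_mul_self,
        Complex.normSq_eq_conj_mul_self] at h'
      linear_combination h'
    have hre2 : α + conj α = 2 * (α.re : ℂ) := by
      rw [Complex.add_conj]
      push_cast
      ring
    apply su2_ext
    · rw [mul_00, mul_00, (su2_adj A).2, ← hα, ← hβdef]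
      simp only [mk2_00, mk2_10, dg_00, dg_10, coe_circ, mul_zero, add_zero]
      field_simp
      ring
    · rw [mul_10, mul_10, (su2_adj A).1, ← hα, ← hβdef]
      simp only [mk2_00, mk2_10, dg_00, dg_10, coe_circ, mul_zero, add_zero]
      field_simp
      linear_combination hn' + hww - w * hre2

/-- the rotation of angle `t` -/
noncomputable def rot (t : ℝ) : SU2 :=
  mk2 (Real.cos t : ℂ) (Real.sin t : ℂ) (by
    rw [Complex.normSq_ofReal, Complex.normSq_ofReal]
    nlinarith [Real.sin_sq_add_cos_sq t])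

theorem re_comm (z : Circle) (t : ℝ) :
    ((dg z * (rot t * (dg z)⁻¹ * (rot t)⁻¹)).1 0 0).re =
      1 - (1 - ((z : ℂ) ^ 2).re) * Real.sin t ^ 2 := by
  have hz : (z : ℂ) * conj (z : ℂ) = 1 := by
    rw [Complex.mul_conj]
    simp
  have hzn : (z : ℂ).re * (z : ℂ).re + (z : ℂ).im * (z : ℂ).im = 1 := by
    have := Circle.normSq_coe z
    rwa [Complex.normSq_apply] at this
  have hsc := Real.sin_sq_add_cos_sq t
  have h1 : (dg z * (rot t * (dg z)⁻¹ * (rot t)⁻¹)).1 0 0 =
      (Real.cos t : ℂ) ^ 2 + (z : ℂ) ^ 2 * (Real.sin t : ℂ) ^ 2 := by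
    simp only [mul_00, mul_10, inv_00, inv_10, (su2_adj _).2, (su2_adj _).1]
    simp only [dg_00, dg_10, rot, mk2_00, mk2_10]
    simp only [map_neg, map_mul, map_zero, Complex.conj_conj, Complex.conj_ofReal,
      mul_zero, zero_mul, add_zero, neg_zero]
    linear_combination (Real.cos t : ℂ) ^ 2 * hz
  rw [h1]
  simp only [Complex.add_re, ← Complex.ofReal_pow, Complex.ofReal_re, Complex.re_mul_ofReal]
  linear_combination hsc

theorem circle_eq_or {w w' : Circle} (h : (w' : ℂ).re = (w : ℂ).re) : w' = w ∨ w' = w⁻¹ := by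
  have h1 := Circle.normSq_coe w
  have h2 := Circle.normSq_coe w'
  rw [Complex.normSq_apply] at h1 h2
  have h3 : (w' : ℂ).im * (w' : ℂ).im = (w : ℂ).im * (w : ℂ).im := by
    rw [h] at h2
    linarith
  rcases mul_self_eq_mul_self_iff.1 h3 with h4 | h4
  · left
    exact Circle.ext (Complex.ext h h4)
  · right
    apply Circle.ext
    rw [Circle.coe_inv_eq_conj]
    exact Complex.ext (by simpa using h) (by simpa using h4)

theorem re_lt_one {z : Circle} (hz : z ≠ 1) : (z : ℂ).re < 1 := by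
  have h1 := Circle.normSq_coe z
  rw [Complex.normSq_apply] at h1
  have h2 : (z : ℂ).re ≤ 1 := by nlinarith [mul_self_nonneg (z : ℂ).im]
  refine lt_of_le_of_ne h2 fun h3 => hz ?_
  rw [h3] at h1
  have h4 : (z : ℂ).im = 0 := by
    have : (z : ℂ).im * (z : ℂ).im = 0 := by linarith
    exact mul_self_eq_zero.1 this
  exact Circle.ext (Complex.ext (by simpa using h3) (by simpa using h4))

theorem normal_eq_top {N : Subgroup SU2} (hN : N.Normal) {z : Circle} (hz : dg z ∈ N)
    (hz2 : z ^ 2 ≠ 1) : N = ⊤ := by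
  have hlt : ((z : ℂ) ^ 2).re < 1 := by
    have := re_lt_one hz2
    simpa using this
  have hc : ∀ w : Circle, ((z : ℂ) ^ 2).re ≤ (w : ℂ).re → dg w ∈ N := by
    intro w hw
    have hw1 : (w : ℂ).re ≤ 1 := by
      by_cases h : w = 1
      · rw [h]
        simp
      · exact (re_lt_one h).le
    set x : ℝ := (1 - (w : ℂ).re) / (1 - ((z : ℂ) ^ 2).re) with hx
    have hpos : 0 < 1 - ((z : ℂ) ^ 2).re := by linarith
    have hx0 : 0 ≤ x := div_nonneg (by linarith) hpos.le
    have hx1 : x ≤ 1 := by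
      rw [hx, div_le_one hpos]
      linarith
    have hsin : Real.sin (Real.arcsin (Real.sqrt x)) ^ 2 = x := by
      rw [Real.sin_arcsin (by linarith [Real.sqrt_nonneg x]) (Real.sqrt_le_one.2 hx1),
        Real.sq_sqrt hx0]
    have hM : dg z * (rot (Real.arcsin (Real.sqrt x)) * (dg z)⁻¹ *
        (rot (Real.arcsin (Real.sqrt x)))⁻¹) ∈ N :=
      N.mul_mem hz (hN.conj_mem _ (N.inv_mem hz) _)
    have hre := re_comm z (Real.arcsin (Real.sqrt x))
    obtain ⟨h, w', hw'⟩ := exists_diag (dg z * (rot (Real.arcsin (Real.sqrt x)) * (dg z)⁻¹ *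
        (rot (Real.arcsin (Real.sqrt x)))⁻¹))
    rw [hw'] at hM hre
    have hmem : dg w' ∈ N := by
      have := hN.conj_mem _ hM h⁻¹
      simpa [mul_assoc] using this
    rw [re_conj, hsin, dg_00, hx, mul_div_cancel₀ _ hpos.ne'] at hre
    rcases circle_eq_or (w := w) (w' := w') (by linarith) with h1 | h1
    · rwa [h1] at hmem
    · rw [h1, map_inv] at hmem
      simpa using N.inv_mem hmem
  have hd : ∀ w : Circle, dg w ∈ N := by
    intro w
    obtain ⟨θ, rfl⟩ := Circle.exp_surjective w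
    have h1 : Filter.Tendsto (fun n : ℕ => Real.cos (θ / ((n : ℝ) + 1))) Filter.atTop
        (nhds (Real.cos 0)) := by
      apply (Real.continuous_cos.tendsto 0).comp
      have h2 := (tendsto_one_div_add_atTop_nhds_zero_nat (𝕜 := ℝ)).const_mul θ
      rw [mul_zero] at h2
      refine h2.congr fun n => ?_
      rw [mul_one_div]
    rw [Real.cos_zero] at h1
    obtain ⟨n, hn⟩ := (h1.eventually_const_lt hlt).exists
    have h2 : dg (Circle.exp (θ / ((n : ℝ) + 1))) ∈ N := by
      apply hc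
      rw [Circle.coe_exp, Complex.exp_ofReal_mul_I_re]
      exact hn.le
    have h3 : Circle.exp θ = Circle.exp (θ / ((n : ℝ) + 1)) ^ (n + 1) := by
      rw [← Circle.exp_natCast_mul]
      congr 1
      push_cast
      field_simp
    rw [h3, map_pow]
    exact N.pow_mem h2 _
  rw [Subgroup.eq_top_iff']
  intro A
  obtain ⟨h, w, rfl⟩ := exists_diag A
  exact hN.conj_mem _ (hd w) h

end Pool.Agent.Lib.MP_7ef860_gt
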