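import Mathlib
import Pool.Agent.Lib.MP_7ef860_gt.SU2

/-!
# Definitions: `BSU(2)`, smooth actions, kinetic bundles, unstable Adams maps

* `ESU2` is the unit sphere of the Hilbert space `ℓ² ⊗ ℂ² = ℓ² × ℓ²`, a contractible space on which
  `SU(2)` acts freely (through `ℂ²`), and `BSU2` is the orbit space.  So `ESU2 → BSU2` is a
  universal principal `SU(2)`-bundle.
* `ET` is the unit sphere of `ℓ²`, a contractible space with free action of the circle `T`, and `BT`
  is the orbit space (infinite complex projective space).  The inclusion `T → SU(2)`,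
  `z ↦ diag (z, z⁻¹)`, of the maximal torus induces `inclBT : BT → BSU2`, `[y] ↦ [(y, 0)]`.
* `BTPow k` : the maps `BT → BT` induced by the homomorphism `z ↦ z ^ k` of the circle.
* `IsUnstableAdams k ψ` : the restriction to `BT` of the self-map `ψ` of `BSU2` is homotopic to
  the map `BT → BT → BSU2` induced by `z ↦ z ^ k`.
* `SmoothAction I W` : actions of `SU(2)` on a manifold `W` by smooth diffeomorphisms.
* `SmoothAction.Total`, `SmoothAction.proj` : the associated bundle `ESU2 ×_{SU(2)} W → BSU2`.
* `Pullback ψ s` : the total space of the pullback of this bundle along `ψ : BSU2 → BSU2`.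
* `SmoothIso ψ s s'` : isomorphisms, as smooth bundles, from the bundle of `s'` to the pullback along
  `ψ` of the bundle of `s`.
* `PullbackIsKinetic ψ s` : there is an action `s'` and such an isomorphism.
-/

open Matrix ComplexConjugate
open scoped Manifold ContDiff Topology

noncomputable section

namespace Pool.Agent.Lib.MP_7ef860_gt

/-- The Hilbert space `ℓ²`. -/
abbrev Hilb : Type := lp (fun _ : ℕ => ℂ) 2

/-! ### The universal bundle of `SU(2)` -/

/-- `(x₁, x₂)` has norm one in `ℓ² ⊗ ℂ² = ℓ² × ℓ²`. -/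
def OnSphere (x : Hilb × Hilb) : Prop := ‖x.1‖ ^ 2 + ‖x.2‖ ^ 2 = 1

/-- The unit sphere of `ℓ² ⊗ ℂ² = ℓ² × ℓ²`. -/
def ESU2 : Type := {x : Hilb × Hilb // OnSphere x}

instance : TopologicalSpace ESU2 := instTopologicalSpaceSubtype

/-- The linear combination `a x₁ + b x₂` of the two components of `x`. -/
def lin (a b : ℂ) (x : Hilb × Hilb) : Hilb := a • x.1 + b • x.2

theorem norm_lin (A : SU2) (x : Hilb × Hilb) :
    ‖lin (A.1 0 0) (A.1 0 1) x‖ ^ 2 + ‖lin (A.1 1 0) (A.1 1 1) x‖ ^ 2 =
      ‖x.1‖ ^ 2 + ‖x.2‖ ^ 2 := by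
  have h1 := su2_norm A
  rw [Complex.normSq_eq_norm_sq, Complex.normSq_eq_norm_sq] at h1
  unfold lin
  rw [(su2_adj A).1, (su2_adj A).2, @norm_add_sq ℂ, @norm_add_sq ℂ]
  simp only [norm_smul, norm_neg, RCLike.norm_conj, inner_smul_left, inner_smul_right]
  have h2 : -conj (A.1 1 0) * (conj (A.1 0 0) * inner ℂ x.1 x.2) =
      - (conj (A.1 0 0) * (conj (A.1 1 0) * inner ℂ x.1 x.2)) := by ring
  rw [h2]
  simp only [map_neg]
  linear_combination (‖x.1‖ ^ 2 + ‖x.2‖ ^ 2) * h1

/-- `A = (a, b; c, d)` in `SU(2)` maps `(x₁, x₂)` to `(a x₁ + b x₂, c x₁ + d x₂)`. -/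
def ESU2.act (A : SU2) (x : ESU2) : ESU2 :=
  ⟨(lin (A.1 0 0) (A.1 0 1) x.1, lin (A.1 1 0) (A.1 1 1) x.1), (norm_lin A x.1).trans x.2⟩

theorem ESU2.one_act (x : ESU2) : ESU2.act 1 x = x := by
  apply Subtype.ext
  show ((1 : Matrix (Fin 2) (Fin 2) ℂ) 0 0 • x.1.1 + (1 : Matrix (Fin 2) (Fin 2) ℂ) 0 1 • x.1.2,
    (1 : Matrix (Fin 2) (Fin 2) ℂ) 1 0 • x.1.1 + (1 : Matrix (Fin 2) (Fin 2) ℂ) 1 1 • x.1.2) = x.1
  simp

theorem ESU2.mul_act (A B : SU2) (x : ESU2) : ESU2.act (A * B) x = ESU2.act A (ESU2.act B x) := by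
  apply Subtype.ext
  show ((A.1 * B.1) 0 0 • x.1.1 + (A.1 * B.1) 0 1 • x.1.2,
    (A.1 * B.1) 1 0 • x.1.1 + (A.1 * B.1) 1 1 • x.1.2) =
    (A.1 0 0 • (B.1 0 0 • x.1.1 + B.1 0 1 • x.1.2) +
      A.1 0 1 • (B.1 1 0 • x.1.1 + B.1 1 1 • x.1.2),
    A.1 1 0 • (B.1 0 0 • x.1.1 + B.1 0 1 • x.1.2) +
      A.1 1 1 • (B.1 1 0 • x.1.1 + B.1 1 1 • x.1.2))
  simp only [Matrix.mul_apply, Fin.sum_univ_two, smul_add, add_smul, smul_smul]
  refine Prod.ext ?_ ?_ <;> simp only <;> abel

/-- `SU(2)` acts on `ESU2` through the second factor of `ℓ² ⊗ ℂ²`. -/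
instance : MulAction SU2 ESU2 where
  smul := ESU2.act
  one_smul := ESU2.one_act
  mul_smul := ESU2.mul_act

/-- The classifying space `BSU(2)`. -/
def BSU2 : Type := MulAction.orbitRel.Quotient SU2 ESU2

instance : TopologicalSpace BSU2 :=
  inferInstanceAs (TopologicalSpace (Quotient (MulAction.orbitRel SU2 ESU2)))

/-- The projection `ESU2 → BSU2`. -/
def toB (x : ESU2) : BSU2 := Quotient.mk (MulAction.orbitRel SU2 ESU2) x

/-! ### The universal bundle of the maximal torus -/

/-- The unit sphere of `ℓ²`. -/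
def ET : Type := {y : Hilb // ‖y‖ = 1}

instance : TopologicalSpace ET := instTopologicalSpaceSubtype

theorem ET.norm_smul (z : Circle) (y : ET) : ‖(z : ℂ) • y.1‖ = 1 := by
  rw [_root_.norm_smul, Circle.norm_coe, one_mul, y.2]

/-- Scalar multiplication by a point of the circle. -/
def ET.act (z : Circle) (y : ET) : ET := ⟨(z : ℂ) • y.1, ET.norm_smul z y⟩

theorem ET.one_act (y : ET) : ET.act 1 y = y := by
  apply Subtype.ext
  show ((1 : Circle) : ℂ) • y.1 = y.1
  simp

theorem ET.mul_act (z w : Circle) (y : ET) : ET.act (z * w) y = ET.act z (ET.act w y) := by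
  apply Subtype.ext
  show ((z * w : Circle) : ℂ) • y.1 = (z : ℂ) • (w : ℂ) • y.1
  rw [Circle.coe_mul, smul_smul]

/-- The circle acts on the unit sphere of `ℓ²` by scalar multiplication. -/
instance : MulAction Circle ET where
  smul := ET.act
  one_smul := ET.one_act
  mul_smul := ET.mul_act

/-- The classifying space of the circle. -/
def BT : Type := MulAction.orbitRel.Quotient Circle ET

instance : TopologicalSpace BT :=
  inferInstanceAs (TopologicalSpace (Quotient (MulAction.orbitRel Circle ET)))

/-- The projection `ET → BT`. -/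
def toBT (y : ET) : BT := Quotient.mk (MulAction.orbitRel Circle ET) y

/-- The inclusion of `ET` into `ESU2`, equivariant for `z ↦ diag (z, z⁻¹)`. -/
def inclET (y : ET) : ESU2 := ⟨(y.1, 0), by rw [OnSphere, y.2]; simp⟩

theorem inclET_smul (z : Circle) (y : ET) : inclET (z • y) = dg z • inclET y := by
  apply Subtype.ext
  show ((z : ℂ) • y.1, (0 : Hilb)) = ((z : ℂ) • y.1 + (dg z).1 0 1 • (0 : Hilb),
    (dg z).1 1 0 • y.1 + (dg z).1 1 1 • (0 : Hilb))
  rw [dg_10]
  simp

theorem continuous_inclET : Continuous inclET :=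
  Continuous.subtype_mk (continuous_subtype_val.prodMk continuous_const) _

theorem toB_smul (A : SU2) (x : ESU2) : toB (A • x) = toB x :=
  Quotient.sound (s := MulAction.orbitRel SU2 ESU2) ⟨A, rfl⟩

theorem continuous_toB : Continuous toB := continuous_quot_mk

/-- The map `BT → BSU(2)` induced by the inclusion of the maximal torus. -/
def inclBT : C(BT, BSU2) where
  toFun := Quotient.lift (fun y => toB (inclET y)) (by
    rintro a b ⟨z, rfl⟩
    show toB (inclET (z • b)) = toB (inclET b)
    rw [inclET_smul, toB_smul])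
  continuous_toFun := (continuous_toB.comp continuous_inclET).quotient_lift _

/-- A continuous map `ET → ET` which is equivariant along the homomorphism `z ↦ z ^ k`.  It
induces a map `BT → BT`, and this is the map (well defined up to homotopy) induced by the
homomorphism `z ↦ z ^ k`. -/
structure BTPow (k : ℕ) where
  /-- the map upstairs -/
  up : C(ET, ET)
  /-- it is equivariant along `z ↦ z ^ k` -/
  map_smul : ∀ (z : Circle) (y : ET), up (z • y) = z ^ k • up y

theorem toBT_smul (z : Circle) (y : ET) : toBT (z • y) = toBT y :=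
  Quotient.sound (s := MulAction.orbitRel Circle ET) ⟨z, rfl⟩

theorem continuous_toBT : Continuous toBT := continuous_quot_mk

/-- The map `BT → BT` induced by `z ↦ z ^ k`. -/
def BTPow.down {k : ℕ} (θ : BTPow k) : C(BT, BT) where
  toFun := Quotient.lift (fun y => toBT (θ.up y)) (by
    rintro a b ⟨z, rfl⟩
    show toBT (θ.up (z • b)) = toBT (θ.up b)
    rw [θ.map_smul, toBT_smul])
  continuous_toFun := (continuous_toBT.comp θ.up.continuous).quotient_lift _

/-- `ψ : BSU(2) → BSU(2)` is an unstable Adams map of degree `k`: its restriction to `BT` is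
homotopic to the map `BT → BT → BSU(2)` induced by the `k`-th power homomorphism of the maximal
torus `T`. -/
def IsUnstableAdams (k : ℕ) (ψ : C(BSU2, BSU2)) : Prop :=
  ∃ θ : BTPow k, (ψ.comp inclBT).Homotopic (inclBT.comp θ.down)

/-! ### Smooth actions and their bundles -/

variable {V : Type} [NormedAddCommGroup V] [NormedSpace ℝ V] {H : Type} [TopologicalSpace H]

/-- An action of `SU(2)` on the manifold `W` by diffeomorphisms of class `C^∞`, jointly
continuous. -/
structure SmoothAction (I : ModelWithCorners ℝ V H) (W : Type) [TopologicalSpace W]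
    [ChartedSpace H W] where
  /-- the diffeomorphism given by `g` -/
  act : SU2 → W → W
  map_one : act 1 = id
  map_mul : ∀ g h, act (g * h) = act g ∘ act h
  smooth : ∀ g, ContMDiff I I ∞ (act g)
  continuous : Continuous fun q : SU2 × W => act q.1 q.2

variable {I : ModelWithCorners ℝ V H} {W : Type} [TopologicalSpace W] [ChartedSpace H W]

/-- `(x, w) ∼ (g x, g w)` on `ESU2 × W`. -/
def SmoothAction.setoid (s : SmoothAction I W) : Setoid (ESU2 × W) where
  r a b := ∃ g : SU2, b = (g • a.1, s.act g a.2)
  iseqv := by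
    refine ⟨fun a => ⟨1, ?_⟩, ?_, ?_⟩
    · rw [one_smul, s.map_one]
      rfl
    · rintro a b ⟨g, rfl⟩
      refine ⟨g⁻¹, ?_⟩
      have h : s.act g⁻¹ (s.act g a.2) = a.2 := by
        have h1 := congrFun (s.map_mul g⁻¹ g) a.2
        rw [inv_mul_cancel, s.map_one] at h1
        exact h1.symm
      simp only [inv_smul_smul, h]
    · rintro a b c ⟨g, rfl⟩ ⟨h, rfl⟩
      refine ⟨h * g, ?_⟩
      rw [mul_smul, s.map_mul]
      rfl

/-- The total space `ESU2 ×_{SU(2)} W` of the bundle over `BSU(2)` induced by the action `s`. -/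
def SmoothAction.Total (s : SmoothAction I W) : Type := Quotient s.setoid

instance (s : SmoothAction I W) : TopologicalSpace s.Total :=
  inferInstanceAs (TopologicalSpace (Quotient s.setoid))

/-- The class `[x, w]`.  For fixed `x`, this is the parametrisation `W ≅ (fibre over [x])` by which
the fibre gets its smooth structure. -/
def SmoothAction.frame (s : SmoothAction I W) (x : ESU2) (w : W) : s.Total :=
  Quotient.mk s.setoid (x, w)

/-- The projection `ESU2 ×_{SU(2)} W → BSU(2)`. -/
def SmoothAction.proj (s : SmoothAction I W) : s.Total → BSU2 :=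
  Quotient.lift (fun a => toB a.1) (by
    rintro a b ⟨g, rfl⟩
    exact (toB_smul g a.1).symm)

/-- The total space of the pullback along `ψ` of the bundle induced by the action `s`. -/
def Pullback (ψ : C(BSU2, BSU2)) (s : SmoothAction I W) : Type :=
  {q : BSU2 × s.Total // s.proj q.2 = ψ q.1}

instance (ψ : C(BSU2, BSU2)) (s : SmoothAction I W) : TopologicalSpace (Pullback ψ s) :=
  instTopologicalSpaceSubtype

/-- The frames `(x, x')` at a point `b = [x]` of `BSU(2)`: `x` parametrises the fibre over `b` of the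
bundle of any action, and `x'` parametrises the fibre over `b` of any pullback along `ψ`. -/
def Frames (ψ : C(BSU2, BSU2)) : Type := {q : ESU2 × ESU2 // toB q.2 = ψ (toB q.1)}

instance (ψ : C(BSU2, BSU2)) : TopologicalSpace (Frames ψ) := instTopologicalSpaceSubtype

/-- The point `([x], [x', w])` of the pullback. -/
def pullbackFrame {ψ : C(BSU2, BSU2)} (s : SmoothAction I W) (q : Frames ψ) (w : W) :
    Pullback ψ s := ⟨(toB q.1.1, s.frame q.1.2 w), q.2⟩

/-- A family of smooth maps `W → W` parametrised by a topological space, continuous in the `C¹`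
topology: the tangent map is jointly continuous. -/
def ContinuousFamily (I : ModelWithCorners ℝ V H) {W : Type} [TopologicalSpace W]
    [ChartedSpace H W] [IsManifold I ∞ W] {X : Type} [TopologicalSpace X] (F : X → W → W) : Prop :=
  (∀ x, ContMDiff I I ∞ (F x)) ∧
    Continuous fun q : X × TangentBundle I W => tangentMap I I (F q.1) q.2

/-- An isomorphism, as smooth bundles over `BSU(2)`, from the bundle induced by the action `s'` to
the pullback along `ψ` of the bundle induced by the action `s`: a homeomorphism of the total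
spaces over `BSU(2)`, which in the frames of the fibres is given by a continuous family of
diffeomorphisms `F (x, x')` of `W` (with inverses `G (x, x')`). -/
structure SmoothIso [IsManifold I ∞ W] (ψ : C(BSU2, BSU2)) (s s' : SmoothAction I W) where
  /-- the homeomorphism of total spaces -/
  toHomeomorph : s'.Total ≃ₜ Pullback ψ s
  /-- it is over `BSU(2)` -/
  proj_eq : ∀ e, (toHomeomorph e).1.1 = s'.proj e
  /-- the diffeomorphism between the fibres, in the frames `x` and `x'` -/
  F : Frames ψ → W → W
  /-- the inverse diffeomorphism -/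
  G : Frames ψ → W → W
  left_inv : ∀ q, Function.LeftInverse (G q) (F q)
  right_inv : ∀ q, Function.RightInverse (G q) (F q)
  toHomeomorph_frame : ∀ q w, toHomeomorph (s'.frame q.1.1 w) = pullbackFrame s q (F q w)
  continuousFamily_F : ContinuousFamily I F
  continuousFamily_G : ContinuousFamily I G

/-- The pullback along `ψ` of the bundle induced by the action `s` is kinetic: it is isomorphic, as a
smooth bundle over `BSU(2)`, to the bundle induced by some action of `SU(2)` on `W`. -/
def PullbackIsKinetic [IsManifold I ∞ W] (ψ : C(BSU2, BSU2)) (s : SmoothAction I W) : Prop :=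
  ∃ s' : SmoothAction I W, Nonempty (SmoothIso ψ s s')

end Pool.Agent.Lib.MP_7ef860_gt
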