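import Mathlib

section

section

/-!
# Chains of lists of points, subdivision, and an algebraic Borsuk-Ulam argument
-/

namespace Pool.Agent.Lib.MP_7ef860_gt

open Finsupp

section chains

variable (R : Type*) [CommRing R] {α β : Type*}

/-- prepend a point to all simplices of a chain -/
noncomputable def cone (v : α) : (List α →₀ R) →ₗ[R] (List α →₀ R) :=
  Finsupp.lmapDomain R R (List.cons v)

theorem cone_single (v : α) (l : List α) : cone R v (single l 1) = single (v :: l) 1 := by
  simp [cone]

/-- boundary of a simplex -/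
noncomputable def bd : List α → (List α →₀ R)
  | [] => 0
  | v :: l => single l 1 - cone R v (bd l)

/-- boundary of a chain -/
noncomputable def bdry : (List α →₀ R) →ₗ[R] (List α →₀ R) := Finsupp.linearCombination R (bd R)

theorem bdry_single (l : List α) : bdry R (single l 1) = bd R l := by
  simp [bdry]

theorem bdry_cone (v : α) (c : List α →₀ R) :
    bdry R (cone R v c) = c - cone R v (bdry R c) := by
  have h : (bdry R).comp (cone R v) = LinearMap.id - (cone R v).comp (bdry R) := by
    apply Finsupp.lhom_ext'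
    intro l
    apply LinearMap.ext_ring
    simp only [LinearMap.comp_apply, Finsupp.lsingle_apply, LinearMap.sub_apply,
      LinearMap.id_apply, cone_single, bdry_single, bd]
  exact LinearMap.congr_fun h c

theorem bdry_bd : ∀ l : List α, bdry R (bd R l) = 0
  | [] => by simp [bd]
  | v :: l => by
    rw [bd, map_sub, bdry_single, bdry_cone, bdry_bd l]
    simp

theorem bdry_bdry (c : List α →₀ R) : bdry R (bdry R c) = 0 := by
  have h : (bdry R).comp (bdry R) = (0 : (List α →₀ R) →ₗ[R] (List α →₀ R)) := by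
    apply Finsupp.lhom_ext'
    intro l
    apply LinearMap.ext_ring
    simp only [LinearMap.comp_apply, Finsupp.lsingle_apply, bdry_single, bdry_bd]
    rfl
  exact LinearMap.congr_fun h c

/-- the image of a chain under a map of points -/
noncomputable def mp (f : α → β) : (List α →₀ R) →ₗ[R] (List β →₀ R) :=
  Finsupp.lmapDomain R R (List.map f)

theorem mp_single (f : α → β) (l : List α) : mp R f (single l 1) = single (l.map f) 1 := by
  simp [mp]

theorem mp_cone (f : α → β) (v : α) (c : List α →₀ R) :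
    mp R f (cone R v c) = cone R (f v) (mp R f c) := by
  have h : (mp R f).comp (cone R v) = (cone R (f v)).comp (mp R f) := by
    apply Finsupp.lhom_ext'
    intro l
    apply LinearMap.ext_ring
    simp only [LinearMap.comp_apply, Finsupp.lsingle_apply, cone_single, mp_single, List.map_cons]
  exact LinearMap.congr_fun h c

theorem mp_bd (f : α → β) : ∀ l : List α, mp R f (bd R l) = bd R (l.map f)
  | [] => by simp [bd]
  | v :: l => by
    rw [bd, map_sub, mp_single, mp_cone, mp_bd f l]
    rfl

theorem mp_bdry (f : α → β) (c : List α →₀ R) : mp R f (bdry R c) = bdry R (mp R f c) := by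
  have h : (mp R f).comp (bdry R) = (bdry R).comp (mp R f) := by
    apply Finsupp.lhom_ext'
    intro l
    apply LinearMap.ext_ring
    simp only [LinearMap.comp_apply, Finsupp.lsingle_apply, bdry_single, mp_single, mp_bd]
  exact LinearMap.congr_fun h c

theorem cone_mem_supported (v : α) {S T : Set (List α)} (h : ∀ l ∈ S, v :: l ∈ T)
    {c : List α →₀ R} (hc : c ∈ supported R R S) : cone R v c ∈ supported R R T := by
  classical
  rw [mem_supported] at *
  intro l hl
  have h1 := Finsupp.mapDomain_support hl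
  rw [Finset.mem_image] at h1
  obtain ⟨u, hu, rfl⟩ := h1
  exact h u (hc hu)

theorem mp_mem_supported (f : α → β) {S : Set (List α)} {T : Set (List β)}
    (h : ∀ l ∈ S, l.map f ∈ T) {c : List α →₀ R} (hc : c ∈ supported R R S) :
    mp R f c ∈ supported R R T := by
  classical
  rw [mem_supported] at *
  intro l hl
  have h1 := Finsupp.mapDomain_support hl
  rw [Finset.mem_image] at h1
  obtain ⟨u, hu, rfl⟩ := h1
  exact h u (hc hu)

theorem bd_mem_supported : ∀ l : List α,
    bd R l ∈ supported R R {u : List α | u.Sublist l ∧ u.length + 1 = l.length}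
  | [] => by simp [bd]
  | v :: l => by
    rw [bd]
    refine Submodule.sub_mem _ ?_ ?_
    · exact Finsupp.single_mem_supported R 1 ⟨List.sublist_cons_self v l, rfl⟩
    · refine cone_mem_supported R v (S := {u : List α | u.Sublist l ∧ u.length + 1 = l.length})
        ?_ (bd_mem_supported l)
      rintro u ⟨h1, h2⟩
      exact ⟨h1.cons_cons v, by simp only [List.length_cons]; omega⟩

/-- if the images of the basis elements of `S` are in `T`, so is the image of the span -/
theorem lc_mem {M : Type*} [AddCommGroup M] [Module R M] {f : List α → M} {S : Set (List α)}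
    {T : Submodule R M} (h : ∀ l ∈ S, f l ∈ T) {c : List α →₀ R} (hc : c ∈ supported R R S) :
    linearCombination R f c ∈ T := by
  rw [linearCombination_apply, Finsupp.sum]
  exact Submodule.sum_mem _ fun l hl => Submodule.smul_mem _ _ (h l (hc hl))

theorem bdry_mem_supported {S T : Set (List α)}
    (h : ∀ l ∈ S, ∀ u : List α, u.Sublist l → u.length + 1 = l.length → u ∈ T)
    {c : List α →₀ R} (hc : c ∈ supported R R S) : bdry R c ∈ supported R R T := by
  refine lc_mem R (S := S) (fun l hl => ?_) hc
  refine Finsupp.supported_mono ?_ (bd_mem_supported R l)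
  rintro u ⟨h1, h2⟩
  exact h l hl u h1 h2

/-! ### Subdivision -/

/-- subdivision of a simplex with given barycentres, with fuel -/
noncomputable def sdF (b : List α → β) : ℕ → List α → (List β →₀ R)
  | 0, _ => single [] 1
  | n + 1, l => cone R (b l) (linearCombination R (sdF b n) (bd R l))

/-- subdivision with given barycentres -/
noncomputable def sd (b : List α → β) : (List α →₀ R) →ₗ[R] (List β →₀ R) :=
  linearCombination R (fun l => sdF R b l.length l)

theorem sd_nil (b : List α → β) : sd R b (single [] 1) = single [] 1 := by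
  simp [sd, sdF]

theorem sd_cons (b : List α → β) (l : List α) (hl : l ≠ []) :
    sd R b (single l 1) = cone R (b l) (sd R b (bd R l)) := by
  obtain ⟨n, hn⟩ : ∃ n, l.length = n + 1 :=
    Nat.exists_eq_succ_of_ne_zero (by simpa using hl)
  have h1 : sd R b (single l 1) = sdF R b l.length l := by simp [sd]
  rw [h1, hn, sdF]
  congr 1
  rw [sd, linearCombination_apply, linearCombination_apply, Finsupp.sum, Finsupp.sum]
  refine Finset.sum_congr rfl fun u hu => ?_
  have h2 := bd_mem_supported R l hu
  have h3 : u.length = n := by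
    have := h2.2
    omega
  simp only [h3]

theorem sd_induction (b : List α → β) (Ψ : List α → List β → Prop) (h0 : Ψ [] [])
    (h1 : ∀ l : List α, l ≠ [] → ∀ u : List α, u.Sublist l → u.length + 1 = l.length →
      ∀ t, Ψ u t → Ψ l (b l :: t)) :
    ∀ l : List α, sd R b (single l 1) ∈ supported R R {t | Ψ l t} := by
  intro l
  induction hn : l.length using Nat.strong_induction_on generalizing l with
  | _ n ih =>
    by_cases hl : l = []
    · subst hl
      rw [sd_nil]
      exact Finsupp.single_mem_supported R 1 h0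
    · rw [sd_cons R b l hl]
      refine cone_mem_supported R (b l)
        (S := {t | ∃ u : List α, u.Sublist l ∧ u.length + 1 = l.length ∧ Ψ u t}) ?_ ?_
      · rintro t ⟨u, hu1, hu2, hu3⟩
        exact h1 l hl u hu1 hu2 t hu3
      · refine lc_mem R (S := {u : List α | u.Sublist l ∧ u.length + 1 = l.length})
          (fun u hu => ?_) (bd_mem_supported R l)
        have h2 : sdF R b u.length u = sd R b (single u 1) := by simp [sd]
        rw [h2]
        refine Finsupp.supported_mono ?_ (ih u.length (by have := hu.2; omega) u rfl)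
        intro t ht
        exact ⟨u, hu.1, hu.2, ht⟩

theorem sd_mem_supported (b : List α → β) (Ψ : List α → List β → Prop) (h0 : Ψ [] [])
    (h1 : ∀ l : List α, l ≠ [] → ∀ u : List α, u.Sublist l → u.length + 1 = l.length →
      ∀ t, Ψ u t → Ψ l (b l :: t)) {S : Set (List α)} {T : Set (List β)}
    (hST : ∀ l ∈ S, ∀ t, Ψ l t → t ∈ T) {c : List α →₀ R} (hc : c ∈ supported R R S) :
    sd R b c ∈ supported R R T := by
  refine lc_mem R (S := S) (fun l hl => ?_) hc
  have h2 : sdF R b l.length l = sd R b (single l 1) := by simp [sd]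
  rw [h2]
  exact Finsupp.supported_mono (hST l hl) (sd_induction R b Ψ h0 h1 l)

theorem linearMap_eq_on_supported {M : Type*} [AddCommGroup M] [Module R M]
    {f g : (List α →₀ R) →ₗ[R] M} {S : Set (List α)}
    (h : ∀ l ∈ S, f (single l 1) = g (single l 1)) {c : List α →₀ R}
    (hc : c ∈ supported R R S) : f c = g c := by
  rw [← Finsupp.sum_single c, Finsupp.sum, map_sum, map_sum]
  refine Finset.sum_congr rfl fun l hl => ?_
  have : single l (c l) = (c l) • single l (1 : R) := by simp
  rw [this, map_smul, map_smul, h l (hc hl)]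

theorem bdry_sd (b : List α → β) (c : List α →₀ R) :
    bdry R (sd R b c) = sd R b (bdry R c) := by
  have key : ∀ l : List α, bdry R (sd R b (single l 1)) = sd R b (bd R l) := by
    intro l
    induction hn : l.length using Nat.strong_induction_on generalizing l with
    | _ n ih =>
      by_cases hl : l = []
      · subst hl
        rw [sd_nil, bdry_single]
        simp [bd]
      · rw [sd_cons R b l hl, bdry_cone]
        have h1 : bdry R (sd R b (bd R l)) = sd R b (bdry R (bd R l)) := by
          refine linearMap_eq_on_supported R (f := (bdry R).comp (sd R b))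
            (g := (sd R b).comp (bdry R)) (fun u hu => ?_) (bd_mem_supported R l)
          simp only [LinearMap.comp_apply, bdry_single]
          exact ih u.length (by have := hu.2; omega) u rfl
        rw [h1, bdry_bd]
        simp
  refine linearMap_eq_on_supported R (f := (bdry R).comp (sd R b))
    (g := (sd R b).comp (bdry R)) (S := Set.univ) (fun u _ => ?_) (by simp)
  simp only [LinearMap.comp_apply, bdry_single]
  exact key u

/-- naturality of the subdivision on the simplices with vertices in `X` -/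
theorem sd_mp {α' β' : Type*} (b : List α → β) (b' : List α' → β') (g : α → α') (g' : β → β')
    (X : Set α) (hb : ∀ l : List α, (∀ x ∈ l, x ∈ X) → l ≠ [] → b' (l.map g) = g' (b l))
    {c : List α →₀ R} (hc : c ∈ supported R R {l | ∀ x ∈ l, x ∈ X}) :
    sd R b' (mp R g c) = mp R g' (sd R b c) := by
  have key : ∀ l : List α, (∀ x ∈ l, x ∈ X) →
      sd R b' (single (l.map g) 1) = mp R g' (sd R b (single l 1)) := by
    intro l
    induction hn : l.length using Nat.strong_induction_on generalizing l with
    | _ n ih =>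
      intro hX
      by_cases hl : l = []
      · subst hl
        rw [List.map_nil, sd_nil, sd_nil, mp_single, List.map_nil]
      · rw [sd_cons R b' _ (by simpa using hl), sd_cons R b l hl, mp_cone, hb l hX hl]
        congr 1
        rw [← mp_bd]
        refine linearMap_eq_on_supported R (f := (sd R b').comp (mp R g))
            (g := (mp R g').comp (sd R b)) (fun u hu => ?_) (bd_mem_supported R l)
        simp only [LinearMap.comp_apply, mp_single]
        exact ih u.length (by have := hu.2; omega) u rfl (fun x hx => hX x (hu.1.subset hx))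
  refine linearMap_eq_on_supported R (f := (sd R b').comp (mp R g))
    (g := (mp R g').comp (sd R b)) (fun u hu => ?_) hc
  simp only [LinearMap.comp_apply, mp_single]
  exact key u hu

end chains

/-! ### Exactness for free actions and the final contradiction -/

section algebra

variable {R : Type*} [CommRing R] {V : Type*} [AddCommGroup V] [Module R V]

/-- the norm operator -/
def nrm (s : V →ₗ[R] V) (p : ℕ) : V →ₗ[R] V := ∑ j ∈ Finset.range p, s ^ j

theorem nrm_apply (s : V →ₗ[R] V) (p : ℕ) (x : V) :
    nrm s p x = ∑ j ∈ Finset.range p, (s ^ j) x := by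
  simp [nrm, LinearMap.sum_apply]

theorem pow_mem {s : V →ₗ[R] V} {M : Submodule R V} (hs : ∀ x ∈ M, s x ∈ M) (j : ℕ) {x : V}
    (hx : x ∈ M) : (s ^ j) x ∈ M := by
  induction j with
  | zero => simpa using hx
  | succ j ih => rw [pow_succ']; exact hs _ ih

theorem nrm_mem {s : V →ₗ[R] V} {M : Submodule R V} (hs : ∀ x ∈ M, s x ∈ M) (p : ℕ) {x : V}
    (hx : x ∈ M) : nrm s p x ∈ M := by
  rw [nrm_apply]
  exact Submodule.sum_mem _ fun j _ => pow_mem hs j hx

theorem nrm_sub (s : V →ₗ[R] V) {p : ℕ} (hp : s ^ p = 1) (x : V) :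
    nrm s p (x - s x) = 0 := by
  rw [nrm_apply]
  simp only [map_sub]
  have : ∀ j, (s ^ j) (s x) = (s ^ (j + 1)) x := fun j => by rw [pow_succ]; rfl
  simp only [this]
  rw [Finset.sum_range_sub', pow_zero, hp, sub_self]

theorem sub_nrm (s : V →ₗ[R] V) {p : ℕ} (hp : s ^ p = 1) (x : V) :
    nrm s p x - s (nrm s p x) = 0 := by
  rw [nrm_apply, map_sum, ← Finset.sum_sub_distrib]
  have : ∀ j, s ((s ^ j) x) = (s ^ (j + 1)) x := fun j => by rw [pow_succ']; rfl
  simp only [this]
  rw [Finset.sum_range_sub', pow_zero, hp, sub_self]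

theorem pow_fixed {s : V →ₗ[R] V} {x : V} (hx : s x = x) (j : ℕ) : (s ^ j) x = x := by
  induction j with
  | zero => simp
  | succ j ih => rw [pow_succ', Module.End.mul_apply, ih, hx]

theorem exact_nrm (s E : V →ₗ[R] V) {p : ℕ} {x : V}
    (hpart : ∑ j ∈ Finset.range p, (s ^ j) (E ((s ^ (p - j)) x)) = x) (hx : s x = x) :
    x = nrm s p (E x) := by
  rw [nrm_apply]
  conv_lhs => rw [← hpart]
  refine Finset.sum_congr rfl fun j _ => ?_
  rw [pow_fixed hx]

theorem exact_sub (s E : V →ₗ[R] V) {p : ℕ} (hp : s ^ p = 1) {M : Submodule R V}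
    (hs : ∀ x ∈ M, s x ∈ M) (hE : ∀ x ∈ M, E x ∈ M) {x : V} (hxM : x ∈ M)
    (hpart : ∑ j ∈ Finset.range p, (s ^ j) (E ((s ^ (p - j)) x)) = x) (hx : nrm s p x = 0) :
    ∃ y ∈ M, x = y - s y := by
  have hsum : ∑ j ∈ Finset.range p, E ((s ^ (p - j)) x) = 0 := by
    rw [← map_sum]
    have h1 : ∑ j ∈ Finset.range p, (s ^ (p - j)) x = nrm s p x := by
      rcases Nat.eq_zero_or_pos p with rfl | hpos
      · simp [nrm_apply]
      obtain ⟨q, rfl⟩ : ∃ q, p = q + 1 := ⟨p - 1, by omega⟩
      rw [nrm_apply, Finset.sum_range_succ', Finset.sum_range_succ', ← Finset.sum_range_reflect]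
      simp only [Nat.sub_zero, hp, pow_zero]
      congr 1
      refine Finset.sum_congr rfl fun j hj => ?_
      have hj' := Finset.mem_range.1 hj
      congr 2
      omega
    rw [h1, hx, map_zero]
  have hkey : ∀ j : ℕ, ∀ z : V, (s ^ j) z - z =
      -((∑ i ∈ Finset.range j, (s ^ i) z) - s (∑ i ∈ Finset.range j, (s ^ i) z)) := by
    intro j z
    rw [map_sum, ← Finset.sum_sub_distrib]
    have : ∀ j, s ((s ^ j) z) = (s ^ (j + 1)) z := fun j => by rw [pow_succ']; rfl
    simp only [this]
    rw [Finset.sum_range_sub', pow_zero]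
    simp
  refine ⟨∑ j ∈ Finset.range p, -(∑ i ∈ Finset.range j, (s ^ i) (E ((s ^ (p - j)) x))), ?_, ?_⟩
  · refine Submodule.sum_mem _ fun j _ => Submodule.neg_mem _ (Submodule.sum_mem _ fun i _ => ?_)
    exact pow_mem hs _ (hE _ (pow_mem hs _ hxM))
  · rw [map_sum, ← Finset.sum_sub_distrib]
    conv_lhs => rw [← hpart]
    rw [← sub_zero (∑ j ∈ Finset.range p, (s ^ j) (E ((s ^ (p - j)) x))), ← hsum,
      ← Finset.sum_sub_distrib]
    refine Finset.sum_congr rfl fun j _ => ?_
    rw [hkey, map_neg, neg_sub_neg, neg_sub]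

/-- The algebraic core of the Borsuk-Ulam theorem for `ℤ/p`. -/
theorem no_chain (s E D : V →ₗ[R] V) {p : ℕ} (hp : s ^ p = 1) (M : ℕ → Submodule R V)
    (hs : ∀ n, ∀ x ∈ M n, s x ∈ M n) (hE : ∀ n, ∀ x ∈ M n, E x ∈ M n)
    (hD : ∀ n, ∀ x ∈ M (n + 1), D x ∈ M n) (hDD : ∀ x, D (D x) = 0)
    (hDs : ∀ x, D (s x) = s (D x))
    (hpart : ∀ n, ∀ x ∈ M n, ∑ j ∈ Finset.range p, (s ^ j) (E ((s ^ (p - j)) x)) = x)
    (hDs0 : ∀ x ∈ M 0, D (s x) = D x) (N : ℕ)
    (x : ℕ → V) (hx : ∀ n ≤ N, x n ∈ M n)
    (hx1 : ∀ n < N, Even n → D (x (n + 1)) = nrm s p (x n))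
    (hx2 : ∀ n < N, ¬ Even n → D (x (n + 1)) = x n - s (x n)) (hx0 : D (x 0) ≠ 0)
    (hN : x N = 0) : False := by
  have hDn : ∀ y, D (nrm s p y) = nrm s p (D y) := by
    intro y
    rw [nrm_apply, nrm_apply, map_sum]
    refine Finset.sum_congr rfl fun j hj => ?_
    clear hj
    induction j with
    | zero => simp
    | succ j ih => rw [pow_succ', Module.End.mul_apply, Module.End.mul_apply, hDs, ih]
  have key : ∀ k, k ≤ N → ∃ y ∈ M (N - k), ∃ z ∈ M (N - k + 1),
      (Even (N - k) → x (N - k) = (y - s y) + D z) ∧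
      (¬ Even (N - k) → x (N - k) = nrm s p y + D z) := by
    intro k
    induction k with
    | zero =>
      intro _
      refine ⟨0, zero_mem _, 0, zero_mem _, ?_, ?_⟩ <;> intro _ <;> simp [hN]
    | succ k ih =>
      intro hk
      obtain ⟨n, hn⟩ : ∃ n, N - k = n + 1 := ⟨N - k - 1, by omega⟩
      have hn' : N - (k + 1) = n := by omega
      have hnN : n < N := by omega
      obtain ⟨y, hy, z, hz, h1, h2⟩ := ih (by omega)
      rw [hn] at hy hz h1 h2
      rw [hn']
      have hmem : x n - D y ∈ M n := Submodule.sub_mem _ (hx n hnN.le) (hD n y hy)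
      by_cases he : Even n
      · have ho : ¬ Even (n + 1) := by rw [Nat.even_add_one]; simpa using he
        have h3 := h2 ho
        have h4 : nrm s p (x n - D y) = 0 := by
          rw [map_sub, ← hx1 n hnN he, h3, map_add, hDD, add_zero, hDn, sub_self]
        obtain ⟨w, hw, hw2⟩ := exact_sub s E hp (hs n) (hE n) hmem (hpart n _ hmem) h4
        refine ⟨w, hw, y, hy, fun _ => ?_, fun h => absurd he h⟩
        rw [← hw2, sub_add_cancel]
      · have ho : Even (n + 1) := by rw [Nat.even_add_one]; exact he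
        have h3 := h1 ho
        have h4 : s (x n - D y) = x n - D y := by
          have h5 := hx2 n hnN he
          rw [h3, map_add, hDD, add_zero, map_sub, hDs] at h5
          rw [map_sub]
          have h6 : D y - s (D y) - (x n - s (x n)) = 0 := by rw [h5, sub_self]
          rw [← sub_eq_zero]
          rw [← h6]
          abel
        refine ⟨E (x n - D y), hE n _ hmem, y, hy, fun h => absurd h he, fun _ => ?_⟩
        rw [← exact_nrm s E (hpart n _ hmem) h4, sub_add_cancel]
  obtain ⟨y, hy, z, hz, h1, _⟩ := key N le_rfl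
  rw [Nat.sub_self] at h1 hy hz
  have h2 := h1 (by simp)
  apply hx0
  rw [h2, map_add, hDD, add_zero, map_sub, hDs0 y hy, sub_self]

end algebra

end Pool.Agent.Lib.MP_7ef860_gt
end

section

/-!
# Equivariant labellings: a Tucker type lemma for `ℤ/p`
-/

namespace Pool.Agent.Lib.MP_7ef860_gt

open Finsupp

/-! ### The normalisation of chains of a poset -/

section strict

variable (R : Type*) [CommRing R] {Q : Type*} [PartialOrder Q]

/-- strictly decreasing lists -/
def Strict (t : List Q) : Prop := t.Pairwise fun a b => b < a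

/-- weakly decreasing lists -/
def Weak (t : List Q) : Prop := t.Pairwise fun a b => b ≤ a

open Classical in
/-- the strictly decreasing part of a chain -/
noncomputable def norml : (List Q →₀ R) →ₗ[R] (List Q →₀ R) :=
  linearCombination R (fun t => if Strict t then single t 1 else 0)

theorem norml_single_of_strict {t : List Q} (h : Strict t) :
    norml R (single t 1) = single t 1 := by
  simp [norml, h]

theorem norml_single_of_not {t : List Q} (h : ¬ Strict t) :
    norml R (single t 1) = 0 := by
  simp [norml, h]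

theorem not_strict_cons {a : Q} {t : List Q} (h : ¬ Strict t) : ¬ Strict (a :: t) :=
  fun h1 => h (List.pairwise_cons.1 h1).2

theorem bd_deg : ∀ t : List Q, Weak t → ¬ Strict t →
    bd R t ∈ supported R R {u : List Q | ¬ Strict u}
  | [], _, h => absurd List.Pairwise.nil h
  | a :: t, hw, h => by
    obtain ⟨hw1, hw2⟩ := List.pairwise_cons.1 hw
    by_cases ht : Strict t
    · match t, ht, h, hw1, hw2 with
      | [], _, h, _, _ => exact absurd (List.pairwise_singleton _ _) h
      | b :: t, ht, h, hw1, hw2 =>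
        have hab : b = a := by
          by_contra hne
          have hlt : b < a := lt_of_le_of_ne (hw1 b (by simp)) hne
          apply h
          refine List.pairwise_cons.2 ⟨?_, ht⟩
          intro x hx
          exact lt_of_le_of_lt (by
            rcases List.mem_cons.1 hx with rfl | hx
            · exact le_rfl
            · exact (List.pairwise_cons.1 hw2).1 x hx) hlt
        subst hab
        have h1 : bd R (b :: b :: t) = cone R b (cone R b (bd R t)) := by
          rw [bd, bd, map_sub, cone_single]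
          abel
        rw [h1]
        refine cone_mem_supported R b (S := {u : List Q | ∃ u', u = b :: u'}) ?_
          (cone_mem_supported R b (S := Set.univ) (T := {u : List Q | ∃ u', u = b :: u'})
            (fun l _ => ⟨l, rfl⟩) (by simp))
        rintro u ⟨u', rfl⟩ hs
        exact lt_irrefl b ((List.pairwise_cons.1 hs).1 b (by simp))
    · rw [bd]
      refine Submodule.sub_mem _ (Finsupp.single_mem_supported R 1 ht) ?_
      exact cone_mem_supported R a (S := {u : List Q | ¬ Strict u})
        (fun u hu => not_strict_cons hu) (bd_deg t hw2 ht)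

theorem norml_eq_zero {c : List Q →₀ R} (hc : c ∈ supported R R {u : List Q | ¬ Strict u}) :
    norml R c = 0 := by
  have := linearMap_eq_on_supported R (f := norml R) (g := 0) (S := {u : List Q | ¬ Strict u})
    (fun l hl => by rw [norml_single_of_not R hl]; rfl) hc
  simpa using this

theorem norml_eq_self {c : List Q →₀ R} (hc : c ∈ supported R R {u : List Q | Strict u}) :
    norml R c = c := by
  have := linearMap_eq_on_supported R (f := norml R) (g := LinearMap.id)
    (S := {u : List Q | Strict u})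
    (fun l hl => by rw [norml_single_of_strict R hl, LinearMap.id_apply]) hc
  simpa using this

theorem bdry_norml {c : List Q →₀ R} (hc : c ∈ supported R R {t : List Q | Weak t}) :
    bdry R (norml R c) = norml R (bdry R c) := by
  have key : ∀ t ∈ {t : List Q | Weak t}, ((bdry R).comp (norml R)) (single t 1) =
      ((norml R).comp (bdry R)) (single t 1) := by
    intro t ht
    rw [LinearMap.comp_apply, LinearMap.comp_apply, bdry_single]
    by_cases hs : Strict t
    · have h1 : bd R t ∈ supported R R {u : List Q | Strict u} := by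
        refine Finsupp.supported_mono ?_ (bd_mem_supported R t)
        rintro u ⟨hu, _⟩
        exact List.Pairwise.sublist hu hs
      rw [norml_single_of_strict R hs, bdry_single, norml_eq_self R h1]
    · rw [norml_single_of_not R hs, map_zero, norml_eq_zero R (bd_deg R t ht hs)]
  exact linearMap_eq_on_supported R key hc

theorem norml_mem {c : List Q →₀ R} {S : Set (List Q)} (hc : c ∈ supported R R S) :
    norml R c ∈ supported R R {t | t ∈ S ∧ Strict t} := by
  classical
  refine lc_mem R (S := S) (fun l hl => ?_) hc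
  by_cases h : Strict l
  · simp only [h, if_true]
    exact Finsupp.single_mem_supported R 1 ⟨hl, h⟩
  · simp only [h, if_false]
    exact zero_mem _

theorem norml_mp (f : Q → Q) (hf : ∀ a b, f a < f b ↔ a < b) (c : List Q →₀ R) :
    norml R (mp R f c) = mp R f (norml R c) := by
  refine linearMap_eq_on_supported R (f := (norml R).comp (mp R f))
    (g := (mp R f).comp (norml R)) (S := Set.univ) (fun t _ => ?_) (by simp)
  simp only [LinearMap.comp_apply, mp_single]
  have h1 : Strict (t.map f) ↔ Strict t := by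
    unfold Strict
    rw [List.pairwise_map]
    simp only [hf]
  by_cases hs : Strict t
  · rw [norml_single_of_strict R hs, norml_single_of_strict R (h1.2 hs), mp_single]
  · rw [norml_single_of_not R hs, norml_single_of_not R (fun h => hs (h1.1 h)), map_zero]

end strict

/-! ### Free part -/

section free

variable (R : Type*) [CommRing R] {Q : Type*} {p : ℕ}

open Classical in
/-- the part of a chain of the simplices whose first vertex has colour `0` -/
noncomputable def hd0 (γ : Q → ZMod p) : (List Q →₀ R) →ₗ[R] (List Q →₀ R) :=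
  linearCombination R (fun t => if ∃ q, t.head? = some q ∧ γ q = 0 then single t 1 else 0)

theorem hd0_mem (γ : Q → ZMod p) {c : List Q →₀ R} {S : Set (List Q)}
    (hc : c ∈ supported R R S) : hd0 R γ c ∈ supported R R S := by
  classical
  refine lc_mem R (S := S) (fun l hl => ?_) hc
  split_ifs
  · exact Finsupp.single_mem_supported R 1 hl
  · exact zero_mem _

theorem mp_pow (f : Q → Q) (j : ℕ) : (mp R f) ^ j = mp R (f^[j]) := by
  induction j with
  | zero =>
    apply LinearMap.ext
    intro c
    refine linearMap_eq_on_supported R (f := (mp R f) ^ 0) (g := mp R (f^[0])) (S := Set.univ)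
      (fun t _ => ?_) (by simp)
    rw [mp_single]
    simp
  | succ j ih =>
    rw [pow_succ', ih]
    apply LinearMap.ext
    intro c
    refine linearMap_eq_on_supported R (f := mp R f * mp R (f^[j])) (g := mp R (f^[j + 1]))
      (S := Set.univ) (fun t _ => ?_) (by simp)
    rw [Module.End.mul_apply, mp_single, mp_single, mp_single, List.map_map,
      Function.iterate_succ']

theorem mp_pow_eq_one (f : Q → Q) (hf : f^[p] = id) : (mp R f) ^ p = 1 := by
  rw [mp_pow, hf]
  apply LinearMap.ext
  intro c
  refine linearMap_eq_on_supported R (f := mp R (id : Q → Q)) (g := 1) (S := Set.univ)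
    (fun t _ => ?_) (by simp)
  rw [mp_single, List.map_id]
  rfl

theorem partition (hp : 0 < p) (γ : Q → ZMod p) (f : Q → Q) (hf : f^[p] = id) (Pr : Q → Prop)
    (hPr : ∀ q, Pr q → Pr (f q)) (hγ : ∀ q, Pr q → γ (f q) = γ q + 1) {c : List Q →₀ R}
    (hc : c ∈ supported R R {t : List Q | t ≠ [] ∧ ∀ q ∈ t, Pr q}) :
    ∑ j ∈ Finset.range p, ((mp R f) ^ j) (hd0 R γ (((mp R f) ^ (p - j)) c)) = c := by
  classical
  have hit : ∀ (k : ℕ) (q : Q), Pr q → Pr (f^[k] q) ∧ γ (f^[k] q) = γ q + k := by
    intro k
    induction k with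
    | zero => intro q hq; simpa using hq
    | succ k ih =>
      intro q hq
      obtain ⟨h1, h2⟩ := ih q hq
      rw [Function.iterate_succ', Function.comp_apply]
      refine ⟨hPr _ h1, ?_⟩
      rw [hγ _ h1, h2]
      push_cast
      ring
  have h := linearMap_eq_on_supported R
    (f := ∑ j ∈ Finset.range p, ((mp R f) ^ j).comp ((hd0 R γ).comp ((mp R f) ^ (p - j))))
    (g := LinearMap.id) (S := {t : List Q | t ≠ [] ∧ ∀ q ∈ t, Pr q}) (fun t ht => ?_) hc
  · simpa [LinearMap.sum_apply] using h
  · obtain ⟨hne, hPt⟩ := ht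
    obtain ⟨q, t, rfl⟩ := List.exists_cons_of_ne_nil hne
    have hq : Pr q := hPt q (by simp)
    simp only [LinearMap.sum_apply, LinearMap.comp_apply, LinearMap.id_apply, mp_pow, mp_single]
    have hterm : ∀ j ∈ Finset.range p, mp R f^[j] (hd0 R γ (single ((q :: t).map f^[p - j]) 1)) =
        if (γ q).val = j then single (q :: t) 1 else 0 := by
      intro j hj
      have hj' := Finset.mem_range.1 hj
      have h1 : hd0 R γ (single ((q :: t).map f^[p - j]) 1) =
          if γ (f^[p - j] q) = 0 then single ((q :: t).map f^[p - j]) 1 else 0 := by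
        simp [hd0]
      rw [h1, (hit (p - j) q hq).2, Nat.cast_sub hj'.le]
      have h2 : γ q + ((p : ZMod p) - (j : ZMod p)) = 0 ↔ (γ q).val = j := by
        rw [CharP.cast_eq_zero, zero_sub, add_neg_eq_zero]
        have : NeZero p := ⟨by omega⟩
        constructor
        · intro h
          rw [h, ZMod.val_cast_of_lt hj']
        · intro h
          rw [← h, ZMod.natCast_val, ZMod.cast_id]
      by_cases h3 : (γ q).val = j
      · rw [if_pos (h2.2 h3), if_pos h3, mp_single, List.map_map, ← Function.iterate_add]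
        rw [Nat.add_sub_cancel' hj'.le, hf, List.map_id]
      · rw [if_neg (fun h => h3 (h2.1 h)), if_neg h3, map_zero]
    rw [Finset.sum_congr rfl hterm]
    have : NeZero p := ⟨by omega⟩
    rw [Finset.sum_ite_eq, if_pos (Finset.mem_range.2 (ZMod.val_lt _))]

end free

/-! ### Labels -/

section labels

variable {p m : ℕ}

/-- sets of labels without two different colours of the same index -/
def Pr (q : Finset (ZMod p × Fin m)) : Prop :=
  q.Nonempty ∧ ∀ a ∈ q, ∀ b ∈ q, a.2 = b.2 → a.1 = b.1

/-- the action on labels -/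
def sh1 (a : ZMod p × Fin m) : ZMod p × Fin m := (a.1 + 1, a.2)

theorem sh1_injective : Function.Injective (sh1 : ZMod p × Fin m → ZMod p × Fin m) := by
  rintro ⟨a, i⟩ ⟨b, j⟩ h
  simp only [sh1, Prod.mk.injEq, add_left_inj] at h
  rw [h.1, h.2]

/-- the action on sets of labels -/
def sh (q : Finset (ZMod p × Fin m)) : Finset (ZMod p × Fin m) := q.map ⟨sh1, sh1_injective⟩

theorem mem_sh {q : Finset (ZMod p × Fin m)} {a : ZMod p × Fin m} :
    a ∈ sh q ↔ ∃ b ∈ q, sh1 b = a := by
  simp [sh]

theorem sh_lt (a b : Finset (ZMod p × Fin m)) : sh a < sh b ↔ a < b := by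
  simp only [sh]
  exact Finset.map_ssubset_map

theorem sh1_iterate (k : ℕ) (a : ZMod p × Fin m) : sh1^[k] a = (a.1 + k, a.2) := by
  induction k with
  | zero => simp
  | succ k ih =>
    rw [Function.iterate_succ', Function.comp_apply, ih, sh1]
    push_cast
    rw [add_assoc]

theorem sh_iterate (k : ℕ) (q : Finset (ZMod p × Fin m)) (a : ZMod p × Fin m) :
    a ∈ sh^[k] q ↔ ∃ b ∈ q, sh1^[k] b = a := by
  induction k generalizing a with
  | zero => simp
  | succ k ih =>
    rw [Function.iterate_succ', Function.comp_apply, mem_sh]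
    constructor
    · rintro ⟨b, hb, rfl⟩
      obtain ⟨c, hc, rfl⟩ := (ih b).1 hb
      exact ⟨c, hc, by rw [Function.iterate_succ', Function.comp_apply]⟩
    · rintro ⟨c, hc, rfl⟩
      exact ⟨_, (ih _).2 ⟨c, hc, rfl⟩, by rw [Function.iterate_succ', Function.comp_apply]⟩

theorem sh_period : (sh : Finset (ZMod p × Fin m) → _)^[p] = id := by
  funext q
  ext a
  rw [sh_iterate]
  constructor
  · rintro ⟨b, hb, rfl⟩
    rw [sh1_iterate]
    simpa using hb
  · intro ha
    exact ⟨a, ha, by rw [sh1_iterate]; simp⟩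

theorem Pr.sh {q : Finset (ZMod p × Fin m)} (h : Pr q) : Pr (sh q) := by
  obtain ⟨⟨a, ha⟩, h2⟩ := h
  refine ⟨⟨_, mem_sh.2 ⟨a, ha, rfl⟩⟩, ?_⟩
  intro x hx y hy hxy
  obtain ⟨x', hx', rfl⟩ := mem_sh.1 hx
  obtain ⟨y', hy', rfl⟩ := mem_sh.1 hy
  simp only [sh1] at hxy ⊢
  rw [h2 x' hx' y' hy' hxy]

open Classical in
/-- the colour of the label with the smallest index -/
noncomputable def gam (q : Finset (ZMod p × Fin m)) : ZMod p :=
  if h : ∃ a ∈ q, ∀ b ∈ q, a.2 ≤ b.2 then h.choose.1 else 0

theorem gam_eq {q : Finset (ZMod p × Fin m)} (h : Pr q) {a : ZMod p × Fin m} (ha : a ∈ q)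
    (hmin : ∀ b ∈ q, a.2 ≤ b.2) : gam q = a.1 := by
  have hex : ∃ a ∈ q, ∀ b ∈ q, a.2 ≤ b.2 := ⟨a, ha, hmin⟩
  rw [gam, dif_pos hex]
  obtain ⟨h1, h2⟩ := hex.choose_spec
  exact h.2 _ h1 _ ha (le_antisymm (h2 a ha) (hmin _ h1))

theorem gam_sh {q : Finset (ZMod p × Fin m)} (h : Pr q) : gam (sh q) = gam q + 1 := by
  obtain ⟨a, ha, hmin⟩ := Finset.exists_min_image q Prod.snd h.1
  rw [gam_eq h ha hmin]
  refine gam_eq (a := sh1 a) h.sh (mem_sh.2 ⟨a, ha, rfl⟩) ?_
  intro b hb
  obtain ⟨b', hb', rfl⟩ := mem_sh.1 hb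
  exact hmin b' hb'

theorem Pr.card_le {q : Finset (ZMod p × Fin m)} (h : Pr q) : q.card ≤ m := by
  have := Finset.card_le_card_of_injOn (s := q) (t := (Finset.univ : Finset (Fin m))) Prod.snd
    (fun _ _ => Finset.mem_coe.2 (Finset.mem_univ _)) (by
      intro a ha b hb hab
      exact Prod.ext (h.2 a ha b hb hab) hab)
  simpa using this

theorem length_le_card : ∀ (t : List (Finset (ZMod p × Fin m))), Strict t → (∀ q ∈ t, Pr q) →
    ∀ q ∈ t.head?, t.length ≤ q.card
  | [], _, _, q, hq => by simp at hq
  | [a], _, hP, q, hq => by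
    simp only [List.head?_cons, Option.mem_def, Option.some.injEq] at hq
    subst hq
    exact Finset.card_pos.2 (hP a (by simp)).1
  | a :: b :: t, hs, hP, q, hq => by
    simp only [List.head?_cons, Option.mem_def, Option.some.injEq] at hq
    subst hq
    have h1 := length_le_card (b :: t) (List.pairwise_cons.1 hs).2
      (fun q hq => hP q (List.mem_cons_of_mem _ hq)) b (by simp)
    have h2 : b < a := (List.pairwise_cons.1 hs).1 b (by simp)
    have h3 := Finset.card_lt_card h2
    simp only [List.length_cons] at *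
    omega

/-- **A Tucker type lemma.** Chains with the boundary relations of the join of copies of `ℤ/p`
with an equivariant labelling with `m` indices have dimension `< m`. -/
theorem label_bound (hp : 1 < p) {α : Type*} (g : α → α)
    (X : Set α) (lam : α → ZMod p × Fin m)
    (hlam : ∀ x ∈ X, lam (g x) = ((lam x).1 + 1, (lam x).2))
    (c : ℕ → (List α →₀ ZMod p))
    (hc : ∀ n ≤ m, c n ∈ supported (ZMod p) (ZMod p) {l : List α | l.length = n + 1 ∧
      (∀ x ∈ l, x ∈ X) ∧ ∀ x ∈ l, ∀ y ∈ l, (lam x).2 = (lam y).2 → (lam x).1 = (lam y).1})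
    (hgX : ∀ x ∈ X, g x ∈ X)
    (hc1 : ∀ n < m, Even n → bdry (ZMod p) (c (n + 1)) = nrm (mp (ZMod p) g) p (c n))
    (hc2 : ∀ n < m, ¬ Even n → bdry (ZMod p) (c (n + 1)) = c n - mp (ZMod p) g (c n))
    (hc0 : bdry (ZMod p) (c 0) = single [] 1) : False := by
  classical
  have : Fact (1 < p) := ⟨hp⟩
  let b : List α → Finset (ZMod p × Fin m) := fun l => (l.map lam).toFinset
  have hb_mem : ∀ (l : List α) a, a ∈ b l ↔ ∃ x ∈ l, lam x = a := by
    intro l a
    simp [b]
  let s : (List (Finset (ZMod p × Fin m)) →₀ (ZMod p)) →ₗ[(ZMod p)] _ := mp (ZMod p) sh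
  let M : ℕ → Submodule (ZMod p) (List (Finset (ZMod p × Fin m)) →₀ (ZMod p)) := fun n =>
    supported (ZMod p) (ZMod p) {t | t.length = n + 1 ∧ Strict t ∧ ∀ q ∈ t, Pr q}
  -- support of the label chains
  let Ψ : List α → List (Finset (ZMod p × Fin m)) → Prop := fun l t =>
    t.length = l.length ∧ Weak t ∧ ∀ q ∈ t, q ≤ b l ∧ q.Nonempty
  have hΨ0 : Ψ [] [] := ⟨rfl, List.Pairwise.nil, by simp⟩
  have hΨ1 : ∀ l : List α, l ≠ [] → ∀ u : List α, u.Sublist l → u.length + 1 = l.length →
      ∀ t, Ψ u t → Ψ l (b l :: t) := by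
    intro l hl u hu hlen t ⟨h1, h2, h3⟩
    have hsub : b u ≤ b l := by
      intro a ha
      obtain ⟨x, hx, rfl⟩ := (hb_mem u a).1 ha
      exact (hb_mem l _).2 ⟨x, hu.subset hx, rfl⟩
    refine ⟨by simp only [List.length_cons]; omega, List.pairwise_cons.2 ⟨?_, h2⟩, ?_⟩
    · intro q hq
      exact (h3 q hq).1.trans hsub
    · intro q hq
      rcases List.mem_cons.1 hq with rfl | hq
      · refine ⟨le_rfl, ?_⟩
        obtain ⟨x, hx⟩ := List.exists_mem_of_ne_nil l hl
        exact ⟨_, (hb_mem l _).2 ⟨x, hx, rfl⟩⟩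
      · exact ⟨(h3 q hq).1.trans hsub, (h3 q hq).2⟩
  have hsd : ∀ n ≤ m, sd (ZMod p) b (c n) ∈ supported (ZMod p) (ZMod p) {t | t.length = n + 1 ∧ Weak t ∧
      ∀ q ∈ t, Pr q} := by
    intro n hnm
    refine sd_mem_supported (ZMod p) b Ψ hΨ0 hΨ1 ?_ (hc n hnm)
    rintro l ⟨hl1, hl2, hl3⟩ t ⟨h1, h2, h3⟩
    refine ⟨by omega, h2, fun q hq => ⟨(h3 q hq).2, ?_⟩⟩
    intro a ha a' ha' haa
    obtain ⟨x, hx, rfl⟩ := (hb_mem l _).1 ((h3 q hq).1 ha)
    obtain ⟨y, hy, rfl⟩ := (hb_mem l _).1 ((h3 q hq).1 ha')
    exact hl3 x hx y hy haa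
  have hnat : ∀ c' : List α →₀ (ZMod p), c' ∈ supported (ZMod p) (ZMod p) {l | ∀ x ∈ l, x ∈ X} →
      sd (ZMod p) b (mp (ZMod p) g c') = s (sd (ZMod p) b c') := by
    intro c' hc'
    refine sd_mp (ZMod p) b b g sh X ?_ hc'
    intro l hl _
    ext a
    rw [mem_sh, hb_mem]
    constructor
    · rintro ⟨x, hx, rfl⟩
      obtain ⟨y, hy, rfl⟩ := List.mem_map.1 hx
      exact ⟨lam y, (hb_mem l _).2 ⟨y, hy, rfl⟩, (hlam y (hl y hy)).symm⟩
    · rintro ⟨a', ha', rfl⟩
      obtain ⟨y, hy, rfl⟩ := (hb_mem l _).1 ha'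
      exact ⟨g y, List.mem_map.2 ⟨y, hy, rfl⟩, hlam y (hl y hy)⟩
  have hcX : ∀ n ≤ m, c n ∈ supported (ZMod p) (ZMod p) {l : List α | ∀ x ∈ l, x ∈ X} :=
    fun n hnm => Finsupp.supported_mono (fun l hl => hl.2.1) (hc n hnm)
  have hmpX : ∀ c' ∈ supported (ZMod p) (ZMod p) {l : List α | ∀ x ∈ l, x ∈ X},
      mp (ZMod p) g c' ∈ supported (ZMod p) (ZMod p) {l : List α | ∀ x ∈ l, x ∈ X} := by
    intro c' hc'
    refine mp_mem_supported (ZMod p) g ?_ hc'
    intro l hl x hx
    obtain ⟨y, hy, rfl⟩ := List.mem_map.1 hx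
    exact hgX y (hl y hy)
  have hnatpow : ∀ (j : ℕ) (c' : List α →₀ (ZMod p)), c' ∈ supported (ZMod p) (ZMod p) {l | ∀ x ∈ l, x ∈ X} →
      sd (ZMod p) b (((mp (ZMod p) g) ^ j) c') = (s ^ j) (sd (ZMod p) b c') := by
    intro j
    induction j with
    | zero => intro c' _; simp
    | succ j ih =>
      intro c' hc'
      rw [pow_succ', pow_succ', Module.End.mul_apply, Module.End.mul_apply,
        hnat _ (pow_mem hmpX j hc'), ih c' hc']
  have hsp : s ^ p = 1 := mp_pow_eq_one (ZMod p) sh sh_period
  have hns : ∀ c', norml (ZMod p) (s c') = s (norml (ZMod p) c') := fun c' => norml_mp (ZMod p) sh sh_lt c'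
  have hnspow : ∀ (j : ℕ) c', norml (ZMod p) ((s ^ j) c') = (s ^ j) (norml (ZMod p) c') := by
    intro j
    induction j with
    | zero => intro c'; simp
    | succ j ih =>
      intro c'
      rw [pow_succ', Module.End.mul_apply, Module.End.mul_apply, hns, ih]
  have hxmem : ∀ n ≤ m, norml (ZMod p) (sd (ZMod p) b (c n)) ∈ M n := by
    intro n hnm
    refine Finsupp.supported_mono ?_ (norml_mem (ZMod p) (hsd n hnm))
    rintro t ⟨⟨h1, _, h3⟩, h4⟩
    exact ⟨h1, h4, h3⟩
  have hbx : ∀ n < m, bdry (ZMod p) (norml (ZMod p) (sd (ZMod p) b (c (n + 1)))) =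
      norml (ZMod p) (sd (ZMod p) b (bdry (ZMod p) (c (n + 1)))) := by
    intro n hnm
    rw [bdry_norml (ZMod p) (Finsupp.supported_mono (fun t ht => ht.2.1) (hsd (n + 1) hnm)),
      bdry_sd]
  refine no_chain s (hd0 (ZMod p) gam) (bdry (ZMod p)) hsp M ?_ ?_ ?_ (bdry_bdry (ZMod p)) ?_ ?_ ?_
    m (fun n => norml (ZMod p) (sd (ZMod p) b (c n))) hxmem ?_ ?_ ?_ ?_
  · intro n x hx
    refine mp_mem_supported (ZMod p) sh ?_ hx
    rintro t ⟨h1, h2, h3⟩
    refine ⟨by simpa using h1, ?_, ?_⟩
    · unfold Strict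
      rw [List.pairwise_map]
      simp only [sh_lt]
      exact h2
    · intro q hq
      obtain ⟨q', hq', rfl⟩ := List.mem_map.1 hq
      exact (h3 q' hq').sh
  · intro n x hx
    exact hd0_mem (ZMod p) gam hx
  · intro n x hx
    refine bdry_mem_supported (ZMod p) ?_ hx
    rintro t ⟨h1, h2, h3⟩ u hu hlen
    exact ⟨by omega, List.Pairwise.sublist hu h2, fun q hq => h3 q (hu.subset hq)⟩
  · intro x
    exact (mp_bdry (ZMod p) sh x).symm
  · intro n x hx
    refine partition (ZMod p) (by omega) gam sh sh_period Pr (fun q hq => hq.sh)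
      (fun q hq => gam_sh hq) ?_
    refine Finsupp.supported_mono ?_ hx
    rintro t ⟨h1, _, h3⟩
    refine ⟨?_, h3⟩
    rintro rfl
    simp at h1
  · intro x hx
    refine linearMap_eq_on_supported (ZMod p) (f := (bdry (ZMod p)).comp s) (g := bdry (ZMod p)) (fun t ht => ?_) hx
    obtain ⟨q, rfl⟩ := List.length_eq_one_iff.1 ht.1
    simp only [LinearMap.comp_apply, s, mp_single, bdry_single, List.map_cons, List.map_nil, bd,
      map_zero, sub_zero]
  · intro n hnm hn
    rw [hbx n hnm, hc1 n hnm hn, nrm_apply, nrm_apply, map_sum, map_sum]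
    refine Finset.sum_congr rfl fun j _ => ?_
    rw [hnatpow j _ (hcX n hnm.le), hnspow]
  · intro n hnm hn
    rw [hbx n hnm, hc2 n hnm hn, map_sub, map_sub, hnat _ (hcX n hnm.le), hns]
  · have hw : sd (ZMod p) b (c 0) ∈ supported (ZMod p) (ZMod p) {t | Weak t} :=
      Finsupp.supported_mono (fun t ht => ht.2.1) (hsd 0 (Nat.zero_le _))
    rw [bdry_norml (ZMod p) hw, bdry_sd, hc0, sd_nil, norml_single_of_strict (ZMod p) List.Pairwise.nil]
    intro h
    have := congrArg (fun f => f []) h
    simp at this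
  · have h1 : norml (ZMod p) (sd (ZMod p) b (c m)) ∈ supported (ZMod p) (ZMod p) (∅ : Set (List (Finset (ZMod p × Fin m)))) := by
      refine Finsupp.supported_mono ?_ (hxmem m le_rfl)
      rintro t ⟨h1, h2, h3⟩
      have hne : t ≠ [] := by rintro rfl; simp at h1
      obtain ⟨q, t, rfl⟩ := List.exists_cons_of_ne_nil hne
      have h4 := length_le_card _ h2 h3 q (by simp)
      have h5 := (h3 q (by simp)).card_le
      omega
    simpa using h1

end labels

end Pool.Agent.Lib.MP_7ef860_gt
end

section

/-!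
# Barycentric subdivision and the chains of the join of copies of `ℤ/p`
-/

namespace Pool.Agent.Lib.MP_7ef860_gt

open Finsupp

section mesh

variable {E : Type*} [NormedAddCommGroup E] [NormedSpace ℝ E]

/-- barycentre of a list of points -/
noncomputable def bary (l : List E) : E := (l.length : ℝ)⁻¹ • l.sum

/-- the set of entries of a list -/
def ent (l : List E) : Set E := {x | x ∈ l}

theorem bary_mem (l : List E) (hl : l ≠ []) : bary l ∈ convexHull ℝ (ent l) := by
  have hpos : (0 : ℝ) < l.length := by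
    have := List.length_pos_of_ne_nil hl
    exact_mod_cast this
  have h : bary l = ∑ i : Fin l.length, ((l.length : ℝ)⁻¹) • l.get i := by
    rw [← Finset.smul_sum, bary]
    congr 1
    conv_lhs => rw [← List.ofFn_get l]
    rw [List.sum_ofFn]
  rw [h]
  refine (convex_convexHull ℝ _).sum_mem (fun i _ => by positivity) ?_
    (fun i _ => subset_convexHull ℝ _ (List.get_mem l i))
  rw [Finset.sum_const, Finset.card_univ, Fintype.card_fin, nsmul_eq_mul]
  field_simp

theorem dist_bary_le (l : List E) {D : ℝ} (hD : ∀ x ∈ l, ∀ y ∈ l, dist x y ≤ D) {x : E}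
    (hx : x ∈ l) : dist (bary l) x ≤ (1 - 1 / (l.length : ℝ)) * D := by
  classical
  have hpos : (0 : ℝ) < l.length := by
    have := List.length_pos_of_mem hx
    exact_mod_cast this
  have hperm := List.perm_cons_erase hx
  have hsum : l.sum = x + (l.erase x).sum := by rw [hperm.sum_eq, List.sum_cons]
  have hlen : (l.length : ℝ) = (l.erase x).length + 1 := by
    have := hperm.length_eq
    rw [List.length_cons] at this
    exact_mod_cast this
  have key : ∀ m : List E, (∀ y ∈ m, dist x y ≤ D) →
      ‖m.sum - (m.length : ℝ) • x‖ ≤ m.length * D := by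
    intro m
    induction m with
    | nil => intro _; simp
    | cons a m ih =>
      intro h
      have h1 := ih (fun y hy => h y (List.mem_cons_of_mem _ hy))
      have h2 : (a :: m).sum - ((a :: m).length : ℝ) • x =
          (a - x) + (m.sum - (m.length : ℝ) • x) := by
        rw [List.sum_cons, List.length_cons]
        push_cast
        rw [add_smul, one_smul]
        abel
      rw [h2]
      refine (norm_add_le _ _).trans ?_
      have h3 : ‖a - x‖ ≤ D := by
        rw [← dist_eq_norm, dist_comm]
        exact h a (by simp)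
      rw [List.length_cons]
      push_cast
      linarith
  have h1 := key (l.erase x) (fun y hy => hD x hx y (List.mem_of_mem_erase hy))
  have h2 : bary l - x = (l.length : ℝ)⁻¹ • ((l.erase x).sum - ((l.erase x).length : ℝ) • x) := by
    rw [bary, hsum, smul_sub, smul_add, smul_smul]
    have h3 : (l.length : ℝ)⁻¹ * ((l.erase x).length : ℝ) = 1 - (l.length : ℝ)⁻¹ := by
      rw [eq_sub_iff_add_eq]
      rw [hlen]
      have : ((l.erase x).length : ℝ) + 1 ≠ 0 := by positivity
      field_simp
    rw [h3, sub_smul, one_smul]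
    abel
  rw [dist_eq_norm, h2, norm_smul, norm_inv, Real.norm_of_nonneg hpos.le]
  have h4 : (l.length : ℝ)⁻¹ * ‖(l.erase x).sum - ((l.erase x).length : ℝ) • x‖ ≤
      (l.length : ℝ)⁻¹ * ((l.erase x).length * D) := by
    gcongr
  refine h4.trans (le_of_eq ?_)
  rw [← mul_assoc]
  congr 1
  have h5 : ((l.erase x).length : ℝ) = l.length - 1 := by linarith
  rw [h5]
  field_simp

theorem dist_bary_hull (l : List E) {D : ℝ} (hD : ∀ x ∈ l, ∀ y ∈ l, dist x y ≤ D) {z : E}
    (hz : z ∈ convexHull ℝ (ent l)) : dist (bary l) z ≤ (1 - 1 / (l.length : ℝ)) * D := by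
  have hsub : ent l ⊆ Metric.closedBall (bary l) ((1 - 1 / (l.length : ℝ)) * D) := by
    intro x hx
    rw [Metric.mem_closedBall, dist_comm]
    exact dist_bary_le l hD hx
  have := convexHull_min hsub (convex_closedBall _ _) hz
  rwa [Metric.mem_closedBall, dist_comm] at this

theorem bary_map (g : E →ₗ[ℝ] E) (l : List E) : bary (l.map g) = g (bary l) := by
  rw [bary, bary, map_smul, List.length_map]
  congr 1
  induction l with
  | nil => simp
  | cons a l ih => simp [ih]

/-- relation between a simplex and the simplices of its barycentric subdivision -/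
def SdRel (l t : List E) : Prop :=
  t.length = l.length ∧ (∀ y ∈ t, y ∈ convexHull ℝ (ent l)) ∧
    ∀ D : ℝ, (∀ x ∈ l, ∀ y ∈ l, dist x y ≤ D) →
      ∀ y ∈ t, ∀ z ∈ t, dist y z ≤ (1 - 1 / (l.length : ℝ)) * D

theorem sdRel_nil : SdRel ([] : List E) [] := ⟨rfl, by simp, by simp⟩

theorem sdRel_step (l : List E) (hl : l ≠ []) (u : List E) (hu : u.Sublist l)
    (hlen : u.length + 1 = l.length) (t : List E) (h : SdRel u t) : SdRel l (bary l :: t) := by
  obtain ⟨h1, h2, h3⟩ := h
  have hent : ent u ⊆ ent l := fun x hx => hu.subset hx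
  refine ⟨by simp only [List.length_cons]; omega, ?_, ?_⟩
  · intro y hy
    rcases List.mem_cons.1 hy with rfl | hy
    · exact bary_mem l hl
    · exact convexHull_mono hent (h2 y hy)
  · intro D hD
    obtain ⟨x₀, hx₀⟩ := List.exists_mem_of_ne_nil l hl
    have hD0 : 0 ≤ D := by
      have := hD x₀ hx₀ x₀ hx₀
      rwa [dist_self] at this
    have hb : ∀ z ∈ t, dist (bary l) z ≤ (1 - 1 / (l.length : ℝ)) * D := fun z hz =>
      dist_bary_hull l hD (convexHull_mono hent (h2 z hz))
    have hlpos : (1 : ℝ) ≤ l.length := by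
      have := List.length_pos_of_ne_nil hl
      exact_mod_cast this
    have hnn : 0 ≤ (1 - 1 / (l.length : ℝ)) * D := by
      refine mul_nonneg ?_ hD0
      rw [sub_nonneg, div_le_one (by linarith)]
      exact hlpos
    intro y hy z hz
    rcases List.mem_cons.1 hy with rfl | hy <;> rcases List.mem_cons.1 hz with rfl | hz
    · rw [dist_self]; exact hnn
    · exact hb z hz
    · rw [dist_comm]; exact hb y hy
    · have h4 := h3 D (fun x hx y hy => hD x (hu.subset hx) y (hu.subset hy)) y hy z hz
      refine h4.trans ?_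
      have hup : 0 < u.length := by
        rw [← h1]
        exact List.length_pos_of_mem hy
      have h5 : (0 : ℝ) < u.length := by exact_mod_cast hup
      have h6 : (u.length : ℝ) ≤ l.length := by exact_mod_cast (by omega : u.length ≤ l.length)
      gcongr

variable (p : ℕ)

/-- barycentric subdivision of chains -/
noncomputable def bsd : (List E →₀ ZMod p) →ₗ[ZMod p] (List E →₀ ZMod p) := sd (ZMod p) bary

theorem bsd_bdry (c : List E →₀ ZMod p) :
    bdry (ZMod p) (bsd p c) = bsd p (bdry (ZMod p) c) := bdry_sd _ _ _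

theorem bsd_mp (g : E →ₗ[ℝ] E) (c : List E →₀ ZMod p) :
    bsd p (mp (ZMod p) g c) = mp (ZMod p) g (bsd p c) :=
  sd_mp (ZMod p) bary bary g g Set.univ (fun l _ _ => bary_map g l) (by simp)

/-- Small chains: the supports consist of lists of length `k` whose hull is in `X` and whose
diameter is at most `D`. -/
def SmallSet (X : Set E) (k : ℕ) (D : ℝ) : Set (List E) :=
  {l | l.length = k ∧ (convexHull ℝ (ent l) ⊆ X) ∧ ∀ x ∈ l, ∀ y ∈ l, dist x y ≤ D}

theorem bsd_small {X : Set E} {k : ℕ} {D : ℝ} {c : List E →₀ ZMod p}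
    (hc : c ∈ supported (ZMod p) (ZMod p) (SmallSet X k D)) :
    bsd p c ∈ supported (ZMod p) (ZMod p) (SmallSet X k ((1 - 1 / (k : ℝ)) * D)) := by
  refine sd_mem_supported (ZMod p) bary SdRel sdRel_nil sdRel_step ?_ hc
  rintro l ⟨h1, h2, h3⟩ t ⟨h4, h5, h6⟩
  refine ⟨by omega, ?_, ?_⟩
  · refine Set.Subset.trans ?_ h2
    exact convexHull_min h5 (convex_convexHull ℝ _)
  · rw [← h1]
    exact h6 D h3

theorem bsd_pow_small {X : Set E} {k : ℕ} {D : ℝ} {c : List E →₀ ZMod p}
    (hc : c ∈ supported (ZMod p) (ZMod p) (SmallSet X k D)) (r : ℕ) :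
    ((bsd p) ^ r) c ∈
      supported (ZMod p) (ZMod p) (SmallSet X k ((1 - 1 / (k : ℝ)) ^ r * D)) := by
  induction r with
  | zero => simpa using hc
  | succ r ih =>
    rw [pow_succ' (bsd p), Module.End.mul_apply, pow_succ' (1 - 1 / (k : ℝ)), mul_assoc]
    exact bsd_small p ih

theorem bsd_pow_bdry (r : ℕ) (c : List E →₀ ZMod p) :
    bdry (ZMod p) (((bsd p) ^ r) c) = ((bsd p) ^ r) (bdry (ZMod p) c) := by
  induction r with
  | zero => simp
  | succ r ih => rw [pow_succ', Module.End.mul_apply, Module.End.mul_apply, bsd_bdry, ih]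

theorem bsd_pow_mp (g : E →ₗ[ℝ] E) (r : ℕ) (c : List E →₀ ZMod p) :
    ((bsd p) ^ r) (mp (ZMod p) g c) = mp (ZMod p) g (((bsd p) ^ r) c) := by
  induction r with
  | zero => simp
  | succ r ih => rw [pow_succ', Module.End.mul_apply, Module.End.mul_apply, ih, bsd_mp]

theorem bsd_pow_nrm (g : E →ₗ[ℝ] E) (r : ℕ) (c : List E →₀ ZMod p) :
    ((bsd p) ^ r) (nrm (mp (ZMod p) g) p c) = nrm (mp (ZMod p) g) p (((bsd p) ^ r) c) := by
  rw [nrm_apply, nrm_apply, map_sum]
  refine Finset.sum_congr rfl fun j hj => ?_
  clear hj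
  induction j with
  | zero => simp
  | succ j ih => rw [pow_succ', Module.End.mul_apply, Module.End.mul_apply, bsd_pow_mp, ih]

theorem bsd_pow_nil (r : ℕ) :
    ((bsd p) ^ r) (single ([] : List E) 1) = single [] 1 := by
  induction r with
  | zero => simp
  | succ r ih =>
    rw [pow_succ', Module.End.mul_apply, ih]
    exact sd_nil _ _

end mesh

/-! ### The chains of the join -/

section join

variable {E : Type*} (p : ℕ) (g : E → E) (v : ℕ → E)

/-- the chains of the join of copies of `ℤ/p` -/
noncomputable def cc : ℕ → (List E →₀ ZMod p)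
  | 0 => single [v 0] 1
  | n + 1 => cone (ZMod p) (v (n + 1))
      (if Even n then nrm (mp (ZMod p) g) p (cc n) else cc n - mp (ZMod p) g (cc n))

theorem bdry_cc_zero : bdry (ZMod p) (cc p g v 0) = single [] 1 := by
  rw [cc, bdry_single, bd, bd, map_zero, sub_zero]

theorem nrm_bdry (c : List E →₀ ZMod p) :
    bdry (ZMod p) (nrm (mp (ZMod p) g) p c) = nrm (mp (ZMod p) g) p (bdry (ZMod p) c) := by
  rw [nrm_apply, nrm_apply, map_sum]
  refine Finset.sum_congr rfl fun j hj => ?_
  clear hj
  induction j with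
  | zero => simp
  | succ j ih =>
    rw [pow_succ', Module.End.mul_apply, Module.End.mul_apply, ← mp_bdry, ih]

theorem nrm_nil : nrm (mp (ZMod p) g) p (single [] 1) = 0 := by
  rw [nrm_apply]
  have h : ∀ j, ((mp (ZMod p) g) ^ j) (single [] 1) = single [] 1 := by
    intro j
    refine pow_fixed ?_ j
    rw [mp_single, List.map_nil]
  simp only [h]
  rw [Finset.sum_const, Finset.card_range, ← Nat.cast_smul_eq_nsmul (ZMod p), CharP.cast_eq_zero,
    zero_smul]

variable {g}

theorem bdry_cc (hg : g^[p] = id) : ∀ n, bdry (ZMod p) (cc p g v (n + 1)) =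
    if Even n then nrm (mp (ZMod p) g) p (cc p g v n)
      else cc p g v n - mp (ZMod p) g (cc p g v n) := by
  have hs := mp_pow_eq_one (ZMod p) g hg
  intro n
  rw [cc, bdry_cone, sub_eq_self]
  have key : bdry (ZMod p) (if Even n then nrm (mp (ZMod p) g) p (cc p g v n)
      else cc p g v n - mp (ZMod p) g (cc p g v n)) = 0 := by
    induction n with
    | zero =>
      rw [if_pos (by simp), nrm_bdry, bdry_cc_zero, nrm_nil]
    | succ n ih =>
      have hb : bdry (ZMod p) (cc p g v (n + 1)) =
        if Even n then nrm (mp (ZMod p) g) p (cc p g v n)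
          else cc p g v n - mp (ZMod p) g (cc p g v n) := by
        rw [cc, bdry_cone, ih, map_zero, sub_zero]
      by_cases he : Even n
      · have ho : ¬ Even (n + 1) := by rw [Nat.even_add_one]; simpa using he
        rw [if_neg ho, map_sub, ← mp_bdry, hb, if_pos he]
        exact sub_nrm _ hs _
      · have ho : Even (n + 1) := by rw [Nat.even_add_one]; exact he
        rw [if_pos ho, nrm_bdry, hb, if_neg he]
        exact nrm_sub _ hs _
  rw [key, map_zero]

/-- lists whose entries are vertices of one simplex of the join -/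
def JoinSet (g : E → E) (v : ℕ → E) (n : ℕ) : Set (List E) :=
  {l | l.length = n + 1 ∧ ∃ j : ℕ → ℕ, ∀ x ∈ l, ∃ i ≤ n, x = g^[j i] (v i)}

theorem mp_joinSet (n : ℕ) {c : List E →₀ ZMod p}
    (hc : c ∈ supported (ZMod p) (ZMod p) (JoinSet g v n)) :
    mp (ZMod p) g c ∈ supported (ZMod p) (ZMod p) (JoinSet g v n) := by
  refine mp_mem_supported (ZMod p) g ?_ hc
  rintro l ⟨h1, j, hj⟩
  refine ⟨by simpa using h1, fun i => j i + 1, ?_⟩
  intro x hx
  obtain ⟨y, hy, rfl⟩ := List.mem_map.1 hx
  obtain ⟨i, hi, rfl⟩ := hj y hy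
  exact ⟨i, hi, by rw [Function.iterate_succ', Function.comp_apply]⟩

theorem cc_mem : ∀ n, cc p g v n ∈ supported (ZMod p) (ZMod p) (JoinSet g v n) := by
  intro n
  induction n with
  | zero =>
    refine Finsupp.single_mem_supported _ _ ⟨rfl, fun _ => 0, ?_⟩
    intro x hx
    rw [List.mem_singleton] at hx
    exact ⟨0, le_rfl, hx⟩
  | succ n ih =>
    rw [cc]
    refine cone_mem_supported (ZMod p) (v (n + 1)) (S := JoinSet g v n) ?_ ?_
    · rintro l ⟨h1, j, hj⟩
      refine ⟨by simp only [List.length_cons]; omega, fun i => if i ≤ n then j i else 0, ?_⟩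
      intro x hx
      rcases List.mem_cons.1 hx with rfl | hx
      · exact ⟨n + 1, le_rfl, by simp⟩
      · obtain ⟨i, hi, rfl⟩ := hj x hx
        exact ⟨i, by omega, by simp [hi]⟩
    · split_ifs
      · exact nrm_mem (fun x hx => mp_joinSet p v n hx) p ih
      · exact Submodule.sub_mem _ ih (mp_joinSet p v n ih)

end join

end Pool.Agent.Lib.MP_7ef860_gt
end
end

section

/-!
# Smooth maps of finite order on connected manifolds

A smooth map `φ` of finite order on a connected manifold, with a fixed point `u` where the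
derivative of `φ` is the identity, is the identity.
-/

open scoped Manifold ContDiff Topology
open Set Filter

namespace Pool.Agent.Lib.MP_7ef860_gt

section local_lemma

variable {V : Type*} [NormedAddCommGroup V] [NormedSpace ℝ V] [FiniteDimensional ℝ V]

/-- a map with invertible strict derivative is injective near the point -/
theorem eventually_injective {h : V → V} {x₀ : V} {p : ℕ} (hp : 0 < p)
    (hh : HasStrictFDerivAt h ((p : ℝ) • ContinuousLinearMap.id ℝ V) x₀) :
    ∃ s ∈ 𝓝 x₀, InjOn h s := by
  have hp' : (p : ℝ) ≠ 0 := by exact_mod_cast hp.ne'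
  have : CompleteSpace V := FiniteDimensional.complete ℝ V
  let e : V ≃L[ℝ] V := ContinuousLinearEquiv.smulLeft (Units.mk0 (p : ℝ) hp')
  have he : (e : V →L[ℝ] V) = (p : ℝ) • ContinuousLinearMap.id ℝ V := by
    ext v
    simp [e]
  rw [← he] at hh
  refine ⟨(hh.toOpenPartialHomeomorph h).source, ?_, ?_⟩
  · exact (hh.toOpenPartialHomeomorph h).open_source.mem_nhds hh.mem_toOpenPartialHomeomorph_source
  · have := (hh.toOpenPartialHomeomorph h).injOn
    simpa using this

theorem eq_of_cyclic_sum {f : V → V} {x₀ : V} {p : ℕ} (hp : 0 < p) (F : ℕ → V → V)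
    (hF : ∀ c < p, HasStrictFDerivAt (F c) (ContinuousLinearMap.id ℝ V) x₀)
    (hcomp : ∀ c < p, ∀ᶠ x in 𝓝 x₀, F c (f x) = F (c + 1) x)
    (hper : ∀ᶠ x in 𝓝 x₀, F p x = F 0 x) (hf : ContinuousAt f x₀) (hfx : f x₀ = x₀) :
    ∀ᶠ x in 𝓝 x₀, f x = x := by
  have h1 : HasStrictFDerivAt (fun x => ∑ c ∈ Finset.range p, F c x)
      (∑ c ∈ Finset.range p, ContinuousLinearMap.id ℝ V) x₀ := by
    exact HasStrictFDerivAt.fun_sum fun c hc => hF c (Finset.mem_range.1 hc)
  rw [Finset.sum_const, Finset.card_range, ← Nat.cast_smul_eq_nsmul ℝ] at h1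
  obtain ⟨s, hs, hinj⟩ := eventually_injective hp h1
  have h2 : ∀ᶠ x in 𝓝 x₀, ∀ c ∈ Finset.range p, F c (f x) = F (c + 1) x := by
    rw [Filter.eventually_all_finset]
    exact fun c hc => hcomp c (Finset.mem_range.1 hc)
  have h3 : ∀ᶠ x in 𝓝 x₀, f x ∈ s := by
    have : Tendsto f (𝓝 x₀) (𝓝 x₀) := by
      have := hf.tendsto
      rwa [hfx] at this
    exact this hs
  filter_upwards [h2, h3, hper, hs] with x hx1 hx2 hx3 hx4
  apply hinj hx2 hx4
  show ∑ c ∈ Finset.range p, F c (f x) = ∑ c ∈ Finset.range p, F c x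
  rw [Finset.sum_congr rfl hx1]
  have h4 := Finset.sum_range_succ (fun c => F c x) p
  rw [Finset.sum_range_succ' (fun c => F c x) p, hx3] at h4
  exact add_right_cancel h4

end local_lemma

section manifold

variable {V : Type*} [NormedAddCommGroup V] [NormedSpace ℝ V] [FiniteDimensional ℝ V]
  {H : Type*} [TopologicalSpace H] {I : ModelWithCorners ℝ V H} [I.Boundaryless]
  {W : Type*} [TopologicalSpace W] [ChartedSpace H W] [IsManifold I ∞ W]

/-- `φ` in the chart at `u` -/
noncomputable def inChart (I : ModelWithCorners ℝ V H) (u : W) (φ : W → W) : V → V :=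
  extChartAt I u ∘ φ ∘ (extChartAt I u).symm

omit [FiniteDimensional ℝ V] [I.Boundaryless] [IsManifold I ∞ W] in
theorem inChart_self {φ : W → W} {u : W} (hu : φ u = u) :
    inChart I u φ (extChartAt I u u) = extChartAt I u u := by
  simp [inChart, hu]

omit [FiniteDimensional ℝ V] [IsManifold I ∞ W] in
theorem inChart_contDiffAt {φ : W → W} (hφ : ContMDiff I I ∞ φ) {u : W} (hu : φ u = u) :
    ContDiffAt ℝ ∞ (inChart I u φ) (extChartAt I u u) := by
  have h1 := (contMDiffAt_iff.1 (hφ u)).2
  rw [hu, ModelWithCorners.range_eq_univ, contDiffWithinAt_univ] at h1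
  exact h1

omit [FiniteDimensional ℝ V] [IsManifold I ∞ W] in
theorem inChart_hasFDerivAt {φ : W → W} {u : W} (hu : φ u = u) {A : V →L[ℝ] V}
    (hd : HasMFDerivAt I I φ u A) :
    HasFDerivAt (inChart I u φ) A (extChartAt I u u) := by
  have h1 : HasFDerivWithinAt (𝕜 := ℝ) (E := V) (F := V) (writtenInExtChartAt I I u φ) A
    (range I) (extChartAt I u u) := hd.2
  have h2 : writtenInExtChartAt I I u φ = inChart I u φ := by
    unfold writtenInExtChartAt inChart
    rw [hu]
  rw [ModelWithCorners.range_eq_univ, hasFDerivWithinAt_univ, h2] at h1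
  exact h1

omit [FiniteDimensional ℝ V] [I.Boundaryless] [IsManifold I ∞ W] in
theorem inChart_comp {φ χ : W → W} {u : W} (hu : χ u = u) (hχ : ContinuousAt χ u) :
    ∀ᶠ x in 𝓝 (extChartAt I u u), inChart I u φ (inChart I u χ x) = inChart I u (φ ∘ χ) x := by
  have h1 : Tendsto (χ ∘ (extChartAt I u).symm) (𝓝 (extChartAt I u u)) (𝓝 u) := by
    have h2 : Tendsto (extChartAt I u).symm (𝓝 (extChartAt I u u)) (𝓝 u) := by
      have := (continuousAt_extChartAt_symm (I := I) u).tendsto
      rwa [extChartAt_to_inv] at this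
    have h3 : Tendsto χ (𝓝 u) (𝓝 u) := by
      have := hχ.tendsto
      rwa [hu] at this
    exact h3.comp h2
  filter_upwards [h1 (extChartAt_source_mem_nhds (I := I) u)] with x hx
  have hx' : χ ((extChartAt I u).symm x) ∈ (extChartAt I u).source := hx
  simp only [inChart, Function.comp_apply]
  rw [(extChartAt I u).left_inv hx']

omit [IsManifold I ∞ W] in
theorem eventually_eq_of_hasMFDerivAt_id {φ : W → W} (hφ : ContMDiff I I ∞ φ) {p : ℕ}
    (hp : 0 < p) (hφp : φ^[p] = id) {u : W} (hu : φ u = u)
    (hd : HasMFDerivAt I I φ u (ContinuousLinearMap.id ℝ V : V →L[ℝ] V)) :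
    ∀ᶠ v in 𝓝 u, φ v = v := by
  have hiter : ∀ c, φ^[c] u = u := fun c => Function.iterate_fixed hu c
  have hcd : ∀ c, ContDiffAt ℝ ∞ (inChart I u φ^[c]) (extChartAt I u u) := fun c =>
    inChart_contDiffAt (hφ.iterate c) (hiter c)
  have hone := inChart_hasFDerivAt hu hd
  have hcomp : ∀ c, ∀ᶠ x in 𝓝 (extChartAt I u u),
      inChart I u φ^[c] (inChart I u φ x) = inChart I u φ^[c + 1] x := by
    intro c
    have := inChart_comp (I := I) (φ := φ^[c]) (χ := φ) hu (hφ.continuous.continuousAt)
    rwa [← Function.iterate_succ] at this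
  have hid : ∀ᶠ x in 𝓝 (extChartAt I u u), inChart I u (id : W → W) x = x := by
    have : (extChartAt I u).target ∈ 𝓝 (extChartAt I u u) := extChartAt_target_mem_nhds u
    filter_upwards [this] with x hx
    simp only [inChart, Function.comp_apply, id, (extChartAt I u).right_inv hx]
  have hder : ∀ c, HasFDerivAt (inChart I u φ^[c]) (ContinuousLinearMap.id ℝ V)
      (extChartAt I u u) := by
    intro c
    induction c with
    | zero =>
      rw [Function.iterate_zero]
      exact (hasFDerivAt_id _).congr_of_eventuallyEq hid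
    | succ c ih =>
      have h1 : HasFDerivAt (inChart I u φ^[c] ∘ inChart I u φ)
          ((ContinuousLinearMap.id ℝ V).comp (ContinuousLinearMap.id ℝ V))
          (extChartAt I u u) := by
        apply HasFDerivAt.comp
        · rw [inChart_self hu]
          exact ih
        · exact hone
      rw [ContinuousLinearMap.id_comp] at h1
      refine h1.congr_of_eventuallyEq ?_
      filter_upwards [hcomp c] with x hx
      exact hx.symm
  have hstrict : ∀ c, HasStrictFDerivAt (inChart I u φ^[c]) (ContinuousLinearMap.id ℝ V)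
      (extChartAt I u u) := by
    intro c
    have h1 := (hcd c).hasStrictFDerivAt (by simp)
    rwa [(hder c).fderiv] at h1
  have key : ∀ᶠ x in 𝓝 (extChartAt I u u), inChart I u φ x = x := by
    refine eq_of_cyclic_sum hp (fun c => inChart I u φ^[c]) (fun c _ => hstrict c)
      (fun c _ => hcomp c) ?_ ?_ (inChart_self hu)
    · simp [hφp]
    · exact hone.continuousAt
  have h1 : ∀ᶠ v in 𝓝 u, inChart I u φ (extChartAt I u v) = extChartAt I u v :=
    (continuousAt_extChartAt (I := I) u).tendsto key
  have h2 : ∀ᶠ v in 𝓝 u, φ v ∈ (extChartAt I u).source := by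
    have h3 : Tendsto φ (𝓝 u) (𝓝 u) := by
      have := hφ.continuous.continuousAt.tendsto (x := u)
      rwa [hu] at this
    exact h3 (extChartAt_source_mem_nhds (I := I) u)
  filter_upwards [h1, h2, extChartAt_source_mem_nhds (I := I) u] with v hv1 hv2 hv3
  apply (extChartAt I u).injOn hv2 hv3
  simp only [inChart, Function.comp_apply, (extChartAt I u).left_inv hv3] at hv1
  exact hv1

theorem eq_id_of_hasMFDerivAt_id [T2Space W] [PreconnectedSpace W] {φ : W → W}
    (hφ : ContMDiff I I ∞ φ) {p : ℕ}
    (hp : 0 < p) (hφp : φ^[p] = id) {u : W} (hu : φ u = u)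
    (hd : HasMFDerivAt I I φ u (ContinuousLinearMap.id ℝ V : V →L[ℝ] V)) :
    φ = id := by
  set S : Set W := {u | ∀ᶠ v in 𝓝 u, φ v = v} with hS
  have hopen : IsOpen S := by
    rw [isOpen_iff_mem_nhds]
    intro v hv
    exact eventually_eventually_nhds.2 hv
  have hSfix : ∀ v ∈ S, φ v = v := fun v hv => hv.self_of_nhds
  have hclosed : IsClosed S := by
    rw [← closure_subset_iff_isClosed]
    intro v hv
    have hv1 : φ v = v := by
      have : closure S ⊆ {v | φ v = v} :=
        closure_minimal hSfix (isClosed_eq hφ.continuous continuous_id)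
      exact this hv
    refine eventually_eq_of_hasMFDerivAt_id hφ hp hφp hv1 ?_
    -- the derivative at `v` is the identity
    have hcd := inChart_contDiffAt hφ hv1
    have hcont : ContinuousAt (fderiv ℝ (inChart I v φ)) (extChartAt I v v) :=
      (hcd.fderiv_right (m := 0) (by simp)).continuousAt
    have hfreq : ∃ᶠ x in 𝓝 (extChartAt I v v),
        fderiv ℝ (inChart I v φ) x = ContinuousLinearMap.id ℝ V := by
      intro hcon
      have h1 : ∀ᶠ w in 𝓝 v, ¬ fderiv ℝ (inChart I v φ) (extChartAt I v w) =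
          ContinuousLinearMap.id ℝ V := (continuousAt_extChartAt (I := I) v).tendsto hcon
      rw [mem_closure_iff_frequently] at hv
      obtain ⟨w, hw1, hw2, hw3⟩ :=
        (hv.and_eventually (h1.and (extChartAt_source_mem_nhds (I := I) v))).exists
      apply hw2
      have h4 : ∀ᶠ x in 𝓝 (extChartAt I v w), inChart I v φ x = x := by
        have h5 : Tendsto (extChartAt I v).symm (𝓝 (extChartAt I v w)) (𝓝 w) := by
          have h6 := (continuousAt_extChartAt_symm'' (I := I) (x := v)
            ((extChartAt I v).map_source hw3)).tendsto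
          rwa [(extChartAt I v).left_inv hw3] at h6
        have h7 : (extChartAt I v).target ∈ 𝓝 (extChartAt I v w) :=
          extChartAt_target_mem_nhds' ((extChartAt I v).map_source hw3)
        filter_upwards [h5 hw1, h7] with x hx1 hx2
        have hx1' : φ ((extChartAt I v).symm x) = (extChartAt I v).symm x := hx1
        simp only [inChart, Function.comp_apply, hx1', (extChartAt I v).right_inv hx2]
      have h5 : HasFDerivAt (inChart I v φ) (ContinuousLinearMap.id ℝ V) (extChartAt I v w) :=
        (hasFDerivAt_id _).congr_of_eventuallyEq h4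
      exact h5.fderiv
    have hder : fderiv ℝ (inChart I v φ) (extChartAt I v v) = ContinuousLinearMap.id ℝ V := by
      by_contra hne
      have h1 : ∀ᶠ x in 𝓝 (extChartAt I v v),
          fderiv ℝ (inChart I v φ) x ≠ ContinuousLinearMap.id ℝ V :=
        hcont.eventually_ne hne
      exact hfreq (h1.mono fun x hx => hx)
    have h1 : HasMFDerivAt I I φ v (mfderiv I I φ v) :=
      (hφ.mdifferentiableAt (by simp)).hasMFDerivAt
    have h2 := inChart_hasFDerivAt hv1 h1
    have h3 : (mfderiv I I φ v : V →L[ℝ] V) = ContinuousLinearMap.id ℝ V :=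
      h2.fderiv.symm.trans hder
    rw [h3] at h1
    exact h1
  have hne : S.Nonempty := ⟨u, eventually_eq_of_hasMFDerivAt_id hφ hp hφp hu hd⟩
  have huniv : S = univ := IsClopen.eq_univ ⟨hclosed, hopen⟩ hne
  funext v
  exact hSfix v (huniv ▸ mem_univ v)

end manifold

end Pool.Agent.Lib.MP_7ef860_gt
end
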