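import Mathlib
import Pool.Agent.Lib.MP_7ef860_gt.Defs
import Pool.Agent.Lib.MP_7ef860_gt.FiniteOrder

section

/-!
# The quaternionic pairing on `ESU2` and the covering homotopy property
-/

open Matrix ComplexConjugate
open scoped Manifold ContDiff Topology

noncomputable section

namespace Pool.Agent.Lib.MP_7ef860_gt

theorem smul_val (A : SU2) (x : ESU2) :
    (A • x).1 = (A.1 0 0 • x.1.1 + A.1 0 1 • x.1.2, A.1 1 0 • x.1.1 + A.1 1 1 • x.1.2) := rfl

/-- first component of the pairing -/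
def pa (x u : ESU2) : ℂ := inner ℂ u.1.1 x.1.1 + inner ℂ x.1.2 u.1.2

/-- second component of the pairing -/
def pb (x u : ESU2) : ℂ := inner ℂ u.1.1 x.1.2 - inner ℂ x.1.1 u.1.2

theorem pa_smul_left (A : SU2) (x u : ESU2) :
    pa (A • x) u = A.1 0 0 * pa x u + A.1 0 1 * pb x u := by
  simp only [pa, pb, smul_val, inner_add_left, inner_add_right, inner_smul_left, inner_smul_right,
    (su2_adj A).1, (su2_adj A).2, Complex.conj_conj]
  ring

theorem pb_smul_left (A : SU2) (x u : ESU2) :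
    pb (A • x) u = A.1 1 0 * pa x u + A.1 1 1 * pb x u := by
  simp only [pa, pb, smul_val, inner_add_left, inner_add_right, inner_smul_left, inner_smul_right,
    (su2_adj A).1, (su2_adj A).2, map_neg, Complex.conj_conj]
  ring

theorem pa_swap (x u : ESU2) : pa u x = conj (pa x u) := by
  simp only [pa, map_add, inner_conj_symm]

theorem pb_swap (x u : ESU2) : pb u x = - pb x u := by
  simp only [pb]
  ring

theorem pa_self (x : ESU2) : pa x x = 1 := by
  simp only [pa, inner_self_eq_norm_sq_to_K]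
  have h : ((‖x.1.1‖ ^ 2 + ‖x.1.2‖ ^ 2 : ℝ) : ℂ) = 1 := by
    rw [x.2]
    simp
  push_cast at h
  exact h

theorem pb_self (x : ESU2) : pb x x = 0 := by
  simp [pb]

/-- the norm of the pairing -/
def qn (x u : ESU2) : ℝ := Complex.normSq (pa x u) + Complex.normSq (pb x u)

theorem su2_norm' (A : SU2) : conj (A.1 0 0) * A.1 0 0 + conj (A.1 1 0) * A.1 1 0 = 1 := by
  have h' : ((Complex.normSq (A.1 0 0) + Complex.normSq (A.1 1 0) : ℝ) : ℂ) = 1 := by
    rw [su2_norm]; simp
  rwa [Complex.ofReal_add, Complex.normSq_eq_conj_mul_self,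
    Complex.normSq_eq_conj_mul_self] at h'

theorem qn_smul_left (A : SU2) (x u : ESU2) : qn (A • x) u = qn x u := by
  have h : ((qn (A • x) u : ℝ) : ℂ) = (qn x u : ℝ) := by
    simp only [qn, Complex.ofReal_add, Complex.normSq_eq_conj_mul_self, pa_smul_left,
      pb_smul_left, (su2_adj A).1, (su2_adj A).2, map_add, map_mul, map_neg, Complex.conj_conj]
    linear_combination (conj (pa x u) * pa x u + conj (pb x u) * pb x u) * su2_norm' A
  exact_mod_cast h

theorem qn_swap (x u : ESU2) : qn u x = qn x u := by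
  simp only [qn, pa_swap x u, pb_swap x u, Complex.normSq_conj, Complex.normSq_neg]

theorem qn_smul_right (A : SU2) (x u : ESU2) : qn x (A • u) = qn x u := by
  rw [qn_swap, qn_smul_left, qn_swap]

theorem qn_self (x : ESU2) : qn x x = 1 := by
  simp [qn, pa_self, pb_self]

theorem qn_nonneg (x u : ESU2) : 0 ≤ qn x u :=
  add_nonneg (Complex.normSq_nonneg _) (Complex.normSq_nonneg _)

/-- the normalised pairing, an element of `SU(2)` -/
def nr (x u : ESU2) (h : qn x u ≠ 0) : SU2 :=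
  mk2 (pa x u / (Real.sqrt (qn x u) : ℂ)) (pb x u / (Real.sqrt (qn x u) : ℂ)) (by
    rw [map_div₀, map_div₀, Complex.normSq_ofReal, ← add_div,
      Real.mul_self_sqrt (qn_nonneg x u)]
    exact div_self h)

theorem nr_smul_left (A : SU2) (x u : ESU2) (h : qn x u ≠ 0) (h' : qn (A • x) u ≠ 0) :
    nr (A • x) u h' = A * nr x u h := by
  apply su2_ext
  · rw [mul_00]
    simp only [nr, mk2_00, mk2_10, pa_smul_left, qn_smul_left]
    ring
  · rw [mul_10]
    simp only [nr, mk2_00, mk2_10, pb_smul_left, qn_smul_left]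
    ring

theorem nr_smul_right (A : SU2) (x u : ESU2) (h : qn x u ≠ 0) (h' : qn x (A • u) ≠ 0) :
    nr x (A • u) h' = nr x u h * A⁻¹ := by
  apply su2_ext
  · rw [mul_00, inv_00, inv_10]
    simp only [nr, mk2_00, mk2_01, qn_smul_right]
    rw [pa_swap (A • u) x, pa_smul_left, pa_swap x u, pb_swap x u, (su2_adj A).2]
    simp only [map_add, map_mul, map_neg, Complex.conj_conj, map_div₀, Complex.conj_ofReal]
    ring
  · rw [mul_10, inv_00, inv_10]
    simp only [nr, mk2_10, mk2_11, qn_smul_right]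
    rw [pb_swap (A • u) x, pb_smul_left, pa_swap x u, pb_swap x u, (su2_adj A).2, (su2_adj A).1]
    simp only [map_neg, Complex.conj_conj, map_div₀, Complex.conj_ofReal]
    ring

/-- `SU(2)` acts freely on `ESU2`. -/
theorem smul_free {A : SU2} {x : ESU2} (h : A • x = x) : A = 1 := by
  have h1 := pa_smul_left A x x
  have h2 := pb_smul_left A x x
  rw [h, pa_self, pb_self, mul_one, mul_zero, add_zero] at h1
  rw [h, pa_self, pb_self, mul_one, mul_zero, add_zero] at h2
  exact su2_ext h1.symm h2.symm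

theorem toB_eq_iff {x y : ESU2} : toB x = toB y ↔ ∃ A : SU2, A • y = x :=
  Quotient.eq (r := MulAction.orbitRel SU2 ESU2)

/-- the point of the orbit of `x` closest to `u` -/
def lift0 (x u : ESU2) : ESU2 :=
  if h : qn x u ≠ 0 then (nr x u h)⁻¹ • x else u

theorem lift0_smul_left (A : SU2) (x u : ESU2) : lift0 (A • x) u = lift0 x u := by
  by_cases h : qn x u ≠ 0
  · have h' : qn (A • x) u ≠ 0 := by rwa [qn_smul_left]
    rw [lift0, lift0, dif_pos h, dif_pos h', nr_smul_left A x u h h', _root_.mul_inv_rev, mul_smul,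
      inv_smul_smul]
  · have h' : ¬ qn (A • x) u ≠ 0 := by rwa [qn_smul_left]
    rw [lift0, lift0, dif_neg h, dif_neg h']

theorem lift0_smul_right (A : SU2) (x u : ESU2) : lift0 x (A • u) = A • lift0 x u := by
  by_cases h : qn x u ≠ 0
  · have h' : qn x (A • u) ≠ 0 := by rwa [qn_smul_right]
    rw [lift0, lift0, dif_pos h, dif_pos h', nr_smul_right A x u h h', _root_.mul_inv_rev, inv_inv,
      mul_smul]
  · have h' : ¬ qn x (A • u) ≠ 0 := by rwa [qn_smul_right]
    rw [lift0, lift0, dif_neg h, dif_neg h']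

theorem toB_lift0 {x u : ESU2} (h : qn x u ≠ 0) : toB (lift0 x u) = toB x := by
  rw [lift0, dif_pos h, toB_smul]

/-! ### Continuity -/

theorem continuous_pa : Continuous fun q : ESU2 × ESU2 => pa q.1 q.2 := by
  unfold pa
  have h1 : Continuous fun q : ESU2 × ESU2 => q.1.1 := continuous_subtype_val.comp continuous_fst
  have h2 : Continuous fun q : ESU2 × ESU2 => q.2.1 := continuous_subtype_val.comp continuous_snd
  exact (h2.fst.inner h1.fst).add (h1.snd.inner h2.snd)

theorem continuous_pb : Continuous fun q : ESU2 × ESU2 => pb q.1 q.2 := by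
  unfold pb
  have h1 : Continuous fun q : ESU2 × ESU2 => q.1.1 := continuous_subtype_val.comp continuous_fst
  have h2 : Continuous fun q : ESU2 × ESU2 => q.2.1 := continuous_subtype_val.comp continuous_snd
  exact (h2.fst.inner h1.snd).sub (h1.fst.inner h2.snd)

theorem continuous_qn : Continuous fun q : ESU2 × ESU2 => qn q.1 q.2 :=
  (Complex.continuous_normSq.comp continuous_pa).add (Complex.continuous_normSq.comp continuous_pb)

theorem continuous_smul_su2 : Continuous fun q : SU2 × ESU2 => q.1 • q.2 := by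
  refine Continuous.subtype_mk ?_ _
  have h1 : Continuous fun q : SU2 × ESU2 => q.2.1 := continuous_subtype_val.comp continuous_snd
  have h2 : ∀ i j, Continuous fun q : SU2 × ESU2 => q.1.1 i j := fun i j =>
    (continuous_subtype_val.comp continuous_fst).matrix_elem i j
  exact (((h2 0 0).smul h1.fst).add ((h2 0 1).smul h1.snd)).prodMk
    (((h2 1 0).smul h1.fst).add ((h2 1 1).smul h1.snd))

instance : ContinuousConstSMul SU2 ESU2 :=
  ⟨fun A => continuous_smul_su2.comp (Continuous.prodMk_right A)⟩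

theorem continuous_mk2 {X : Type*} [TopologicalSpace X] {f g : X → ℂ}
    (h : ∀ x, Complex.normSq (f x) + Complex.normSq (g x) = 1) (hf : Continuous f)
    (hg : Continuous g) : Continuous fun x => mk2 (f x) (g x) (h x) := by
  refine Continuous.subtype_mk ?_ _
  refine continuous_matrix fun i j => ?_
  fin_cases i <;> fin_cases j
  · exact hf
  · exact (Complex.continuous_conj.comp hg).neg
  · exact hg
  · exact Complex.continuous_conj.comp hf

theorem continuous_lift0 : ContinuousOn (fun q : ESU2 × ESU2 => lift0 q.1 q.2)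
    {q | qn q.1 q.2 ≠ 0} := by
  rw [continuousOn_iff_continuous_domRestrict]
  have h1 : Continuous fun q : {q : ESU2 × ESU2 | qn q.1 q.2 ≠ 0} => nr q.1.1 q.1.2 q.2 := by
    have hs : Continuous fun q : {q : ESU2 × ESU2 | qn q.1 q.2 ≠ 0} =>
        ((Real.sqrt (qn q.1.1 q.1.2) : ℝ) : ℂ) :=
      Complex.continuous_ofReal.comp (Real.continuous_sqrt.comp
        (continuous_qn.comp continuous_subtype_val))
    have hs0 : ∀ q : {q : ESU2 × ESU2 | qn q.1 q.2 ≠ 0},
        ((Real.sqrt (qn q.1.1 q.1.2) : ℝ) : ℂ) ≠ 0 := by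
      intro q
      have h2 : 0 < qn q.1.1 q.1.2 := lt_of_le_of_ne (qn_nonneg _ _) (Ne.symm q.2)
      exact_mod_cast (Real.sqrt_pos.2 h2).ne'
    exact continuous_mk2 _ ((continuous_pa.comp continuous_subtype_val).div hs hs0)
      ((continuous_pb.comp continuous_subtype_val).div hs hs0)
  have h2 : Continuous fun A : SU2 => A⁻¹ := by
    refine Continuous.subtype_mk ?_ _
    exact continuous_subtype_val.matrix_conjTranspose
  have h3 : Continuous fun q : {q : ESU2 × ESU2 | qn q.1 q.2 ≠ 0} =>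
      (nr q.1.1 q.1.2 q.2)⁻¹ • q.1.1 :=
    continuous_smul_su2.comp ((h2.comp h1).prodMk (continuous_fst.comp continuous_subtype_val))
  refine h3.congr fun q => ?_
  have hq : qn q.1.1 q.1.2 ≠ 0 := q.2
  simp only [Set.domRestrict_apply, lift0]
  rw [dif_pos hq]

end Pool.Agent.Lib.MP_7ef860_gt
end
end

section

/-!
# The Borsuk-Ulam theorem for `ℤ/p`
-/

namespace Pool.Agent.Lib.MP_7ef860_gt

open Finsupp

section gap

variable {p : ℕ} [Fact p.Prime]

/-- `A` is a superlevel set of `a` separated from its complement by a gap `δ`. -/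
def Gap (δ : ℝ) (a : ZMod p → ℝ) (A : Finset (ZMod p)) : Prop :=
  A.Nonempty ∧ A ≠ Finset.univ ∧ ∀ u ∈ A, ∀ w ∉ A, a w + δ ≤ a u

theorem exists_gap {c δ : ℝ} (hδ : 0 < δ) (hc : p * δ ≤ c) {a : ZMod p → ℝ} {j j' : ZMod p}
    (h : c ≤ a j - a j') : ∃ A, Gap δ a A := by
  classical
  obtain ⟨w₀, -, hw₀⟩ := Finset.exists_min_image (Finset.univ : Finset (ZMod p)) a ⟨0, by simp⟩
  have hmin : ∀ w, a w₀ ≤ a w := fun w => hw₀ w (Finset.mem_univ w)
  by_contra hcon
  push Not at hcon
  have key : ∀ k : Fin p, ∃ u : ZMod p, a w₀ + k * δ < a u ∧ a u < a w₀ + (k + 1) * δ := by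
    intro k
    by_contra hk
    push Not at hk
    apply hcon (Finset.univ.filter fun u => a w₀ + (k + 1) * δ ≤ a u)
    have hkp : ((k : ℕ) : ℝ) + 1 ≤ p := by exact_mod_cast k.2
    refine ⟨⟨j, ?_⟩, ?_, ?_⟩
    · rw [Finset.mem_filter]
      refine ⟨Finset.mem_univ _, ?_⟩
      have h1 := hmin j'
      have h2 : ((k : ℕ) + 1 : ℝ) * δ ≤ p * δ := by gcongr
      linarith
    · intro hU
      have h1 : w₀ ∈ Finset.univ.filter fun u => a w₀ + (k + 1) * δ ≤ a u := by
        rw [hU]; exact Finset.mem_univ _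
      rw [Finset.mem_filter] at h1
      have h2 : (0 : ℝ) < ((k : ℕ) + 1) * δ := by positivity
      linarith [h1.2]
    · intro u hu w hw
      rw [Finset.mem_filter] at hu hw
      have h1 : a w < a w₀ + (k + 1) * δ := by
        by_contra h2
        exact hw ⟨Finset.mem_univ _, not_lt.1 h2⟩
      have h2 : a w ≤ a w₀ + k * δ := by
        by_contra h3
        exact absurd (hk w (not_le.1 h3)) (not_le.2 h1)
      have h3 := hu.2
      linarith
  choose u hu1 hu2 using key
  have hinj : Function.Injective u := by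
    intro k k' hkk
    by_contra hne
    have h1 := hu1 k
    have h2 := hu2 k
    have h3 := hu1 k'
    have h4 := hu2 k'
    rw [hkk] at h1 h2
    rcases lt_or_gt_of_ne (fun h => hne (Fin.ext h) : (k : ℕ) ≠ k') with hlt | hlt
    · have h5 : ((k : ℕ) : ℝ) + 1 ≤ (k' : ℕ) := by exact_mod_cast hlt
      have h6 : (((k : ℕ) : ℝ) + 1) * δ ≤ (k' : ℕ) * δ := by gcongr
      linarith
    · have h5 : ((k' : ℕ) : ℝ) + 1 ≤ (k : ℕ) := by exact_mod_cast hlt
      have h6 : (((k' : ℕ) : ℝ) + 1) * δ ≤ (k : ℕ) * δ := by gcongr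
      linarith
  have hbij : Function.Bijective u :=
    (Fintype.bijective_iff_injective_and_card u).2 ⟨hinj, by simp [ZMod.card]⟩
  obtain ⟨k, hk⟩ := hbij.2 w₀
  have h1 := hu1 k
  rw [hk] at h1
  have h2 : (0 : ℝ) ≤ (k : ℕ) * δ := by positivity
  linarith

theorem gap_unique {δ : ℝ} {a a' : ZMod p → ℝ} {A A' : Finset (ZMod p)} (h : Gap δ a A)
    (h' : Gap δ a' A') (hcard : A.card = A'.card) (hclose : ∀ j, |a j - a' j| < δ) : A = A' := by
  by_contra hne
  have h1 : ¬ A ⊆ A' := fun hsub => hne (Finset.eq_of_subset_of_card_le hsub hcard.ge)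
  have h2 : ¬ A' ⊆ A := fun hsub => hne (Finset.eq_of_subset_of_card_le hsub hcard.le).symm
  rw [Finset.not_subset] at h1 h2
  obtain ⟨u, hu, hu'⟩ := h1
  obtain ⟨w, hw, hw'⟩ := h2
  have h3 := h.2.2 u hu w hw'
  have h4 := h'.2.2 w hw u hu'
  have h5 := (abs_lt.1 (hclose u)).2
  have h6 := (abs_lt.1 (hclose w)).1
  linarith

theorem gap_shift {δ : ℝ} {a : ZMod p → ℝ} {A : Finset (ZMod p)} (t : ZMod p) (h : Gap δ a A) :
    Gap δ (fun j => a (j - t)) (A.map (Equiv.addRight t).toEmbedding) := by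
  obtain ⟨h1, h2, h3⟩ := h
  refine ⟨by simpa using h1, ?_, ?_⟩
  · intro hU
    apply h2
    rw [Finset.eq_univ_iff_forall] at hU ⊢
    intro x
    have := hU (x + t)
    simpa using this
  · intro u hu w hw
    rw [Finset.mem_map] at hu
    obtain ⟨u', hu', rfl⟩ := hu
    have hw' : w - t ∉ A := by
      intro h4
      apply hw
      rw [Finset.mem_map]
      exact ⟨w - t, h4, by simp⟩
    have := h3 u' hu' (w - t) hw'
    simpa using this

theorem exists_notMem_of_ne_univ {A : Finset (ZMod p)} (h : A ≠ Finset.univ) : ∃ y, y ∉ A := by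
  by_contra hcon
  push Not at hcon
  exact h (Finset.eq_univ_iff_forall.2 hcon)

/-- the colour of a proper nonempty subset of `ℤ/p` -/
noncomputable def col (A : Finset (ZMod p)) : ZMod p := (A.card : ZMod p)⁻¹ * ∑ j ∈ A, j

theorem col_shift {A : Finset (ZMod p)} (h1 : A.Nonempty) (h2 : A ≠ Finset.univ) :
    col (A.map (Equiv.addRight 1).toEmbedding) = col A + 1 := by
  have hc : (A.card : ZMod p) ≠ 0 := by
    rw [Ne, ZMod.natCast_eq_zero_iff]
    intro hdvd
    have h3 := Nat.le_of_dvd (Finset.card_pos.2 h1) hdvd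
    have h4 : A.card < p := by
      obtain ⟨y, hy⟩ := exists_notMem_of_ne_univ h2
      have := Finset.card_lt_univ_of_notMem hy
      rwa [ZMod.card] at this
    omega
  unfold col
  rw [Finset.card_map, Finset.sum_map]
  simp only [Equiv.toEmbedding_apply, Equiv.coe_addRight]
  rw [Finset.sum_add_distrib, Finset.sum_const, nsmul_eq_mul, mul_one, mul_add,
    inv_mul_cancel₀ hc]

end gap

section core

variable {E : Type*} [NormedAddCommGroup E] [NormedSpace ℝ E] {p : ℕ} [Fact p.Prime]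

/-- Core of the Borsuk-Ulam theorem for `ℤ/p`. -/
theorem bu_core (g : E →ₗ[ℝ] E) (hg : (g : E → E)^[p] = id) (v : ℕ → E) (d : ℕ) (X : Set E)
    (hX : IsCompact X) (hgX : ∀ x ∈ X, g x ∈ X)
    (hv : ∀ j : ℕ → ℕ, convexHull ℝ {x | ∃ i ≤ d * p, x = (g : E → E)^[j i] (v i)} ⊆ X)
    (F : E → Fin d → ZMod p → ℝ) (hF : ContinuousOn F X)
    (hFg : ∀ x ∈ X, ∀ i j, F (g x) i j = F x i (j - 1))
    (hne : ∀ x ∈ X, ∃ i j j', F x i j ≠ F x i j') : False := by
  classical
  have hp : p.Prime := Fact.out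
  have hX0 : X.Nonempty := ⟨v 0, hv (fun _ => 0) (subset_convexHull ℝ _ ⟨0, by omega, rfl⟩)⟩
  -- a uniform lower bound
  obtain ⟨c, hc0, hc⟩ : ∃ c > 0, ∀ x ∈ X, ∃ i j j', c ≤ F x i j - F x i j' := by
    let φ : E → ℝ := fun x => ∑ i, ∑ j, ∑ j', |F x i j - F x i j'|
    have hφ : ContinuousOn φ X := by
      refine continuousOn_finsetSum _ fun i _ => continuousOn_finsetSum _ fun j _ =>
        continuousOn_finsetSum _ fun j' _ => ?_
      have h1 : ∀ j, ContinuousOn (fun x => F x i j) X := fun j =>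
        continuousOn_pi.1 (continuousOn_pi.1 hF i) j
      exact ((h1 j).sub (h1 j')).abs
    have hφpos : ∀ x ∈ X, 0 < φ x := by
      intro x hx
      obtain ⟨i, j, j', h⟩ := hne x hx
      have h1 : 0 < |F x i j - F x i j'| := abs_pos.2 (sub_ne_zero.2 h)
      have h2 : |F x i j - F x i j'| ≤ ∑ j', |F x i j - F x i j'| :=
        Finset.single_le_sum (f := fun j' => |F x i j - F x i j'|) (fun _ _ => abs_nonneg _)
          (Finset.mem_univ j')
      have h3 : ∑ j', |F x i j - F x i j'| ≤ ∑ j, ∑ j', |F x i j - F x i j'| :=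
        Finset.single_le_sum (f := fun j => ∑ j', |F x i j - F x i j'|)
          (fun _ _ => Finset.sum_nonneg fun _ _ => abs_nonneg _) (Finset.mem_univ j)
      have h4 : ∑ j, ∑ j', |F x i j - F x i j'| ≤ φ x :=
        Finset.single_le_sum (f := fun i => ∑ j, ∑ j', |F x i j - F x i j'|)
          (fun _ _ => Finset.sum_nonneg fun _ _ => Finset.sum_nonneg fun _ _ => abs_nonneg _)
          (Finset.mem_univ i)
      linarith
    obtain ⟨x₀, hx₀, hmin⟩ := hX.exists_isMinOn hX0 hφ
    have hd : 0 < d := by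
      obtain ⟨i, _⟩ := hne x₀ hx₀
      exact lt_of_le_of_lt (Nat.zero_le _) i.2
    have hdp : (0 : ℝ) < d * (p * p) := by
      have := hp.pos
      positivity
    refine ⟨φ x₀ / (d * (p * p)), div_pos (hφpos x₀ hx₀) hdp, ?_⟩
    intro x hx
    by_contra hcon
    push Not at hcon
    have h1 : ∀ i j j', |F x i j - F x i j'| < φ x₀ / (d * (p * p)) := by
      intro i j j'
      rw [abs_lt]
      constructor
      · have := hcon i j' j
        linarith
      · exact hcon i j j'
    have h2 : φ x < ∑ _i : Fin d, ∑ _j : ZMod p, ∑ _j' : ZMod p, φ x₀ / (d * (p * p)) := by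
      refine Finset.sum_lt_sum_of_nonempty ⟨⟨0, hd⟩, Finset.mem_univ _⟩ fun i _ => ?_
      refine Finset.sum_lt_sum_of_nonempty ⟨0, Finset.mem_univ _⟩ fun j _ => ?_
      exact Finset.sum_lt_sum_of_nonempty ⟨0, Finset.mem_univ _⟩ fun j' _ => h1 i j j'
    have h3 : ∑ _i : Fin d, ∑ _j : ZMod p, ∑ _j' : ZMod p, φ x₀ / (d * (p * p)) = φ x₀ := by
      simp only [Finset.sum_const, Finset.card_univ, ZMod.card, Fintype.card_fin, nsmul_eq_mul]
      have h4 : (d : ℝ) ≠ 0 := by exact_mod_cast hd.ne'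
      have h5 : (p : ℝ) ≠ 0 := by exact_mod_cast hp.pos.ne'
      field_simp
    have h4 := hmin hx
    rw [h3] at h2
    simp only [Set.mem_ofPred_eq] at h4
    linarith
  set δ : ℝ := c / p with hδdef
  have hpR : (0 : ℝ) < p := by exact_mod_cast hp.pos
  have hδ : 0 < δ := div_pos hc0 hpR
  have hpδ : p * δ ≤ c := le_of_eq (by rw [hδdef]; field_simp)
  -- the label
  let S : E → Set (Fin d × Fin p) := fun x =>
    {q | ∃ A : Finset (ZMod p), A.card = (q.2 : ℕ) ∧ Gap δ (F x q.1) A}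
  have hSne : ∀ x ∈ X, (S x).Nonempty := by
    intro x hx
    obtain ⟨i, j, j', h⟩ := hc x hx
    obtain ⟨A, hA⟩ := exists_gap hδ hpδ h
    have h1 : A.card < p := by
      obtain ⟨y, hy⟩ := exists_notMem_of_ne_univ hA.2.1
      have := Finset.card_lt_univ_of_notMem hy
      rwa [ZMod.card] at this
    exact ⟨(i, ⟨A.card, h1⟩), A, rfl, hA⟩
  have hFg' : ∀ x ∈ X, ∀ i, F (g x) i = fun j => F x i (j - 1) := by
    intro x hx i
    funext j
    exact hFg x hx i j
  have hSg : ∀ x ∈ X, S (g x) = S x := by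
    intro x hx
    ext q
    constructor
    · rintro ⟨A, hA1, hA2⟩
      rw [hFg' x hx] at hA2
      have h1 := gap_shift (-1) hA2
      refine ⟨A.map (Equiv.addRight (-1)).toEmbedding, by rw [Finset.card_map, hA1], ?_⟩
      simpa using h1
    · rintro ⟨A, hA1, hA2⟩
      refine ⟨A.map (Equiv.addRight 1).toEmbedding, by rw [Finset.card_map, hA1], ?_⟩
      rw [hFg' x hx]
      exact gap_shift 1 hA2
  let pick : Set (Fin d × Fin p) → Option (Fin d × Fin p) := fun T =>
    if h : T.Nonempty then some h.choose else none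
  have hpick : ∀ T : Set (Fin d × Fin p), T.Nonempty → ∃ q ∈ T, pick T = some q := by
    intro T hT
    exact ⟨hT.choose, hT.choose_spec, dif_pos hT⟩
  obtain ⟨i₀, -⟩ := hne _ hX0.some_mem
  let idx : E → Fin d × Fin p := fun x => (pick (S x)).getD (i₀, ⟨0, hp.pos⟩)
  have hidx : ∀ x ∈ X, idx x ∈ S x := by
    intro x hx
    obtain ⟨q, hq, hq2⟩ := hpick (S x) (hSne x hx)
    simp only [idx, hq2, Option.getD_some]
    exact hq
  have hidxg : ∀ x ∈ X, idx (g x) = idx x := by
    intro x hx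
    simp only [idx, hSg x hx]
  let sel : E → Finset (ZMod p) := fun x => if h : ∃ A : Finset (ZMod p),
    A.card = ((idx x).2 : ℕ) ∧ Gap δ (F x (idx x).1) A then h.choose else ∅
  have hsel : ∀ x ∈ X, (sel x).card = ((idx x).2 : ℕ) ∧ Gap δ (F x (idx x).1) (sel x) := by
    intro x hx
    have h : ∃ A : Finset (ZMod p), A.card = ((idx x).2 : ℕ) ∧ Gap δ (F x (idx x).1) A :=
      hidx x hx
    simp only [sel, dif_pos h]
    exact h.choose_spec
  have hselg : ∀ x ∈ X, sel (g x) = (sel x).map (Equiv.addRight 1).toEmbedding := by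
    intro x hx
    obtain ⟨h1, h2⟩ := hsel (g x) (hgX x hx)
    obtain ⟨h3, h4⟩ := hsel x hx
    rw [hidxg x hx] at h1 h2
    rw [hFg' x hx] at h2
    refine gap_unique h2 (gap_shift 1 h4) ?_ ?_
    · rw [Finset.card_map, h1, h3]
    · intro j
      rw [sub_self, abs_zero]
      exact hδ
  let lam : E → ZMod p × Fin (d * p) := fun x => (col (sel x), finProdFinEquiv (idx x))
  have hlam : ∀ x ∈ X, lam (g x) = ((lam x).1 + 1, (lam x).2) := by
    intro x hx
    obtain ⟨h3, h4⟩ := hsel x hx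
    simp only [lam, hidxg x hx, hselg x hx, col_shift h4.1 h4.2.1]
  -- closeness
  obtain ⟨ε, hε, hclose⟩ : ∃ ε > 0, ∀ x ∈ X, ∀ y ∈ X, dist x y < ε →
      ∀ i j, |F x i j - F y i j| < δ := by
    have hu := hX.uniformContinuousOn_of_continuous hF
    rw [Metric.uniformContinuousOn_iff] at hu
    obtain ⟨ε, hε, h⟩ := hu δ hδ
    refine ⟨ε, hε, fun x hx y hy hxy i j => ?_⟩
    have h1 := h x hx y hy hxy
    have h2 : dist (F x i j) (F y i j) ≤ dist (F x) (F y) :=
      (dist_le_pi_dist (F x i) (F y i) j).trans (dist_le_pi_dist (F x) (F y) i)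
    rw [Real.dist_eq] at h2
    linarith
  have hlamclose : ∀ x ∈ X, ∀ y ∈ X, dist x y < ε → (lam x).2 = (lam y).2 →
      (lam x).1 = (lam y).1 := by
    intro x hx y hy hxy h
    have hi : idx x = idx y := finProdFinEquiv.injective h
    obtain ⟨h1, h2⟩ := hsel x hx
    obtain ⟨h3, h4⟩ := hsel y hy
    rw [hi] at h1 h2
    have : sel x = sel y := gap_unique h2 h4 (h1.trans h3.symm) (fun j => hclose x hx y hy hxy _ j)
    simp only [lam, this]
  -- the chains
  obtain ⟨D, hD⟩ := hX.isBounded.exists_norm_le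
  let m : ℕ := d * p
  have hcc : ∀ n ≤ m, cc p g v n ∈
      supported (ZMod p) (ZMod p) (SmallSet X (n + 1) (2 * D)) := by
    intro n hn
    refine Finsupp.supported_mono ?_ (cc_mem p v n)
    rintro l ⟨h1, j, hj⟩
    have hsub : ent l ⊆ {x | ∃ i ≤ d * p, x = (g : E → E)^[j i] (v i)} := by
      intro x hx
      obtain ⟨i, hi, h⟩ := hj x hx
      exact ⟨i, hi.trans hn, h⟩
    have hXl : ∀ x ∈ l, x ∈ X := fun x hx => hv j (subset_convexHull ℝ _ (hsub hx))
    refine ⟨h1, (convexHull_mono hsub).trans (hv j), ?_⟩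
    intro x hx y hy
    have h3 := hD x (hXl x hx)
    have h4 := hD y (hXl y hy)
    rw [dist_eq_norm]
    have := norm_sub_le x y
    linarith
  have hD0 : 0 ≤ D := by
    obtain ⟨x, hx⟩ := hX0
    exact (norm_nonneg x).trans (hD x hx)
  obtain ⟨r, hr⟩ : ∃ r : ℕ, (1 - 1 / ((m : ℝ) + 1)) ^ r * (2 * D) < ε := by
    have h1 : Filter.Tendsto (fun r : ℕ => (1 - 1 / ((m : ℝ) + 1)) ^ r * (2 * D)) Filter.atTop
        (nhds (0 * (2 * D))) := by
      refine Filter.Tendsto.mul_const _ (tendsto_pow_atTop_nhds_zero_of_lt_one ?_ ?_)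
      · rw [sub_nonneg, div_le_one (by positivity)]
        have : (0 : ℝ) ≤ m := by positivity
        linarith
      · have : (0 : ℝ) < 1 / ((m : ℝ) + 1) := by positivity
        linarith
    rw [zero_mul] at h1
    exact (h1.eventually_lt_const hε).exists
  have hg' : (fun x => g x)^[p] = id := hg
  refine label_bound (m := m) hp.one_lt (g : E → E) X lam hlam
    (fun n => ((bsd p) ^ r) (cc p g v n)) ?_ hgX ?_ ?_ ?_
  · intro n hn
    refine Finsupp.supported_mono ?_ (bsd_pow_small p (hcc n hn) r)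
    rintro l ⟨h1, h2, h3⟩
    have hlX : ∀ x ∈ l, x ∈ X := fun x hx => h2 (subset_convexHull ℝ _ hx)
    refine ⟨h1, hlX, ?_⟩
    intro x hx y hy h
    refine hlamclose x (hlX x hx) y (hlX y hy) ?_ h
    refine lt_of_le_of_lt (h3 x hx y hy) (lt_of_le_of_lt ?_ hr)
    have h4 : ((n + 1 : ℕ) : ℝ) ≤ (m : ℝ) + 1 := by
      exact_mod_cast Nat.succ_le_succ hn
    have h5 : (1 : ℝ) ≤ ((n + 1 : ℕ) : ℝ) := by
      exact_mod_cast Nat.succ_le_succ (Nat.zero_le n)
    have h6 : 0 ≤ 1 - 1 / ((n + 1 : ℕ) : ℝ) := by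
      rw [sub_nonneg, div_le_one (by linarith)]
      exact h5
    have h7 : 1 / ((m : ℝ) + 1) ≤ 1 / ((n + 1 : ℕ) : ℝ) := by
      apply one_div_le_one_div_of_le (by linarith) h4
    gcongr
  · intro n _ he
    show bdry (ZMod p) (((bsd p) ^ r) (cc p g v (n + 1))) = _
    rw [bsd_pow_bdry, bdry_cc p v hg n, if_pos he, bsd_pow_nrm]
  · intro n _ he
    show bdry (ZMod p) (((bsd p) ^ r) (cc p g v (n + 1))) = _
    rw [bsd_pow_bdry, bdry_cc p v hg n, if_neg he, map_sub, bsd_pow_mp]
  · show bdry (ZMod p) (((bsd p) ^ r) (cc p g v 0)) = _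
    rw [bsd_pow_bdry, bdry_cc_zero, bsd_pow_nil]

end core

end Pool.Agent.Lib.MP_7ef860_gt
end

section

/-!
# The covering homotopy property of `ESU2 → BSU2` over compact metric spaces
-/

open Matrix ComplexConjugate
open scoped Manifold ContDiff Topology unitInterval

noncomputable section

namespace Pool.Agent.Lib.MP_7ef860_gt

theorem isOpenQuotientMap_toB : IsOpenQuotientMap toB :=
  MulAction.isOpenQuotientMap_quotientMk (Γ := SU2) (T := ESU2)

/-- the point over `b` closest to `u` -/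
def liftB (b : BSU2) (u : ESU2) : ESU2 :=
  Quotient.lift (fun x => lift0 x u) (by
    rintro a b ⟨z, rfl⟩
    exact lift0_smul_left z b u) b

theorem liftB_toB (x u : ESU2) : liftB (toB x) u = lift0 x u := rfl

theorem liftB_smul (A : SU2) (b : BSU2) (u : ESU2) : liftB b (A • u) = A • liftB b u := by
  obtain ⟨x, rfl⟩ := isOpenQuotientMap_toB.surjective b
  rw [liftB_toB, liftB_toB, lift0_smul_right]

/-- the norm of the pairing on `BSU2` -/
def qnB (b b' : BSU2) : ℝ :=
  Quotient.liftOn₂ b b' (fun x u => qn x u) (by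
    rintro a b a' b' ⟨z, rfl⟩ ⟨w, rfl⟩
    show qn (z • a') (w • b') = qn a' b'
    rw [qn_smul_left, qn_smul_right])

theorem qnB_toB (x u : ESU2) : qnB (toB x) (toB u) = qn x u := rfl

theorem continuous_qnB : Continuous fun q : BSU2 × BSU2 => qnB q.1 q.2 := by
  rw [(isOpenQuotientMap_toB.prodMap isOpenQuotientMap_toB).isQuotientMap.continuous_iff]
  exact continuous_qn

theorem qnB_self (b : BSU2) : qnB b b = 1 := by
  obtain ⟨x, rfl⟩ := isOpenQuotientMap_toB.surjective b
  rw [qnB_toB, qn_self]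

theorem continuousAt_liftB {b : BSU2} {u : ESU2} (h : qnB b (toB u) ≠ 0) :
    ContinuousAt (fun q : BSU2 × ESU2 => liftB q.1 q.2) (b, u) := by
  obtain ⟨x, rfl⟩ := isOpenQuotientMap_toB.surjective b
  rw [qnB_toB] at h
  have h1 : ContinuousAt (fun q : ESU2 × ESU2 => lift0 q.1 q.2) (x, u) := by
    refine continuous_lift0.continuousAt (IsOpen.mem_nhds ?_ h)
    exact isOpen_ne_fun continuous_qn continuous_const
  exact ((isOpenQuotientMap_toB.prodMap IsOpenQuotientMap.id).continuousAt_comp_iff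
    (g := fun q : BSU2 × ESU2 => liftB q.1 q.2) (x := (x, u))).1 h1

theorem toB_liftB {b : BSU2} {u : ESU2} (h : qnB b (toB u) ≠ 0) : toB (liftB b u) = b := by
  obtain ⟨x, rfl⟩ := isOpenQuotientMap_toB.surjective b
  rw [qnB_toB] at h
  rw [liftB_toB, toB_lift0 h]

theorem exists_lift {X : Type*} [MetricSpace X] [CompactSpace X] (K : X × I → BSU2)
    (hK : Continuous K) (γ : X → X) (hγ : ∀ x t, K (γ x, t) = K (x, t)) (A : SU2)
    (Φ₀ : X → ESU2) (h0 : Continuous Φ₀) (h0' : ∀ x, toB (Φ₀ x) = K (x, 0))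
    (hA : ∀ x, Φ₀ (γ x) = A • Φ₀ x) :
    ∃ Φ : X → ESU2, Continuous Φ ∧ (∀ x, toB (Φ x) = K (x, 1)) ∧ ∀ x, Φ (γ x) = A • Φ x := by
  have h1 : Continuous fun q : X × I × I => qnB (K (q.1, q.2.1)) (K (q.1, q.2.2)) := by
    refine continuous_qnB.comp ((hK.comp ?_).prodMk (hK.comp ?_))
    · exact continuous_fst.prodMk (continuous_fst.comp continuous_snd)
    · exact continuous_fst.prodMk (continuous_snd.comp continuous_snd)
  have h2 := CompactSpace.uniformContinuous_of_continuous h1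
  rw [Metric.uniformContinuous_iff] at h2
  obtain ⟨δ, hδ, h3⟩ := h2 1 one_pos
  obtain ⟨n, hn⟩ := exists_nat_one_div_lt hδ
  let τ : ℕ → I := fun j => Set.projIcc (0 : ℝ) 1 zero_le_one ((j : ℝ) / ((n : ℝ) + 1))
  have hτ0 : τ 0 = 0 := by
    simp [τ]
  have hn0 : (0 : ℝ) < (n : ℝ) + 1 := by positivity
  have hτ1 : τ (n + 1) = 1 := by
    simp only [τ]
    rw [show (((n + 1 : ℕ) : ℝ) / ((n : ℝ) + 1)) = 1 by
      push_cast
      exact div_self hn0.ne']
    simp
  have hτ : ∀ j, dist (τ (j + 1)) (τ j) < δ := by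
    intro j
    rw [Subtype.dist_eq, Real.dist_eq]
    refine lt_of_le_of_lt (Set.abs_projIcc_sub_projIcc _) ?_
    rw [show (((j + 1 : ℕ) : ℝ) / ((n : ℝ) + 1)) - (j : ℝ) / ((n : ℝ) + 1) = 1 / ((n : ℝ) + 1) by
      push_cast
      ring]
    rwa [abs_of_pos (by positivity)]
  have hq : ∀ j x, qnB (K (x, τ (j + 1))) (K (x, τ j)) ≠ 0 := by
    intro j x h
    have h4 := @h3 (x, τ (j + 1), τ j) (x, τ j, τ j) (by
      rw [Prod.dist_eq, Prod.dist_eq]
      simp only [dist_self]
      rw [max_lt_iff, max_lt_iff]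
      exact ⟨hδ, hτ j, hδ⟩)
    simp only [h, qnB_self] at h4
    rw [Real.dist_eq] at h4
    norm_num at h4
  have key : ∀ j, ∃ Φ : X → ESU2, Continuous Φ ∧ (∀ x, toB (Φ x) = K (x, τ j)) ∧
      ∀ x, Φ (γ x) = A • Φ x := by
    intro j
    induction j with
    | zero => exact ⟨Φ₀, h0, by rwa [hτ0], hA⟩
    | succ j ih =>
      obtain ⟨Φ, hΦ1, hΦ2, hΦ3⟩ := ih
      have hq' : ∀ x, qnB (K (x, τ (j + 1))) (toB (Φ x)) ≠ 0 := by
        intro x
        rw [hΦ2]
        exact hq j x
      refine ⟨fun x => liftB (K (x, τ (j + 1))) (Φ x), ?_, ?_, ?_⟩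
      · rw [continuous_iff_continuousAt]
        intro x
        have h4 : Continuous fun x => (K (x, τ (j + 1)), Φ x) :=
          (hK.comp (Continuous.prodMk_left _)).prodMk hΦ1
        exact ContinuousAt.comp (f := fun x => (K (x, τ (j + 1)), Φ x))
          (g := fun q : BSU2 × ESU2 => liftB q.1 q.2) (continuousAt_liftB (hq' x)) h4.continuousAt
      · intro x
        exact toB_liftB (hq' x)
      · intro x
        show liftB (K (γ x, τ (j + 1))) (Φ (γ x)) = A • liftB (K (x, τ (j + 1))) (Φ x)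
        rw [hγ, hΦ3, liftB_smul]
  have := key (n + 1)
  rwa [hτ1] at this

end Pool.Agent.Lib.MP_7ef860_gt
end
end

section

/-!
# The Borsuk-Ulam theorem for `ℤ/p` (infinite-dimensional source)

Let `g` be a linear operator with `g ^ p = 1` on a real normed space `E`, and assume that there are
vectors `v 0, v 1, ...` such that `0` is in no convex hull of `{g ^ (j i) (v i) | i}` (this holds
for instance if `g` is multiplication by a primitive `p`-th root of unity and `v` is linearly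
independent over `ℂ`, `p` odd).  Then there is no continuous map `f : E \ {0} → U \ {0}` with
`f (g x) = T (f x)`, for `T` a linear operator of order dividing `p` without nonzero fixed vector on a
finite-dimensional space `U`.
-/

namespace Pool.Agent.Lib.MP_7ef860_gt

variable {E : Type*} [NormedAddCommGroup E] [NormedSpace ℝ E] {p : ℕ} [Fact p.Prime]

omit [Fact p.Prime] in
theorem iterate_mod {α : Type*} {g : α → α} (hg : g^[p] = id) (n : ℕ) : g^[n % p] = g^[n] := by
  conv_rhs => rw [← Nat.mod_add_div n p, Function.iterate_add, Function.iterate_mul, hg,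
    Function.iterate_id, Function.comp_id]

theorem iterate_val_add_one {α : Type*} {g : α → α} (hg : g^[p] = id) (a : ZMod p) :
    g^[(a + 1).val] = g^[a.val + 1] := by
  have hp : p.Prime := Fact.out
  have : Fact (1 < p) := ⟨hp.one_lt⟩
  rw [ZMod.val_add, ZMod.val_one, iterate_mod hg]

theorem borsuk_ulam (g : E →ₗ[ℝ] E) (hg : (g : E → E)^[p] = id) (v : ℕ → E)
    (hv : ∀ j : ℕ → ℕ, (0 : E) ∉ convexHull ℝ (Set.range fun i => (g : E → E)^[j i] (v i)))
    {U : Type*} [NormedAddCommGroup U] [NormedSpace ℝ U] [FiniteDimensional ℝ U]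
    (T : U →ₗ[ℝ] U) (hT : (T : U → U)^[p] = id) (hfix : ∀ u, T u = u → u = 0)
    (f : E → U) (hf : ContinuousOn f {0}ᶜ) (hfg : ∀ x, x ≠ 0 → f (g x) = T (f x))
    (hne : ∀ x, x ≠ 0 → f x ≠ 0) : False := by
  classical
  have hp : p.Prime := Fact.out
  set d : ℕ := Module.finrank ℝ U with hd
  let b := Module.finBasis ℝ U
  let X : Set E := ⋃ j : Fin (d * p + 1) → Fin p,
    convexHull ℝ (Set.range fun i : Fin (d * p + 1) => (g : E → E)^[(j i : ℕ)] (v i))
  have hsub : ∀ j : ℕ → ℕ, convexHull ℝ {x | ∃ i ≤ d * p, x = (g : E → E)^[j i] (v i)} ⊆ X := by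
    intro j
    refine Set.subset_iUnion_of_subset (fun i => ⟨j i % p, Nat.mod_lt _ hp.pos⟩) ?_
    apply convexHull_mono
    rintro x ⟨i, hi, rfl⟩
    refine ⟨⟨i, by omega⟩, ?_⟩
    simp only [iterate_mod hg]
  have hX0 : ∀ x ∈ X, x ≠ 0 := by
    intro x hx h0
    obtain ⟨j, hj⟩ := Set.mem_iUnion.1 hx
    subst h0
    refine hv (fun i => if h : i < d * p + 1 then (j ⟨i, h⟩ : ℕ) else 0) ?_
    refine convexHull_mono ?_ hj
    rintro x ⟨i, rfl⟩
    refine ⟨i, ?_⟩
    have hi : (i : ℕ) < d * p + 1 := i.2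
    simp only [dif_pos hi]
  refine bu_core g hg v d X ?_ ?_ hsub (fun x i j => b.coord i ((T : U → U)^[(-j).val] (f x)))
    ?_ ?_ ?_
  · refine isCompact_iUnion fun j => ?_
    exact (Set.finite_range _).isCompact_convexHull (𝕜 := ℝ)
  · intro x hx
    obtain ⟨j, hj⟩ := Set.mem_iUnion.1 hx
    have h1 : g x ∈ g '' convexHull ℝ
        (Set.range fun i : Fin (d * p + 1) => (g : E → E)^[(j i : ℕ)] (v i)) := ⟨x, hj, rfl⟩
    rw [LinearMap.image_convexHull] at h1
    refine Set.mem_iUnion.2 ⟨fun i => ⟨((j i : ℕ) + 1) % p, Nat.mod_lt _ hp.pos⟩, ?_⟩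
    refine convexHull_mono ?_ h1
    rintro y ⟨z, ⟨i, rfl⟩, rfl⟩
    refine ⟨i, ?_⟩
    simp only [iterate_mod hg, Function.iterate_succ_apply']
  · refine continuousOn_pi.2 fun i => continuousOn_pi.2 fun j => ?_
    have h1 : Continuous fun u : U => b.coord i ((T : U → U)^[(-j).val] u) := by
      have h2 : Continuous (T : U → U) := T.continuous_of_finiteDimensional
      have h3 : Continuous (b.coord i : U → ℝ) := (b.coord i).continuous_of_finiteDimensional
      exact h3.comp (h2.iterate _)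
    exact h1.comp_continuousOn (hf.mono fun x hx => hX0 x hx)
  · intro x hx i j
    show b.coord i ((T : U → U)^[(-j).val] (f (g x))) = b.coord i ((T : U → U)^[(-(j - 1)).val] (f x))
    rw [hfg x (hX0 x hx), ← Function.iterate_succ_apply, Nat.succ_eq_add_one,
      ← iterate_val_add_one hT, show -(j - 1) = -j + 1 by ring]
  · intro x hx
    by_contra hcon
    push Not at hcon
    apply hne x (hX0 x hx)
    apply hfix
    apply b.ext_elem
    intro i
    have h1 := hcon i (-1) 0
    have : Fact (1 < p) := ⟨hp.one_lt⟩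
    simpa [ZMod.val_one] using h1

end Pool.Agent.Lib.MP_7ef860_gt
end

section

/-!
# The Borsuk-Ulam theorem for `ℤ/p`, coincidence form on a compact set
-/

namespace Pool.Agent.Lib.MP_7ef860_gt

variable {E : Type*} [NormedAddCommGroup E] [NormedSpace ℝ E] {p : ℕ} [Fact p.Prime]

/-- The union of the convex hulls of `{g ^ (j i) (v i) | i ≤ N}`, for `j : {0,...,N} → ℤ/p`. -/
def joinSet (p : ℕ) (g : E → E) (v : ℕ → E) (N : ℕ) : Set E :=
  ⋃ j : Fin (N + 1) → Fin p,
    convexHull ℝ (Set.range fun i : Fin (N + 1) => g^[(j i : ℕ)] (v i))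

omit [Fact p.Prime] in
theorem joinSet_compact (g : E → E) (v : ℕ → E) (N : ℕ) : IsCompact (joinSet p g v N) :=
  isCompact_iUnion fun _ => (Set.finite_range _).isCompact_convexHull (𝕜 := ℝ)

theorem joinSet_map (g : E →ₗ[ℝ] E) (hg : (g : E → E)^[p] = id) (v : ℕ → E) (N : ℕ) :
    ∀ x ∈ joinSet p g v N, g x ∈ joinSet p g v N := by
  have hp : p.Prime := Fact.out
  intro x hx
  obtain ⟨j, hj⟩ := Set.mem_iUnion.1 hx
  have h1 : g x ∈ g '' convexHull ℝ
      (Set.range fun i : Fin (N + 1) => (g : E → E)^[(j i : ℕ)] (v i)) := ⟨x, hj, rfl⟩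
  rw [LinearMap.image_convexHull] at h1
  refine Set.mem_iUnion.2 ⟨fun i => ⟨((j i : ℕ) + 1) % p, Nat.mod_lt _ hp.pos⟩, ?_⟩
  refine convexHull_mono ?_ h1
  rintro y ⟨z, ⟨i, rfl⟩, rfl⟩
  refine ⟨i, ?_⟩
  simp only [iterate_mod hg, Function.iterate_succ_apply']

theorem joinSet_nonempty (g : E → E) (v : ℕ → E) (N : ℕ) : (joinSet p g v N).Nonempty := by
  have hp : p.Prime := Fact.out
  exact ⟨v 0, Set.mem_iUnion.2 ⟨fun _ => ⟨0, hp.pos⟩, subset_convexHull ℝ _ ⟨0, rfl⟩⟩⟩

omit [Fact p.Prime] in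
theorem joinSet_ne_zero (g : E → E) (v : ℕ → E) (N : ℕ)
    (hv : ∀ j : ℕ → ℕ, (0 : E) ∉ convexHull ℝ (Set.range fun i => g^[j i] (v i))) :
    ∀ x ∈ joinSet p g v N, x ≠ 0 := by
  intro x hx h0
  obtain ⟨j, hj⟩ := Set.mem_iUnion.1 hx
  subst h0
  refine hv (fun i => if h : i < N + 1 then (j ⟨i, h⟩ : ℕ) else 0) ?_
  refine convexHull_mono ?_ hj
  rintro x ⟨i, rfl⟩
  refine ⟨i, ?_⟩
  have hi : (i : ℕ) < N + 1 := i.2
  simp only [dif_pos hi]

/-- **Borsuk-Ulam for `ℤ/p`**, coincidence form: a continuous family `f x : ℤ/p → R` indexed by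
a compact set which is large enough, with `f (g x) c = f x (c + 1)`, has a constant member. -/
theorem bu_shift (g : E →ₗ[ℝ] E) (hg : (g : E → E)^[p] = id) (v : ℕ → E)
    {R : Type*} [NormedAddCommGroup R] [NormedSpace ℝ R] [FiniteDimensional ℝ R]
    (f : joinSet p g v (Module.finrank ℝ R * p) → ZMod p → R) (hf : Continuous f)
    (hfg : ∀ x x' : joinSet p g v (Module.finrank ℝ R * p), (x' : E) = g x →
      ∀ c, f x' c = f x (c + 1)) :
    ∃ x, ∀ c, f x c = f x 0 := by
  classical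
  have hp : p.Prime := Fact.out
  by_contra hcon
  push Not at hcon
  let b := Module.finBasis ℝ R
  let X : Set E := joinSet p g v (Module.finrank ℝ R * p)
  have hsub : ∀ j : ℕ → ℕ, convexHull ℝ {x | ∃ i ≤ Module.finrank ℝ R * p,
      x = (g : E → E)^[j i] (v i)} ⊆ X := by
    intro j
    refine Set.subset_iUnion_of_subset (fun i => ⟨j i % p, Nat.mod_lt _ hp.pos⟩) ?_
    apply convexHull_mono
    rintro x ⟨i, hi, rfl⟩
    refine ⟨⟨i, by omega⟩, ?_⟩
    simp only [iterate_mod hg]
  refine bu_core g hg v (Module.finrank ℝ R) X (joinSet_compact _ _ _) (joinSet_map g hg v _) hsub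
    (fun x i j => if h : x ∈ X then b.coord i (f ⟨x, h⟩ (-j)) else 0) ?_ ?_ ?_
  · rw [continuousOn_iff_continuous_domRestrict]
    refine continuous_pi fun i => continuous_pi fun j => ?_
    have h3 : Continuous (b.coord i : R → ℝ) := (b.coord i).continuous_of_finiteDimensional
    refine (h3.comp ((continuous_apply (-j)).comp hf)).congr fun a => ?_
    have ha : (a : E) ∈ X := a.2
    simp only [Set.domRestrict_apply, dif_pos ha, Function.comp_apply]
  · intro x hx i j
    have hgx : g x ∈ X := joinSet_map g hg v _ x hx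
    simp only [dif_pos hx, dif_pos hgx, hfg ⟨x, hx⟩ ⟨g x, hgx⟩ rfl]
    rw [show -(j - 1) = -j + 1 by ring]
  · intro x hx
    obtain ⟨c, hc⟩ := hcon ⟨x, hx⟩
    by_contra h2
    push Not at h2
    apply hc
    apply b.ext_elem
    intro i
    have h3 := h2 i (-c) 0
    simpa [dif_pos hx] using h3

end Pool.Agent.Lib.MP_7ef860_gt
end

section

/-!
# Equivariant families of diffeomorphisms

Let `φ` be a smooth map of order dividing a prime `p` on a closed connected manifold `W`. If there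
are arbitrarily highly connected free `ℤ/p`-spaces `X` and `C¹`-continuous families
`G : X → Diff(W)` with `G (g x) = φ ∘ G x`, then `φ` is the identity.
-/

open scoped Manifold ContDiff Topology
open Set Filter

namespace Pool.Agent.Lib.MP_7ef860_gt

variable {V : Type*} [NormedAddCommGroup V] [NormedSpace ℝ V] [FiniteDimensional ℝ V]
  {H : Type*} [TopologicalSpace H] {I : ModelWithCorners ℝ V H} [I.Boundaryless]
  {W : Type*} [TopologicalSpace W] [ChartedSpace H W] [IsManifold I ∞ W]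
  {E : Type*} [NormedAddCommGroup E] [NormedSpace ℝ E] {p : ℕ} [Fact p.Prime]

omit [FiniteDimensional ℝ V] [I.Boundaryless] [IsManifold I ∞ W] in
theorem comp_eq_aux {F : Type*} [NormedAddCommGroup F] [NormedSpace ℝ F] {e : W → F} {φ : W → W}
    {u : W} (hu : φ u = u) {A : V →L[ℝ] V} {B : V →L[ℝ] F}
    (hA : HasMFDerivAt I I φ u A) (hB : HasMFDerivAt I 𝓘(ℝ, F) e u B) :
    HasMFDerivAt I 𝓘(ℝ, F) (e ∘ φ) u (B.comp A) := by
  have h : ∀ y, y = u → HasMFDerivAt I 𝓘(ℝ, F) e y B := by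
    rintro _ rfl
    exact hB
  exact HasMFDerivAt.comp u (h (φ u) hu) hA

theorem family_eq_id [T2Space W] [CompactSpace W] [PreconnectedSpace W] [Nonempty W]
    {φ : W → W} (hφ : ContMDiff I I ∞ φ) (hφp : φ^[p] = id)
    (g : E →ₗ[ℝ] E) (hg : (g : E → E)^[p] = id) (v : ℕ → E)
    (hG : ∀ N, ∃ G : joinSet p g v N → W → W,
      (∀ x, MDifferentiable I I (G x)) ∧
      Continuous (fun q : joinSet p g v N × TangentBundle I W => tangentMap I I (G q.1) q.2) ∧
      (∀ x w, Function.Surjective (mfderiv I I (G x) w)) ∧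
      ∀ x x' : joinSet p g v N, (x' : E) = g x → G x' = φ ∘ G x) : φ = id := by
  classical
  have hp : p.Prime := Fact.out
  have : Fact (1 < p) := ⟨hp.one_lt⟩
  obtain ⟨K, e, he, hemb, hinj⟩ := exists_embedding_euclidean_of_compact (I := I) (M := W)
  obtain ⟨w₀⟩ := ‹Nonempty W›
  let b := Module.finBasis ℝ V
  let vec : Option (Fin (Module.finrank ℝ V)) → V := fun i => i.elim 0 b
  let F := EuclideanSpace ℝ (Fin K)
  obtain ⟨G, hG1, hG2, hG3, hG4⟩ := hG (Module.finrank ℝ
    (Option (Fin (Module.finrank ℝ V)) → F × F) * p)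
  let T : joinSet p g v (Module.finrank ℝ
    (Option (Fin (Module.finrank ℝ V)) → F × F) * p) → ZMod p →
    Option (Fin (Module.finrank ℝ V)) → TangentBundle 𝓘(ℝ, F) F := fun x c i =>
    tangentMap I 𝓘(ℝ, F) (e ∘ φ^[c.val]) (tangentMap I I (G x) ⟨w₀, vec i⟩)
  have hTc : ∀ c i, Continuous fun x => T x c i := by
    intro c i
    have h1 : Continuous (tangentMap I 𝓘(ℝ, F) (e ∘ φ^[c.val])) :=
      (he.comp (hφ.iterate _)).continuous_tangentMap (by simp)
    have h2 : Continuous fun x => tangentMap I I (G x) (⟨w₀, vec i⟩ : TangentBundle I W) :=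
      hG2.comp (Continuous.prodMk_left (⟨w₀, vec i⟩ : TangentBundle I W))
    exact h1.comp h2
  let ex : TangentBundle 𝓘(ℝ, F) F → F × F := fun q => (q.1, q.2)
  have hex : Continuous ex := by
    have h1 := (tangentBundleModelSpaceHomeomorph 𝓘(ℝ, F)).continuous
    exact h1
  have hcoin : ∃ x, ∀ c, (fun i => ex (T x c i)) = fun i => ex (T x 0 i) := by
    refine bu_shift g hg v (R := Option (Fin (Module.finrank ℝ V)) → F × F)
      (fun x c i => ex (T x c i)) ?_ ?_
    · refine continuous_pi fun c => continuous_pi fun i => ?_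
      exact hex.comp (hTc c i)
    · intro x x' hxx c
      funext i
      have h1 : T x' c i = T x (c + 1) i := by
        show tangentMap I 𝓘(ℝ, F) (e ∘ φ^[c.val]) (tangentMap I I (G x') ⟨w₀, vec i⟩) =
          tangentMap I 𝓘(ℝ, F) (e ∘ φ^[(c + 1).val]) (tangentMap I I (G x) ⟨w₀, vec i⟩)
        rw [hG4 x x' hxx, tangentMap_comp (hφ.mdifferentiable (by simp)) (hG1 x),
          Function.comp_apply, iterate_val_add_one hφp, Function.iterate_succ,
          ← Function.comp_assoc, tangentMap_comp (g := e ∘ φ^[c.val]) (f := φ)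
            ((he.comp (hφ.iterate _)).mdifferentiable (by simp)) (hφ.mdifferentiable (by simp)),
          Function.comp_apply]
      rw [h1]
  obtain ⟨x, hx⟩ := hcoin
  set u := G x w₀ with hu
  have hT1 : ∀ i, T x 1 i = tangentMap I 𝓘(ℝ, F) (e ∘ φ) (tangentMap I I (G x) ⟨w₀, vec i⟩) := by
    intro i
    show tangentMap I 𝓘(ℝ, F) (e ∘ φ^[(1 : ZMod p).val]) _ = _
    rw [ZMod.val_one, Function.iterate_one]
  have hT0 : ∀ i, T x 0 i = tangentMap I 𝓘(ℝ, F) e (tangentMap I I (G x) ⟨w₀, vec i⟩) := by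
    intro i
    show tangentMap I 𝓘(ℝ, F) (e ∘ φ^[(0 : ZMod p).val]) _ = _
    rw [ZMod.val_zero, Function.iterate_zero, Function.comp_id]
  have h0 : ∀ i, ex (tangentMap I 𝓘(ℝ, F) (e ∘ φ) (tangentMap I I (G x) ⟨w₀, vec i⟩)) =
      ex (tangentMap I 𝓘(ℝ, F) e (tangentMap I I (G x) ⟨w₀, vec i⟩)) := by
    intro i
    rw [← hT1, ← hT0]
    exact congrFun (hx 1) i
  have h1 : e (φ u) = e u := congrArg Prod.fst (h0 none)
  have hfix : φ u = u := hemb.injective h1
  have hA : HasMFDerivAt I I φ u (mfderiv I I φ u) :=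
    (hφ.mdifferentiableAt (by simp)).hasMFDerivAt
  have hB : HasMFDerivAt I 𝓘(ℝ, F) e u (mfderiv I 𝓘(ℝ, F) e u) :=
    (he.mdifferentiableAt (by simp)).hasMFDerivAt
  have hAB := (comp_eq_aux hfix hA hB).mfderiv
  let D : V →L[ℝ] V := mfderiv I I (G x) w₀
  let A : V →L[ℝ] V := mfderiv I I φ u
  let B : V →L[ℝ] F := mfderiv I 𝓘(ℝ, F) e u
  have h2 : ∀ i, B (A (D (b i))) = B (D (b i)) := by
    intro i
    have h3 : (mfderiv I 𝓘(ℝ, F) (e ∘ φ) u : V →L[ℝ] F) (D (b i)) = B (D (b i)) :=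
      congrArg Prod.snd (h0 (some i))
    have h4 : (mfderiv I 𝓘(ℝ, F) (e ∘ φ) u : V →L[ℝ] F) = B.comp A := hAB
    rw [h4] at h3
    exact h3
  have h3 : ∀ t : V, B (A (D t)) = B (D t) := by
    intro t
    have : ((B.comp A).comp D : V →L[ℝ] F).toLinearMap = (B.comp D).toLinearMap :=
      b.ext fun i => h2 i
    exact LinearMap.congr_fun this t
  have hAid : A = ContinuousLinearMap.id ℝ V := by
    ext1 t
    obtain ⟨t', ht'⟩ := hG3 x w₀ t
    have h4 : D t' = t := ht'
    have h5 := h3 t'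
    rw [h4] at h5
    exact hinj u h5
  have hA' : HasMFDerivAt I I φ u A := hA
  rw [hAid] at hA'
  exact eq_id_of_hasMFDerivAt_id hφ hp.pos hφp hfix hA'

end Pool.Agent.Lib.MP_7ef860_gt
end

section

/-!
# Bundles over `BSU(2)` twisted by unstable Adams maps are not kinetic
-/

open Matrix ComplexConjugate
open scoped Manifold ContDiff Topology

noncomputable section

namespace Pool.Agent.Lib.MP_7ef860_gt

/-! ### The source of the Borsuk-Ulam theorem -/

/-- multiplication by a complex number of norm one, as a real linear map -/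
def mulMap (ζ : Circle) : Hilb →ₗ[ℝ] Hilb where
  toFun x := (ζ : ℂ) • x
  map_add' _ _ := smul_add _ _ _
  map_smul' _ _ := smul_comm _ _ _

theorem mulMap_apply (ζ : Circle) (x : Hilb) : mulMap ζ x = (ζ : ℂ) • x := rfl

theorem mulMap_iterate (ζ : Circle) (n : ℕ) (x : Hilb) :
    (mulMap ζ : Hilb → Hilb)^[n] x = ((ζ : ℂ) ^ n) • x := by
  induction n with
  | zero => simp
  | succ n ih => rw [Function.iterate_succ_apply', ih, mulMap_apply, smul_smul, pow_succ']

/-- the standard basis of `ℓ²` -/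
def stdBasis (i : ℕ) : Hilb := lp.single 2 i (1 : ℂ)

theorem zero_notMem (ζ : Circle) (j : ℕ → ℕ) : (0 : Hilb) ∉ convexHull ℝ
    (Set.range fun i => (mulMap ζ : Hilb → Hilb)^[j i] (stdBasis i)) := by
  let φ : ℕ → Hilb → ℝ := fun i x => (conj ((ζ : ℂ) ^ (j i)) * x i).re
  have hadd : ∀ i (x y : Hilb) (a b : ℝ), φ i (a • x + b • y) = a * φ i x + b * φ i y := by
    intro i x y a b
    simp only [φ, lp.coeFn_add, lp.coeFn_smul, Pi.add_apply, Pi.smul_apply, Complex.real_smul,
      mul_add, Complex.add_re]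
    rw [show conj ((ζ : ℂ) ^ j i) * ((a : ℂ) * x i) = (a : ℂ) * (conj ((ζ : ℂ) ^ j i) * x i) by ring,
      show conj ((ζ : ℂ) ^ j i) * ((b : ℂ) * y i) = (b : ℂ) * (conj ((ζ : ℂ) ^ j i) * y i) by ring,
      Complex.re_ofReal_mul, Complex.re_ofReal_mul]
  let C : Set Hilb := {x | (∀ i, 0 ≤ φ i x) ∧ ∃ i, 0 < φ i x}
  have hC : Convex ℝ C := by
    intro x hx y hy a b ha hb hab
    refine ⟨fun i => ?_, ?_⟩
    · rw [hadd]
      exact add_nonneg (mul_nonneg ha (hx.1 i)) (mul_nonneg hb (hy.1 i))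
    · rcases ha.lt_or_eq with ha' | ha'
      · obtain ⟨i, hi⟩ := hx.2
        refine ⟨i, ?_⟩
        rw [hadd]
        exact add_pos_of_pos_of_nonneg (mul_pos ha' hi) (mul_nonneg hb (hy.1 i))
      · obtain ⟨i, hi⟩ := hy.2
        refine ⟨i, ?_⟩
        rw [hadd]
        have : b = 1 := by linarith
        rw [← ha', this, zero_mul, zero_add, one_mul]
        exact hi
  have hsub : convexHull ℝ (Set.range fun i => (mulMap ζ : Hilb → Hilb)^[j i] (stdBasis i)) ⊆ C := by
    apply convexHull_min _ hC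
    rintro x ⟨i, rfl⟩
    have hval : ∀ l, φ l ((mulMap ζ : Hilb → Hilb)^[j i] (stdBasis i)) = if l = i then 1 else 0 := by
      intro l
      rw [mulMap_iterate]
      simp only [φ, lp.coeFn_smul, Pi.smul_apply, stdBasis, smul_eq_mul]
      by_cases h : l = i
      · subst h
        rw [lp.single_apply_self, mul_one, if_pos rfl, ← Circle.coe_pow, mul_comm, Complex.mul_conj]
        simp
      · rw [lp.single_apply_ne _ _ _ h, if_neg h]
        simp
    refine ⟨fun l => ?_, i, ?_⟩
    · rw [hval]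
      split_ifs <;> norm_num
    · rw [hval, if_pos rfl]
      norm_num
  intro h0
  obtain ⟨-, i, hi⟩ := hsub h0
  simp [φ] at hi

theorem mulMap_period {ζ : Circle} {p : ℕ} (h : ζ ^ p = 1) :
    (mulMap ζ : Hilb → Hilb)^[p] = id := by
  funext x
  rw [mulMap_iterate, ← Circle.coe_pow, h]
  simp

/-- the part of the sphere used in the Borsuk-Ulam theorem -/
abbrev XX (p : ℕ) (ζ : Circle) (N : ℕ) : Set Hilb := joinSet p (mulMap ζ) stdBasis N

section nz

variable {p : ℕ} {ζ : Circle} {N : ℕ}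

theorem XX_ne_zero (x : XX p ζ N) : (x : Hilb) ≠ 0 :=
  joinSet_ne_zero _ _ _ (zero_notMem ζ) x x.2

/-- normalisation -/
def nz (x : XX p ζ N) : ET :=
  ⟨((‖(x : Hilb)‖⁻¹ : ℝ) : ℂ) • (x : Hilb), by
    rw [norm_smul, Complex.norm_real, norm_inv, norm_norm,
      inv_mul_cancel₀ (norm_ne_zero_iff.2 (XX_ne_zero x))]⟩

theorem continuous_nz : Continuous (nz : XX p ζ N → ET) := by
  refine Continuous.subtype_mk ?_ _
  refine Continuous.smul (Complex.continuous_ofReal.comp ?_) continuous_subtype_val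
  exact (continuous_norm.comp continuous_subtype_val).inv₀ fun x =>
    norm_ne_zero_iff.2 (XX_ne_zero x)

variable [Fact p.Prime]

/-- multiplication by `ζ` -/
def rotX (h : ζ ^ p = 1) (x : XX p ζ N) : XX p ζ N :=
  ⟨mulMap ζ x, joinSet_map (mulMap ζ) (mulMap_period h) _ _ x x.2⟩

theorem nz_rotX (h : ζ ^ p = 1) (x : XX p ζ N) : nz (rotX h x) = ζ • nz x := by
  apply Subtype.ext
  show ((‖mulMap ζ (x : Hilb)‖⁻¹ : ℝ) : ℂ) • mulMap ζ (x : Hilb) =
    (ζ : ℂ) • ((‖(x : Hilb)‖⁻¹ : ℝ) : ℂ) • (x : Hilb)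
  rw [mulMap_apply, norm_smul, Circle.norm_coe, one_mul, smul_comm]

/-- The frames over the part `XX` of the sphere. -/
theorem exists_frames {k : ℕ} {ψ : C(BSU2, BSU2)} (hψ : IsUnstableAdams k ψ) (h : ζ ^ p = 1)
    (N : ℕ) : ∃ q : XX p ζ N → Frames ψ, Continuous q ∧
      ∀ x, (q (rotX h x)).1 = (dg ζ • (q x).1.1, dg (ζ ^ k) • (q x).1.2) := by
  obtain ⟨θ, hθ⟩ := hψ
  obtain ⟨K⟩ := hθ.symm
  have hcomp : CompactSpace (XX p ζ N) := isCompact_iff_compactSpace.1 (joinSet_compact _ _ _)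
  obtain ⟨Φ, hΦ1, hΦ2, hΦ3⟩ := exists_lift (X := XX p ζ N)
    (fun q => K (q.2, toBT (nz q.1))) (by
      refine K.continuous.comp (continuous_snd.prodMk ?_)
      exact continuous_toBT.comp (continuous_nz.comp continuous_fst))
    (rotX h) (by
      intro x t
      show K (t, toBT (nz (rotX h x))) = K (t, toBT (nz x))
      rw [nz_rotX, toBT_smul])
    (dg (ζ ^ k)) (fun x => inclET (θ.up (nz x)))
    (continuous_inclET.comp (θ.up.continuous.comp continuous_nz))
    (by
      intro x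
      show toB (inclET (θ.up (nz x))) = K (0, toBT (nz x))
      rw [K.apply_zero]
      rfl)
    (by
      intro x
      rw [nz_rotX, θ.map_smul, inclET_smul])
  have hΦ : ∀ x : XX p ζ N, toB (Φ x) = ψ (toB (inclET (nz x))) := by
    intro x
    rw [hΦ2]
    show K (1, toBT (nz x)) = _
    rw [K.apply_one]
    rfl
  refine ⟨fun x => ⟨(inclET (nz x), Φ x), hΦ x⟩, ?_, ?_⟩
  · exact Continuous.subtype_mk ((continuous_inclET.comp continuous_nz).prodMk hΦ1) _
  · intro x
    show (inclET (nz (rotX h x)), Φ (rotX h x)) = (dg ζ • inclET (nz x), dg (ζ ^ k) • Φ x)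
    rw [nz_rotX, inclET_smul, hΦ3]

end nz

/-! ### Isomorphisms in the frames -/

section iso

variable {V : Type} [NormedAddCommGroup V] [NormedSpace ℝ V] {H : Type} [TopologicalSpace H]
  {I : ModelWithCorners ℝ V H} {W : Type} [TopologicalSpace W] [ChartedSpace H W]

theorem act_inv (s : SmoothAction I W) (g : SU2) (w : W) : s.act g⁻¹ (s.act g w) = w := by
  have h1 := congrFun (s.map_mul g⁻¹ g) w
  rw [inv_mul_cancel, s.map_one] at h1
  exact h1.symm

theorem act_inv' (s : SmoothAction I W) (g : SU2) (w : W) : s.act g (s.act g⁻¹ w) = w := by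
  have := act_inv s g⁻¹ w
  rwa [inv_inv] at this

theorem frame_smul (s : SmoothAction I W) (g : SU2) (x : ESU2) (w : W) :
    s.frame (g • x) (s.act g w) = s.frame x w :=
  (Quotient.sound (s := s.setoid) (a := (x, w)) (b := (g • x, s.act g w)) ⟨g, rfl⟩).symm

theorem frame_injective (s : SmoothAction I W) (x : ESU2) {w w' : W}
    (h : s.frame x w = s.frame x w') : w = w' := by
  obtain ⟨g, hg⟩ := Quotient.exact (s := s.setoid) h
  have h1 : g • x = x := (congrArg Prod.fst hg).symm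
  have h2 : w' = s.act g w := congrArg Prod.snd hg
  rw [smul_free h1, s.map_one] at h2
  exact h2.symm

variable [IsManifold I ∞ W] {ψ : C(BSU2, BSU2)} {s s' : SmoothAction I W}

theorem iso_F (Θ : SmoothIso ψ s s') (q q' : Frames ψ) (A B : SU2)
    (h : q'.1 = (A • q.1.1, B • q.1.2)) (w : W) :
    Θ.F q' (s'.act A w) = s.act B (Θ.F q w) := by
  have h1 := Θ.toHomeomorph_frame q' (s'.act A w)
  have h2 := Θ.toHomeomorph_frame q w
  have hq1 : q'.1.1 = A • q.1.1 := congrArg Prod.fst h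
  have hq2 : q'.1.2 = B • q.1.2 := congrArg Prod.snd h
  rw [hq1, frame_smul, h2] at h1
  have h3 : s.frame q.1.2 (Θ.F q w) = s.frame q'.1.2 (Θ.F q' (s'.act A w)) :=
    congrArg (fun e : Pullback ψ s => e.1.2) h1
  rw [hq2, ← frame_smul s B] at h3
  exact (frame_injective s _ h3).symm

theorem iso_G (Θ : SmoothIso ψ s s') (q q' : Frames ψ) (A B : SU2)
    (h : q'.1 = (A • q.1.1, B • q.1.2)) (w : W) :
    Θ.G q' (s.act B w) = s'.act A (Θ.G q w) := by
  have h1 := iso_F Θ q q' A B h (Θ.G q w)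
  rw [Θ.right_inv q w] at h1
  rw [← h1, Θ.left_inv]

omit [IsManifold I ∞ W] in
theorem surjective_mfderiv {F G : W → W} (hF : MDifferentiable I I F)
    (hG : MDifferentiable I I G) (h1 : Function.LeftInverse G F)
    (h2 : Function.RightInverse G F) (w : W) : Function.Surjective (mfderiv I I F w) := by
  have key : ∀ u, Function.Surjective (mfderiv I I F (G u)) := by
    intro u
    have h3 : HasMFDerivAt I I (F ∘ G) u ((mfderiv I I F (G u)).comp (mfderiv I I G u)) :=
      HasMFDerivAt.comp u (hF (G u)).hasMFDerivAt (hG u).hasMFDerivAt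
    have h4 : F ∘ G = id := funext h2
    rw [h4] at h3
    have h5 : HasMFDerivAt I I (id : W → W) u (ContinuousLinearMap.id ℝ (TangentSpace I u)) :=
      hasMFDerivAt_id u
    have h6 := hasMFDerivAt_unique h3 h5
    intro t
    exact ⟨mfderiv I I G u t, DFunLike.congr_fun h6 t⟩
  have := key (F w)
  rwa [h1 w] at this

theorem act_iterate (s : SmoothAction I W) (g : SU2) (n : ℕ) : (s.act g)^[n] = s.act (g ^ n) := by
  induction n with
  | zero => rw [Function.iterate_zero, pow_zero, s.map_one]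
  | succ n ih => rw [Function.iterate_succ, ih, pow_succ, s.map_mul]

theorem act_iterate_eq_id (s : SmoothAction I W) {ζ : Circle} {p : ℕ} (h : ζ ^ p = 1) :
    (s.act (dg ζ))^[p] = id := by
  rw [act_iterate, ← map_pow, h, _root_.map_one, s.map_one]

/-- The kernel of an action. -/
def kerAct (s : SmoothAction I W) : Subgroup SU2 where
  carrier := {g | s.act g = id}
  mul_mem' := by
    intro a b ha hb
    show s.act (a * b) = id
    rw [s.map_mul, show s.act a = id from ha, show s.act b = id from hb, Function.id_comp]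
  one_mem' := s.map_one
  inv_mem' := by
    intro a ha
    show s.act a⁻¹ = id
    funext w
    have h1 := act_inv s a w
    rw [show s.act a = id from ha] at h1
    exact h1

theorem kerAct_normal (s : SmoothAction I W) : (kerAct s).Normal := by
  constructor
  intro n hn g
  show s.act (g * n * g⁻¹) = id
  rw [s.map_mul, s.map_mul, show s.act n = id from hn, Function.comp_id]
  funext w
  exact act_inv' s g w

variable [FiniteDimensional ℝ V] [I.Boundaryless] [T2Space W] [CompactSpace W] [ConnectedSpace W]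
  {p : ℕ} [Fact p.Prime] {ζ : Circle} {k : ℕ}

theorem step_one (Θ : SmoothIso ψ s s') (hψ : IsUnstableAdams k ψ) (hζ : ζ ^ p = 1)
    (hk : ζ ^ k = 1) : s'.act (dg ζ) = id := by
  refine family_eq_id (p := p) (s'.smooth _) (act_iterate_eq_id s' hζ) (mulMap ζ)
    (mulMap_period hζ) stdBasis ?_
  intro N
  obtain ⟨q, hq, hqr⟩ := exists_frames hψ hζ N
  refine ⟨fun x => Θ.G (q x), ?_, ?_, ?_, ?_⟩
  · exact fun x => (Θ.continuousFamily_G.1 (q x)).mdifferentiable (by simp)
  · exact Θ.continuousFamily_G.2.comp ((hq.comp continuous_fst).prodMk continuous_snd)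
  · intro x w
    exact surjective_mfderiv ((Θ.continuousFamily_G.1 (q x)).mdifferentiable (by simp))
      ((Θ.continuousFamily_F.1 (q x)).mdifferentiable (by simp)) (Θ.right_inv (q x))
      (Θ.left_inv (q x)) w
  · intro x x' hxx
    have hx' : x' = rotX hζ x := Subtype.ext hxx
    subst hx'
    funext w
    have h1 := iso_G Θ (q x) (q (rotX hζ x)) (dg ζ) (dg (ζ ^ k)) (hqr x) w
    rw [hk, _root_.map_one, s.map_one] at h1
    exact h1

theorem step_two (Θ : SmoothIso ψ s s') (hψ : IsUnstableAdams k ψ) (hζ : ζ ^ p = 1)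
    (hs' : ∀ g, s'.act g = id) : s.act (dg (ζ ^ k)) = id := by
  have hζk : (ζ ^ k) ^ p = 1 := by rw [← pow_mul, mul_comm, pow_mul, hζ, one_pow]
  refine family_eq_id (p := p) (s.smooth _) (act_iterate_eq_id s hζk) (mulMap ζ)
    (mulMap_period hζ) stdBasis ?_
  intro N
  obtain ⟨q, hq, hqr⟩ := exists_frames hψ hζ N
  refine ⟨fun x => Θ.F (q x), ?_, ?_, ?_, ?_⟩
  · exact fun x => (Θ.continuousFamily_F.1 (q x)).mdifferentiable (by simp)
  · exact Θ.continuousFamily_F.2.comp ((hq.comp continuous_fst).prodMk continuous_snd)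
  · intro x w
    exact surjective_mfderiv ((Θ.continuousFamily_F.1 (q x)).mdifferentiable (by simp))
      ((Θ.continuousFamily_G.1 (q x)).mdifferentiable (by simp)) (Θ.left_inv (q x))
      (Θ.right_inv (q x)) w
  · intro x x' hxx
    have hx' : x' = rotX hζ x := Subtype.ext hxx
    subst hx'
    funext w
    have h1 := iso_F Θ (q x) (q (rotX hζ x)) (dg ζ) (dg (ζ ^ k)) (hqr x) w
    rw [hs'] at h1
    exact h1

omit [Fact p.Prime] in
theorem exists_root (hp : p ≠ 0) : ∃ ζ : Circle, IsPrimitiveRoot (ζ : ℂ) p := by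
  have h := Complex.isPrimitiveRoot_exp p hp
  refine ⟨circ _ ?_, h⟩
  rw [Complex.normSq_eq_norm_sq, h.norm'_eq_one hp, one_pow]

theorem not_kinetic (s s' : SmoothAction I W) (hs : ∃ g, s.act g ≠ id) (hk : Odd k)
    (hk1 : 1 < k) (hψ : IsUnstableAdams k ψ) : IsEmpty (SmoothIso ψ s s') := by
  refine ⟨fun Θ => ?_⟩
  -- first step: the action `s'` is trivial
  have hs' : ∀ g, s'.act g = id := by
    have hp : (k.minFac).Prime := Nat.minFac_prime hk1.ne'
    have : Fact (k.minFac).Prime := ⟨hp⟩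
    obtain ⟨ζ, hζ⟩ := exists_root (p := k.minFac) hp.ne_zero
    have h1 : ζ ^ k.minFac = 1 := Circle.ext (by simpa using hζ.pow_eq_one)
    have h2 : ζ ^ k = 1 := Circle.ext (by
      simpa using (hζ.pow_eq_one_iff_dvd k).2 (Nat.minFac_dvd k))
    have h3 : ζ ^ 2 ≠ 1 := by
      intro h
      have h4 : (ζ : ℂ) ^ 2 = 1 := by
        rw [← Circle.coe_pow, h, Circle.coe_one]
      have h5 := (hζ.pow_eq_one_iff_dvd 2).1 h4
      have h6 : k.minFac = 2 := (Nat.prime_dvd_prime_iff_eq hp Nat.prime_two).1 h5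
      have h7 := Nat.minFac_dvd k
      rw [h6] at h7
      exact (Nat.not_even_iff_odd.2 hk) (even_iff_two_dvd.2 h7)
    have h4 : dg ζ ∈ kerAct s' := step_one Θ hψ h1 h2
    have h5 := normal_eq_top (kerAct_normal s') h4 h3
    intro g
    have h6 : g ∈ kerAct s' := by
      rw [h5]
      exact Subgroup.mem_top g
    exact h6
  -- second step: the action `s` is trivial
  obtain ⟨g, hg⟩ := hs
  apply hg
  obtain ⟨q, hqk, hq⟩ := Nat.exists_infinite_primes (2 * k + 1)
  have : Fact q.Prime := ⟨hq⟩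
  obtain ⟨ζ, hζ⟩ := exists_root (p := q) hq.ne_zero
  have h1 : ζ ^ q = 1 := Circle.ext (by simpa using hζ.pow_eq_one)
  have h3 : (ζ ^ k) ^ 2 ≠ 1 := by
    intro h
    have h4 : (ζ : ℂ) ^ (k * 2) = 1 := by
      rw [pow_mul, ← Circle.coe_pow, ← Circle.coe_pow, h, Circle.coe_one]
    have h5 := (hζ.pow_eq_one_iff_dvd (k * 2)).1 h4
    have h6 := Nat.le_of_dvd (by omega) h5
    omega
  have h4 : dg (ζ ^ k) ∈ kerAct s := step_two Θ hψ h1 hs'
  have h5 := normal_eq_top (kerAct_normal s) h4 h3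
  have h6 : g ∈ kerAct s := by
    rw [h5]
    exact Subgroup.mem_top g
  exact h6

end iso

end Pool.Agent.Lib.MP_7ef860_gt
end
end
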